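import Pool.Agent.EWar.Tame

/-!
Large tame sets of lists with values up to `M`, by the method of diminishing ranges.
-/

set_option autoImplicit false

open Set Filter Topology

namespace Pool.Agent.EWar

/-- the exponent of the cardinality -/
noncomputable def fE (p1 r : ℝ) : ℕ → ℝ
  | 0 => 0
  | j + 1 => 1 / p1 + r * fE p1 r j

theorem fE_nonneg {p1 r : ℝ} (hp1 : 0 < p1) (hr : 0 ≤ r) (j : ℕ) : 0 ≤ fE p1 r j := by
  induction j with
  | zero => exact le_rfl
  | succ j ih =>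
    unfold fE
    positivity

/-- the choice of the scale -/
theorem choose_scale {Z T φ : ℝ} (hT : 0 < T) (hZ : Real.exp T ≤ Z) :
    ∃ (X : ℕ) (n : ℤ), 1 ≤ X ∧ (X : ℝ) ≤ 2 * Z ∧ Real.exp (-T) * Z ≤ X ∧
      T * n + φ ≤ Real.log X ∧ Real.log ((2 * X : ℕ) : ℝ) + 2 ≤ T * n + φ + 4 := by
  have hZ0 : 0 < Z := (Real.exp_pos T).trans_le hZ
  set n : ℤ := ⌊(Real.log Z - φ) / T⌋ with hn
  set E : ℝ := Real.exp (T * n + φ) with hE
  have h1 : (n : ℝ) * T ≤ Real.log Z - φ := by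
    have := Int.floor_le ((Real.log Z - φ) / T)
    rwa [le_div_iff₀ hT] at this
  have h2 : Real.log Z - φ < ((n : ℝ) + 1) * T := by
    have := Int.lt_floor_add_one ((Real.log Z - φ) / T)
    rwa [div_lt_iff₀ hT] at this
  have hEZ : E ≤ Z := by
    rw [hE, ← Real.le_log_iff_exp_le hZ0]
    linarith
  have hE0 : 0 < E := Real.exp_pos _
  have hlogE : Real.log E = T * n + φ := Real.log_exp _
  have hEZ2 : Real.exp (-T) * Z ≤ E := by
    have h3 : Real.exp (-T) * Z = Real.exp (-T + Real.log Z) := by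
      rw [Real.exp_add, Real.exp_log hZ0]
    rw [h3, hE]
    exact Real.exp_le_exp.2 (by linarith)
  have hE1 : 1 ≤ E := by
    refine le_trans ?_ hEZ2
    have h4 : Real.exp (-T) * Real.exp T = 1 := by
      rw [← Real.exp_add, neg_add_cancel, Real.exp_zero]
    rw [← h4]
    exact mul_le_mul_of_nonneg_left hZ (Real.exp_pos _).le
  have hX1 : E ≤ (⌈E⌉₊ : ℝ) := Nat.le_ceil E
  have hX2 : (⌈E⌉₊ : ℝ) < E + 1 := Nat.ceil_lt_add_one hE0.le
  have hX0 : (0 : ℝ) < (⌈E⌉₊ : ℝ) := by linarith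
  refine ⟨⌈E⌉₊, n, ?_, by linarith, by linarith, ?_, ?_⟩
  · exact_mod_cast hX0
  · rw [← hlogE]
    exact Real.log_le_log hE0 hX1
  · have h5 : Real.log ((2 * ⌈E⌉₊ : ℕ) : ℝ) ≤ Real.log (4 * E) := by
      push_cast
      exact Real.log_le_log (by linarith) (by linarith)
    have h6 : Real.log (4 * E) = Real.log 4 + (T * n + φ) := by
      rw [Real.log_mul (by norm_num) hE0.ne', hlogE]
    have h7 : Real.log 4 ≤ 2 := by
      have h8 : Real.log 4 = 2 * Real.log 2 := by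
        rw [show (4 : ℝ) = 2 ^ 2 by norm_num, Real.log_pow]
        norm_num
      have := Real.log_two_lt_d9
      rw [h8]
      linarith
    linarith

theorem block {p0 p1 δ T : ℝ} (hp0 : 1 < p0) (h01 : p0 ≤ p1) (hδ : 0 < δ) (hδ' : δ < p0 - 1)
    (hT : 0 < T) (j : ℕ) : ∃ c M0 : ℝ, 0 < c ∧ c ≤ 1 ∧ 1 ≤ M0 ∧ ∀ M : ℝ, M0 ≤ M → ∀ φ : ℝ,
    ∃ B : Finset (List ℕ), (∀ l ∈ B, l.length = j ∧ (∀ x ∈ l, 0 < x) ∧ val l p1 ≤ M) ∧
      TameSet p0 p1 (c * M ^ (((p0 - 1 - δ) / p1) ^ j)) (Real.log M + 5) T φ 4 B ∧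
      c * M ^ (fE p1 ((p0 - 1 - δ) / p1) j) ≤ B.card := by
  have hp1 : 0 < p1 := by linarith
  set q : ℝ := p0 - 1 - δ with hq
  have hq0 : 0 < q := by linarith
  set r : ℝ := q / p1 with hr
  have hr0 : 0 < r := div_pos hq0 hp1
  have hr1 : r ≤ 1 := by
    rw [hr, div_le_one hp1]
    linarith
  induction j with
  | zero =>
    refine ⟨1, 1, one_pos, le_rfl, le_rfl, fun M hM φ => ⟨{[]}, ?_, ?_, ?_⟩⟩
    · intro l hl
      rw [Finset.mem_singleton] at hl
      subst hl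
      refine ⟨rfl, by simp, ?_⟩
      show (0 : ℝ) ≤ M
      linarith
    · intro p _ l hl l' hl' hne
      rw [Finset.mem_singleton] at hl hl'
      exact absurd (hl.trans hl'.symm) hne
    · simp [fE]
  | succ j ih =>
    obtain ⟨c, M0, hc, hc1, hM0, h⟩ := ih
    set k1 : ℝ := Real.exp (-T) / 8 with hk1
    have hk1pos : 0 < k1 := by positivity
    have hk1le : k1 ≤ 1 := by
      have : Real.exp (-T) ≤ 1 := Real.exp_le_one_iff.2 (by linarith)
      rw [hk1]
      linarith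
    set c1 : ℝ := k1 ^ q with hc1def
    have hc1pos : 0 < c1 := Real.rpow_pos_of_pos hk1pos _
    have hc1le : c1 ≤ 1 := Real.rpow_le_one hk1pos.le hk1le hq0.le
    have hf0 : 0 ≤ fE p1 r j := fE_nonneg hp1 hr0.le j
    have hcf : 0 < c1 ^ (fE p1 r j) := Real.rpow_pos_of_pos hc1pos _
    have hcf1 : c1 ^ (fE p1 r j) ≤ 1 := Real.rpow_le_one hc1pos.le hc1le hf0
    -- the conditions on `M`
    have hev : ∀ᶠ M : ℝ in atTop, 1 ≤ M ∧ Real.exp T ≤ M ^ (1 / p1) / 8 ∧ M0 ≤ c1 * M ^ r ∧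
        8 * Real.log M + 8 ≤ (k1 * M ^ (1 / p1)) ^ δ := by
      have t1 : Tendsto (fun M : ℝ => M ^ (1 / p1) / 8) atTop atTop :=
        (tendsto_rpow_atTop (by positivity)).atTop_div_const (by norm_num)
      have t2 : Tendsto (fun M : ℝ => c1 * M ^ r) atTop atTop :=
        (tendsto_rpow_atTop hr0).const_mul_atTop hc1pos
      have hpp : 0 < 1 / p1 * δ := by positivity
      have t3 : ∀ᶠ M : ℝ in atTop, 8 * Real.log M + 8 ≤ (k1 * M ^ (1 / p1)) ^ δ := by
        have hk1d : 0 < k1 ^ δ := Real.rpow_pos_of_pos hk1pos _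
        have i1 := (isLittleO_log_rpow_atTop hpp).bound (c := k1 ^ δ / 16) (by positivity)
        have i2 : Tendsto (fun M : ℝ => M ^ (1 / p1 * δ)) atTop atTop := tendsto_rpow_atTop hpp
        filter_upwards [i1, i2.eventually_ge_atTop (16 / k1 ^ δ), eventually_ge_atTop 1]
          with M j1 j2 j3
        have hM0' : 0 < M := by linarith
        have hlog : 0 ≤ Real.log M := Real.log_nonneg j3
        have hpow : 0 < M ^ (1 / p1 * δ) := Real.rpow_pos_of_pos hM0' _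
        rw [Real.norm_eq_abs, Real.norm_eq_abs, abs_of_nonneg hlog, abs_of_pos hpow] at j1
        rw [Real.mul_rpow hk1pos.le (Real.rpow_nonneg hM0'.le _), ← Real.rpow_mul hM0'.le]
        rw [div_le_iff₀ hk1d] at j2
        linarith
      filter_upwards [eventually_ge_atTop 1, t1.eventually_ge_atTop (Real.exp T),
        t2.eventually_ge_atTop M0, t3] with M a1 a2 a3 a4
      exact ⟨a1, a2, a3, a4⟩
    obtain ⟨N0, hN0⟩ := eventually_atTop.1 hev
    refine ⟨k1 * c * c1 * c1 ^ (fE p1 r j) / 2, max 1 N0, by positivity, ?_, le_max_left _ _,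
      fun M hM φ => ?_⟩
    · have h1 : k1 * c * c1 * c1 ^ (fE p1 r j) ≤ 1 * 1 * 1 * 1 := by gcongr
      linarith
    obtain ⟨hM1, hMZ, hMM, hMlog⟩ := hN0 M ((le_max_right _ _).trans hM)
    have hMpos : 0 < M := by linarith
    have hMp : 0 < M ^ (1 / p1) := Real.rpow_pos_of_pos hMpos _
    -- the scale
    obtain ⟨X, n, hX1, hX2, hX3, hX4, hX5⟩ := choose_scale (φ := φ) hT hMZ
    have hXr : (1 : ℝ) ≤ X := by exact_mod_cast hX1
    have hX0 : (0 : ℝ) < X := by linarith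
    have hXk : k1 * M ^ (1 / p1) ≤ X := by
      refine le_trans (le_of_eq ?_) hX3
      rw [hk1]
      ring
    have hX2' : 2 * (X : ℝ) ≤ M ^ (1 / p1) / 2 := by linarith
    have hMpp : (M ^ (1 / p1)) ^ p1 = M := by
      rw [← Real.rpow_mul hMpos.le, one_div, inv_mul_cancel₀ hp1.ne', Real.rpow_one]
    have h2Xp : (2 * (X : ℝ)) ^ p1 ≤ M / 2 := by
      have h3 : (2 * (X : ℝ)) ^ p1 ≤ (M ^ (1 / p1) / 2) ^ p1 :=
        Real.rpow_le_rpow (by positivity) hX2' hp1.le
      rw [Real.div_rpow hMp.le (by norm_num), hMpp] at h3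
      refine h3.trans (div_le_div_of_nonneg_left hMpos.le (by norm_num) ?_)
      calc (2 : ℝ) = 2 ^ (1 : ℝ) := (Real.rpow_one _).symm
        _ ≤ 2 ^ p1 := Real.rpow_le_rpow_of_exponent_le (by norm_num) (by linarith)
    have h2XM : 2 * (X : ℝ) ≤ M := by
      calc 2 * (X : ℝ) = (2 * (X : ℝ)) ^ (1 : ℝ) := (Real.rpow_one _).symm
        _ ≤ (2 * (X : ℝ)) ^ p1 :=
          Real.rpow_le_rpow_of_exponent_le (by linarith) (by linarith)
        _ ≤ M := by linarith
    set M' : ℝ := (X : ℝ) ^ q with hM'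
    have hM'c : c1 * M ^ r ≤ M' := by
      have h4 : (k1 * M ^ (1 / p1)) ^ q ≤ M' := Real.rpow_le_rpow (by positivity) hXk hq0.le
      refine le_trans (le_of_eq ?_) h4
      rw [Real.mul_rpow hk1pos.le hMp.le, ← Real.rpow_mul hMpos.le, hc1def, hr]
      congr 2
      ring
    have hM'M0 : M0 ≤ M' := hMM.trans hM'c
    have hM'1 : 1 ≤ M' := hM0.trans hM'M0
    have hM'X : M' ≤ (X : ℝ) ^ (p0 - 1) :=
      Real.rpow_le_rpow_of_exponent_le hXr (by linarith)
    have hXM2 : (X : ℝ) ^ (p0 - 1) ≤ M / 2 := by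
      calc (X : ℝ) ^ (p0 - 1) ≤ (X : ℝ) ^ p1 :=
            Real.rpow_le_rpow_of_exponent_le hXr (by linarith)
        _ ≤ (2 * (X : ℝ)) ^ p1 := Real.rpow_le_rpow hX0.le (by linarith) hp1.le
        _ ≤ M / 2 := h2Xp
    have hM'M : M' ≤ M / 2 := hM'X.trans hXM2
    obtain ⟨B, hB1, hB2, hB3⟩ := h M' hM'M0 φ
    have hlogM' : Real.log M' ≤ Real.log M := Real.log_le_log (by linarith) (by linarith)
    have hlogM0 : 0 ≤ Real.log M' := Real.log_nonneg hM'1
    have hrj0 : 0 ≤ r ^ j := by positivity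
    have hrj1 : r ^ j ≤ 1 := pow_le_one₀ hr0.le hr1
    have hsepM : c1 * M ^ (r ^ (j + 1)) ≤ M' ^ (r ^ j) := by
      have h12 : (c1 * M ^ r) ^ (r ^ j) ≤ M' ^ (r ^ j) :=
        Real.rpow_le_rpow (by positivity) hM'c hrj0
      refine le_trans ?_ h12
      rw [Real.mul_rpow hc1pos.le (by positivity), ← Real.rpow_mul hMpos.le, ← pow_succ']
      refine mul_le_mul_of_nonneg_right ?_ (by positivity)
      calc c1 = c1 ^ (1 : ℝ) := (Real.rpow_one _).symm
        _ ≤ c1 ^ (r ^ j) := Real.rpow_le_rpow_of_exponent_ge hc1pos hc1le hrj1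
    have hsg : k1 * c * c1 * c1 ^ (fE p1 r j) / 2 * M ^ (r ^ (j + 1)) ≤
        c * M' ^ (r ^ j) / 2 := by
      have h0 : 0 ≤ M ^ (r ^ (j + 1)) := Real.rpow_nonneg hMpos.le _
      calc k1 * c * c1 * c1 ^ (fE p1 r j) / 2 * M ^ (r ^ (j + 1))
          ≤ 1 * c * c1 * 1 / 2 * M ^ (r ^ (j + 1)) := by gcongr
        _ = c * (c1 * M ^ (r ^ (j + 1))) / 2 := by ring
        _ ≤ c * M' ^ (r ^ j) / 2 := by gcongr
    refine ⟨consSet X (2 * X) B, ?_, ?_, ?_⟩
    · intro l hl
      obtain ⟨x, m, hx1, hx2, hm, rfl⟩ := mem_consSet.1 hl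
      obtain ⟨b1, b2, b3⟩ := hB1 m hm
      refine ⟨by simp [b1], ?_, ?_⟩
      · intro y hy
        rcases List.mem_cons.1 hy with h5 | h5
        · omega
        · exact b2 y h5
      · rw [val_cons, pw_eq (by omega)]
        have h6 : (x : ℝ) ≤ 2 * X := by
          have : x ≤ 2 * X := hx2.le
          exact_mod_cast this
        have h7 : (x : ℝ) ^ p1 ≤ (2 * (X : ℝ)) ^ p1 :=
          Real.rpow_le_rpow (Nat.cast_nonneg _) h6 hp1.le
        linarith
    · refine consSet_tame (q := Real.log M) (R := M') (n := n) hp0.le hX1 hB2 ?_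
        (fun l hl => (hB1 l hl).2.2) ?_ ?_ ?_ ?_ ?_ ?_ le_rfl le_rfl hX4 hX5
      · intro l hl x hx
        obtain ⟨b1, b2, b3⟩ := hB1 l hl
        exact (log_le_of_val (by linarith) b2 b3 x hx).trans hlogM'
      · refine Real.log_le_log ?_ ?_
        · push_cast
          linarith
        · push_cast
          linarith
      · have h8 : (X : ℝ) ^ (p0 - 1) = M' * (X : ℝ) ^ δ := by
          rw [hM', ← Real.rpow_add hX0]
          congr 1
          rw [hq]
          ring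
        rw [h8]
        refine mul_le_mul_of_nonneg_left ?_ (by linarith)
        refine hMlog.trans ?_
        exact Real.rpow_le_rpow (by positivity) hXk hδ.le
      · have h9 : 0 ≤ c * M' ^ (r ^ j) := by positivity
        linarith
      · have h10 : M' ^ (r ^ j) ≤ M' := by
          calc M' ^ (r ^ j) ≤ M' ^ (1 : ℝ) := Real.rpow_le_rpow_of_exponent_le hM'1 hrj1
            _ = M' := Real.rpow_one _
        have h11 : c * M' ^ (r ^ j) ≤ 1 * M' ^ (r ^ j) := by gcongr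
        linarith
      · linarith
      · linarith
    · rw [card_consSet]
      have h22 : 2 * X - X = X := by omega
      rw [h22]
      push_cast
      have h23 : c1 ^ (fE p1 r j) * M ^ (r * fE p1 r j) ≤ M' ^ (fE p1 r j) := by
        have h12 : (c1 * M ^ r) ^ (fE p1 r j) ≤ M' ^ (fE p1 r j) :=
          Real.rpow_le_rpow (by positivity) hM'c hf0
        refine le_trans (le_of_eq ?_) h12
        rw [Real.mul_rpow hc1pos.le (by positivity), ← Real.rpow_mul hMpos.le]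
      have h24 : M ^ (fE p1 r (j + 1)) = M ^ (1 / p1) * M ^ (r * fE p1 r j) := by
        rw [← Real.rpow_add hMpos]
        rfl
      rw [h24]
      have h25 : 0 ≤ M ^ (r * fE p1 r j) := Real.rpow_nonneg hMpos.le _
      calc k1 * c * c1 * c1 ^ (fE p1 r j) / 2 * (M ^ (1 / p1) * M ^ (r * fE p1 r j))
          ≤ k1 * c * 1 * c1 ^ (fE p1 r j) / 1 * (M ^ (1 / p1) * M ^ (r * fE p1 r j)) := by
            gcongr
            norm_num
        _ = (k1 * M ^ (1 / p1)) * (c * (c1 ^ (fE p1 r j) * M ^ (r * fE p1 r j))) := by ring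
        _ ≤ X * (c * M' ^ (fE p1 r j)) := by gcongr
        _ ≤ X * B.card := by gcongr

end Pool.Agent.EWar
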