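import Pool.Agent.EWar.Var

/-!
Chebyshev's inequality for a fixed parameter, and the sum of reciprocal distances in a separated
family.
-/

set_option autoImplicit false

open MeasureTheory Set Filter Topology

namespace Pool.Agent.EWar

open Pool.Agent.MWar (gk GG ph ph_zero ph_eq ph_nonneg)

variable {ι κ : Type*} [DecidableEq ι] [DecidableEq κ]

/-- the points of `[y1, y2]` that are not within `e` of a value -/
def badY (A : Finset ι) (B : Finset κ) (f : ι → ℝ → ℝ) (g : κ → ℝ → ℝ) (e x y1 y2 : ℝ) : Set ℝ :=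
  {y | y ∈ Icc y1 y2 ∧ ∀ a ∈ A, ∀ b ∈ B, e < |f a x + g b x - y|}

theorem measurableSet_badY (A : Finset ι) (B : Finset κ) (f : ι → ℝ → ℝ) (g : κ → ℝ → ℝ)
    (e x y1 y2 : ℝ) : MeasurableSet (badY A B f g e x y1 y2) := by
  have h : badY A B f g e x y1 y2 = Icc y1 y2 ∩ ⋂ a ∈ A, ⋂ b ∈ B,
      {y | e < |f a x + g b x - y|} := by
    ext y
    simp [badY]
  rw [h]
  refine measurableSet_Icc.inter (Finset.measurableSet_biInter _ fun a _ =>
    Finset.measurableSet_biInter _ fun b _ => ?_)
  exact (isOpen_lt continuous_const (by fun_prop)).measurableSet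

theorem volume_badY_ne_top (A : Finset ι) (B : Finset κ) (f : ι → ℝ → ℝ) (g : κ → ℝ → ℝ)
    (e x y1 y2 : ℝ) : volume (badY A B f g e x y1 y2) ≠ ⊤ := by
  have hsub : badY A B f g e x y1 y2 ⊆ Icc y1 y2 := fun y hy => hy.1
  exact ((measure_mono hsub).trans_lt (by simp)).ne

/-- Chebyshev inequality for a fixed parameter -/
theorem cheb {A : Finset ι} {B : Finset κ} {f : ι → ℝ → ℝ} {g : κ → ℝ → ℝ}
    {e H x y1 y2 ka : ℝ} (he : 0 < e) (heH : e ≤ H) (hka : 0 ≤ ka)
    (hcount : ∀ y ∈ Icc y1 y2, ∀ b ∈ B,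
      ka ≤ ((A.filter fun a => |f a x - (y - g b x)| < H).card : ℝ)) :
    (B.card * ka / (2 * H)) ^ 2 * (volume (badY A B f g e x y1 y2)).toReal ≤
      WW A B f g e H x := by
  have hH : 0 < H := he.trans_le heH
  rw [← integral_FF_sq he heH]
  have hfin := volume_badY_ne_top A B f g e x y1 y2
  have h1 : (B.card * ka / (2 * H)) ^ 2 * (volume (badY A B f g e x y1 y2)).toReal =
      ∫ _ in badY A B f g e x y1 y2, (B.card * ka / (2 * H)) ^ 2 := by
    rw [setIntegral_const, measureReal_def, smul_eq_mul, mul_comm]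
  rw [h1]
  have h1' : ∫ y in badY A B f g e x y1 y2, FF A B f g e H x y ^ 2 ≤
      ∫ y, FF A B f g e H x y ^ 2 :=
    setIntegral_le_integral (FF_sq_integrable he heH A B f g x)
      (Eventually.of_forall fun y => sq_nonneg _)
  refine le_trans ?_ h1'
  refine setIntegral_mono_on (integrableOn_const hfin)
    (FF_sq_integrable he heH A B f g x).integrableOn
    (measurableSet_badY _ _ _ _ _ _ _ _) fun y hy => ?_
  have h2 : FF A B f g e H x y = - ∑ p ∈ A ×ˢ B, ph H (f p.1 x + g p.2 x - y) := by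
    unfold FF
    rw [← Finset.sum_neg_distrib]
    refine Finset.sum_congr rfl fun p hp => ?_
    rw [Finset.mem_product] at hp
    unfold gk
    rw [ph_zero (hy.2 _ hp.1 _ hp.2), zero_sub]
  have h3 : B.card * ka / (2 * H) ≤ ∑ p ∈ A ×ˢ B, ph H (f p.1 x + g p.2 x - y) := by
    rw [Finset.sum_product_right]
    have h4 : ∀ b ∈ B, ka / (2 * H) ≤ ∑ a ∈ A, ph H (f a x + g b x - y) := by
      intro b hb
      have h5 := hcount y hy.1 b hb
      have h6 : ∑ a ∈ A.filter (fun a => |f a x - (y - g b x)| < H), (1 / (2 * H)) ≤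
          ∑ a ∈ A, ph H (f a x + g b x - y) := by
        calc ∑ a ∈ A.filter (fun a => |f a x - (y - g b x)| < H), (1 / (2 * H))
            = ∑ a ∈ A.filter (fun a => |f a x - (y - g b x)| < H),
              ph H (f a x + g b x - y) := by
              refine Finset.sum_congr rfl fun a ha => ?_
              rw [Finset.mem_filter] at ha
              rw [ph_eq]
              have e1 : f a x + g b x - y = f a x - (y - g b x) := by ring
              rw [e1]
              exact ha.2
          _ ≤ ∑ a ∈ A, ph H (f a x + g b x - y) :=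
              Finset.sum_le_sum_of_subset_of_nonneg (Finset.filter_subset _ _)
                fun a _ _ => ph_nonneg hH _
      rw [Finset.sum_const, nsmul_eq_mul] at h6
      refine le_trans ?_ h6
      rw [div_eq_mul_one_div]
      exact mul_le_mul_of_nonneg_right h5 (by positivity)
    have h7 := Finset.card_nsmul_le_sum B _ _ h4
    rw [nsmul_eq_mul] at h7
    refine le_trans (le_of_eq ?_) h7
    ring
  rw [h2, neg_sq]
  exact pow_le_pow_left₀ (by positivity) h3 2

/-- sum of reciprocal distances in a separated family -/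
theorem sum_recip {B : Finset κ} {v : κ → ℝ} {sg M : ℝ} (hsg : 0 < sg)
    (hM : ∀ b ∈ B, 0 ≤ v b ∧ v b ≤ M)
    (hsep : ∀ b ∈ B, ∀ b' ∈ B, b ≠ b' → sg ≤ |v b - v b'|) {b : κ} (hb : b ∈ B) :
    ∑ b' ∈ B.erase b, 1 / |v b - v b'| ≤ 2 / sg * (1 + Real.log ⌊M / sg⌋₊) := by
  -- a general one-sided statement
  have key : ∀ (S : Finset κ), (∀ x ∈ S, x ∈ B ∧ x ≠ b) →
      (∀ x ∈ S, ∀ y ∈ S, x ≠ y → sg ≤ abs (|v b - v x| - |v b - v y|)) →
      ∑ x ∈ S, 1 / |v b - v x| ≤ 1 / sg * (1 + Real.log ⌊M / sg⌋₊) := by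
    intro S hS hS2
    set j : κ → ℕ := fun x => ⌊|v b - v x| / sg⌋₊ with hj
    have hdist : ∀ x ∈ S, sg ≤ |v b - v x| := by
      intro x hx
      obtain ⟨h1, h2⟩ := hS x hx
      exact hsep b hb x h1 (Ne.symm h2)
    have hj1 : ∀ x ∈ S, 1 ≤ j x := by
      intro x hx
      rw [hj, Nat.one_le_floor_iff, one_le_div hsg]
      exact hdist x hx
    have hj2 : ∀ x ∈ S, j x ≤ ⌊M / sg⌋₊ := by
      intro x hx
      refine Nat.floor_le_floor ?_
      refine div_le_div_of_nonneg_right ?_ hsg.le
      have h1 := hM x (hS x hx).1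
      have h2 := hM b hb
      rw [abs_le]
      constructor <;> linarith [h1.1, h1.2, h2.1, h2.2]
    have hinj : Set.InjOn j S := by
      intro x hx y hy hxy
      by_contra hne
      have h1 := hS2 x hx y hy hne
      have h2 : 0 ≤ |v b - v x| / sg := by positivity
      have h3 : 0 ≤ |v b - v y| / sg := by positivity
      have h4 := Nat.floor_le h2
      have h5 := Nat.lt_floor_add_one (|v b - v x| / sg)
      have h6 := Nat.floor_le h3
      have h7 := Nat.lt_floor_add_one (|v b - v y| / sg)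
      simp only [hj] at hxy
      rw [hxy] at h4 h5
      have h8 : abs (|v b - v x| / sg - |v b - v y| / sg) < 1 := by
        rw [abs_lt]
        constructor <;> linarith
      rw [← sub_div, abs_div, abs_of_pos hsg, div_lt_one hsg] at h8
      linarith
    have hterm : ∀ x ∈ S, 1 / |v b - v x| ≤ 1 / sg * ((j x : ℝ))⁻¹ := by
      intro x hx
      have h1 : (1 : ℝ) ≤ j x := by exact_mod_cast hj1 x hx
      have h2 : (j x : ℝ) ≤ |v b - v x| / sg := Nat.floor_le (by positivity)
      rw [le_div_iff₀ hsg] at h2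
      have h3 : 1 / |v b - v x| ≤ 1 / ((j x : ℝ) * sg) :=
        one_div_le_one_div_of_le (by positivity) h2
      refine h3.trans (le_of_eq ?_)
      rw [one_div, mul_inv, one_div]
      ring
    calc ∑ x ∈ S, 1 / |v b - v x| ≤ ∑ x ∈ S, 1 / sg * ((j x : ℝ))⁻¹ := Finset.sum_le_sum hterm
      _ = 1 / sg * ∑ i ∈ S.image j, ((i : ℝ))⁻¹ := by
        rw [← Finset.mul_sum, Finset.sum_image hinj]
      _ ≤ 1 / sg * ∑ i ∈ Finset.Icc 1 ⌊M / sg⌋₊, ((i : ℝ))⁻¹ := by
        refine mul_le_mul_of_nonneg_left ?_ (by positivity)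
        refine Finset.sum_le_sum_of_subset_of_nonneg ?_ fun i _ _ => by positivity
        intro i hi
        obtain ⟨x, hx, rfl⟩ := Finset.mem_image.1 hi
        rw [Finset.mem_Icc]
        exact ⟨hj1 x hx, hj2 x hx⟩
      _ ≤ 1 / sg * (1 + Real.log ⌊M / sg⌋₊) := by
        refine mul_le_mul_of_nonneg_left ?_ (by positivity)
        have h := harmonic_le_one_add_log ⌊M / sg⌋₊
        rw [harmonic_eq_sum_Icc] at h
        push_cast at h
        exact h
  have hsplit : B.erase b = (B.erase b).filter (fun x => v x < v b) ∪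
      (B.erase b).filter (fun x => ¬ v x < v b) := (Finset.filter_union_filter_not_eq _ _).symm
  have hdisj : Disjoint ((B.erase b).filter (fun x => v x < v b))
      ((B.erase b).filter (fun x => ¬ v x < v b)) := Finset.disjoint_filter_filter_not _ _ _
  rw [hsplit, Finset.sum_union hdisj]
  have hA := key ((B.erase b).filter (fun x => v x < v b)) (fun x hx => by
    rw [Finset.mem_filter, Finset.mem_erase] at hx
    exact ⟨hx.1.2, hx.1.1⟩) (fun x hx y hy hxy => by
    rw [Finset.mem_filter, Finset.mem_erase] at hx hy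
    rw [abs_of_pos (by linarith [hx.2] : (0 : ℝ) < v b - v x),
      abs_of_pos (by linarith [hy.2] : (0 : ℝ) < v b - v y)]
    refine (hsep y hy.1.2 x hx.1.2 (Ne.symm hxy)).trans (le_of_eq ?_)
    congr 1
    ring)
  have hB := key ((B.erase b).filter (fun x => ¬ v x < v b)) (fun x hx => by
    rw [Finset.mem_filter, Finset.mem_erase] at hx
    exact ⟨hx.1.2, hx.1.1⟩) (fun x hx y hy hxy => by
    rw [Finset.mem_filter, Finset.mem_erase, not_lt] at hx hy
    rw [abs_of_nonpos (by linarith [hx.2] : v b - v x ≤ 0),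
      abs_of_nonpos (by linarith [hy.2] : v b - v y ≤ 0)]
    refine (hsep x hx.1.2 y hy.1.2 hxy).trans (le_of_eq ?_)
    congr 1
    ring)
  calc _ ≤ 1 / sg * (1 + Real.log ⌊M / sg⌋₊) + 1 / sg * (1 + Real.log ⌊M / sg⌋₊) :=
        add_le_add hA hB
    _ = 2 / sg * (1 + Real.log ⌊M / sg⌋₊) := by ring

end Pool.Agent.EWar
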