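import Pool.Agent.EWar.Block

/-!
The exponent conditions hold on short intervals of exponents.
-/

set_option autoImplicit false

open Set Filter Topology

namespace Pool.Agent.EWar

/-- `1 - 1 / κ` -/
noncomputable def rh (κ : ℝ) : ℝ := 1 - 1 / κ

theorem rh_pos {κ : ℝ} (hκ : 1 < κ) : 0 < rh κ := by
  unfold rh
  have : 1 / κ < 1 := by
    rw [div_lt_one (by linarith)]
    exact hκ
  linarith

theorem rh_lt_one {κ : ℝ} (hκ : 1 < κ) : rh κ < 1 := by
  unfold rh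
  have : 0 < 1 / κ := by positivity
  linarith

theorem rh_mono {κ b : ℝ} (hκ : 1 < κ) (h : κ ≤ b) : rh κ ≤ rh b := by
  unfold rh
  have : 1 / b ≤ 1 / κ := one_div_le_one_div_of_le (by linarith) h
  linarith

theorem fE_limit {κ : ℝ} (hκ : 1 < κ) (j : ℕ) : fE κ (rh κ) j = 1 - rh κ ^ j := by
  induction j with
  | zero => simp [fE]
  | succ j ih =>
    unfold fE
    rw [ih, pow_succ]
    unfold rh
    ring

theorem tendsto_fE {κ : ℝ} (hκ : 1 < κ) (j : ℕ) :
    Tendsto (fun t : ℝ => fE (κ + t) ((κ - t - 1 - t) / (κ + t)) j) (𝓝 0) (𝓝 (1 - rh κ ^ j)) := by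
  rw [← fE_limit hκ j]
  have h1 : Tendsto (fun t : ℝ => 1 / (κ + t)) (𝓝 0) (𝓝 (1 / κ)) := by
    have hc : ContinuousAt (fun t : ℝ => 1 / (κ + t)) 0 :=
      ContinuousAt.div continuousAt_const (by fun_prop) (by simp; linarith)
    simpa using hc.tendsto
  have h2 : Tendsto (fun t : ℝ => (κ - t - 1 - t) / (κ + t)) (𝓝 0) (𝓝 (rh κ)) := by
    have hc : ContinuousAt (fun t : ℝ => (κ - t - 1 - t) / (κ + t)) 0 :=
      ContinuousAt.div (by fun_prop) (by fun_prop) (by simp; linarith)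
    have h3 := hc.tendsto
    have h4 : (κ - 0 - 1 - 0) / (κ + 0) = rh κ := by
      unfold rh
      have : κ ≠ 0 := by linarith
      field_simp
      ring
    rwa [h4] at h3
  induction j with
  | zero => exact tendsto_const_nhds
  | succ j ih => exact h1.add (h2.mul ih)

/-- the conditions of the estimate at one scale -/
structure Good (κ t c : ℝ) (m n : ℕ) : Prop where
  E1 : 2 * (κ + t) - 1 + t - (κ - t - 1 - t) * fE (κ + t) ((κ - t - 1 - t) / (κ + t)) m -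
      (κ - t) * fE (κ + t) ((κ - t - 1 - t) / (κ + t)) n ≤ (κ - t) - c
  E2 : 2 * (κ + t) - (κ - t) - (κ - t) * fE (κ + t) ((κ - t - 1 - t) / (κ + t)) n ≤ (κ - t) - c
  E3 : 3 * (κ + t) - (κ - t) - 1 + 3 * t - (κ - t) * fE (κ + t) ((κ - t - 1 - t) / (κ + t)) n -
      (κ - t) * ((κ - t - 1 - t) / (κ + t)) ^ n ≤ (κ - t) - c

theorem eventually_good {κ c : ℝ} {m n : ℕ} (hκ : 1 < κ)
    (hc1 : c < κ * (1 - rh κ ^ (m + 1) - rh κ ^ n)) (hc2 : c < 1) :
    ∀ᶠ t : ℝ in 𝓝 0, Good κ t c m n := by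
  have hρ := rh_pos hκ
  have hm := tendsto_fE hκ m
  have hn := tendsto_fE hκ n
  have hk : Tendsto (fun t : ℝ => κ - t) (𝓝 0) (𝓝 κ) := by
    have : ContinuousAt (fun t : ℝ => κ - t) 0 := by fun_prop
    simpa using this.tendsto
  have hk1 : Tendsto (fun t : ℝ => κ - t - 1 - t) (𝓝 0) (𝓝 (κ - 1)) := by
    have : ContinuousAt (fun t : ℝ => κ - t - 1 - t) 0 := by fun_prop
    simpa using this.tendsto
  have hr : Tendsto (fun t : ℝ => ((κ - t - 1 - t) / (κ + t)) ^ n) (𝓝 0) (𝓝 (rh κ ^ n)) := by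
    have hc : ContinuousAt (fun t : ℝ => (κ - t - 1 - t) / (κ + t)) 0 :=
      ContinuousAt.div (by fun_prop) (by fun_prop) (by simp; linarith)
    have h3 := hc.tendsto
    have h4 : (κ - 0 - 1 - 0) / (κ + 0) = rh κ := by
      unfold rh
      have : κ ≠ 0 := by linarith
      field_simp
      ring
    rw [h4] at h3
    exact h3.pow n
  have hkr : κ * rh κ = κ - 1 := by
    unfold rh
    have : κ ≠ 0 := by linarith
    field_simp
  have hpn : 0 < rh κ ^ n := pow_pos hρ n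
  have hpm : 0 < rh κ ^ (m + 1) := pow_pos hρ _
  have hκ0 : 0 < κ := by linarith
  have l1 : Tendsto (fun t : ℝ => 2 * (κ + t) - 1 + t) (𝓝 0) (𝓝 (2 * κ - 1)) := by
    have : ContinuousAt (fun t : ℝ => 2 * (κ + t) - 1 + t) 0 := by fun_prop
    simpa using this.tendsto
  have l2 : Tendsto (fun t : ℝ => 2 * (κ + t) - (κ - t)) (𝓝 0) (𝓝 (2 * κ - κ)) := by
    have : ContinuousAt (fun t : ℝ => 2 * (κ + t) - (κ - t)) 0 := by fun_prop
    simpa using this.tendsto
  have l3 : Tendsto (fun t : ℝ => 3 * (κ + t) - (κ - t) - 1 + 3 * t) (𝓝 0)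
      (𝓝 (3 * κ - κ - 1)) := by
    have : ContinuousAt (fun t : ℝ => 3 * (κ + t) - (κ - t) - 1 + 3 * t) 0 := by fun_prop
    simpa using this.tendsto
  have lc : Tendsto (fun t : ℝ => κ - t - c) (𝓝 0) (𝓝 (κ - c)) := by
    have : ContinuousAt (fun t : ℝ => κ - t - c) 0 := by fun_prop
    simpa using this.tendsto
  have F1 := ((l1.sub (hk1.mul hm)).sub (hk.mul hn)).sub lc
  have F2 := (l2.sub (hk.mul hn)).sub lc
  have F3 := ((l3.sub (hk.mul hn)).sub (hk.mul hr)).sub lc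
  have hpow : (κ - 1) * rh κ ^ m = κ * rh κ ^ (m + 1) := by
    rw [pow_succ', ← hkr]
    ring
  have G1 := F1.eventually_lt_const (u := 0) (by nlinarith)
  have G2 := F2.eventually_lt_const (u := 0) (by
    have : 0 < κ * rh κ ^ (m + 1) := by positivity
    nlinarith)
  have G3 := F3.eventually_lt_const (u := 0) (by nlinarith)
  filter_upwards [G1, G2, G3] with t g1 g2 g3
  exact ⟨by linarith, by linarith, by linarith⟩

theorem exists_t {κ c d : ℝ} {m n m' n' : ℕ} (hκ : 1 < κ)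
    (hc1 : c < κ * (1 - rh κ ^ (m + 1) - rh κ ^ n))
    (hc1' : c < κ * (1 - rh κ ^ (m' + 1) - rh κ ^ n')) (hc2 : c < 1) (hd : 1 - c / κ < d) :
    ∃ t : ℝ, 0 < t ∧ 1 < κ - t ∧ t < κ - t - 1 ∧ κ + t ≤ κ - t + 1 ∧ κ + t - 1 + t ≤ κ - t ∧
      Good κ t c m n ∧ Good κ t c m' n' ∧ 1 - c / (κ + t + t) ≤ d := by
  have e1 := eventually_good hκ hc1 hc2
  have e2 := eventually_good hκ hc1' hc2
  have e3 : ∀ᶠ t : ℝ in 𝓝 0, 1 - c / (κ + t + t) < d := by
    have hc : ContinuousAt (fun t : ℝ => 1 - c / (κ + t + t)) 0 :=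
      ContinuousAt.sub continuousAt_const
        (ContinuousAt.div continuousAt_const (by fun_prop) (by simp; linarith))
    have h3 := hc.tendsto
    simp only [add_zero] at h3
    exact h3.eventually_lt_const hd
  have e4 : ∀ᶠ t : ℝ in 𝓝 0, t < (κ - 1) / 4 := eventually_lt_nhds (by linarith)
  have e5 : ∀ᶠ t : ℝ in 𝓝 0, t < 1 / 4 := eventually_lt_nhds (by norm_num)
  have h := (((e1.and e2).and e3).and (e4.and e5)).filter_mono
    (nhdsWithin_le_nhds : 𝓝[>] (0 : ℝ) ≤ 𝓝 0)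
  obtain ⟨t, ⟨⟨⟨g1, g2⟩, g3⟩, g4, g5⟩, ht⟩ := (h.and self_mem_nhdsWithin).exists
  have ht0 : 0 < t := ht
  exact ⟨t, ht0, by linarith, by linarith, by linarith, by linarith, g1, g2, g3.le⟩

end Pool.Agent.EWar
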