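import Pool.Agent.EWar.Pair
import Pool.Agent.EWar.Expo
import Pool.Agent.MWar.Main

/-!
Waring's problem for almost all real exponents.
-/

set_option autoImplicit false

open MeasureTheory Set Filter Topology
open scoped ENNReal NNReal

namespace Pool.Agent.EWar

open Pool.Agent.MWar (exists_good)

/-- approximate representation of `Y` -/
def RepAt (s : ℕ) (p ε Y : ℝ) : Prop :=
  ∃ l : List ℕ, l.length = s ∧ (∀ x ∈ l, 0 < x) ∧ |val l p - Y| < ε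

theorem val_append (l l' : List ℕ) (p : ℝ) : val (l ++ l') p = val l p + val l' p := by
  induction l with
  | nil => simp [val]
  | cons x l ih => rw [List.cons_append, val_cons, val_cons, ih, add_assoc]

theorem rep_of_pieces {A1 B1 A2 B2 : Finset (List ℕ)} {s1 t1 s2 t2 : ℕ}
    (hA1 : ∀ l ∈ A1, l.length = s1 ∧ ∀ x ∈ l, 0 < x)
    (hB1 : ∀ l ∈ B1, l.length = t1 ∧ ∀ x ∈ l, 0 < x)
    (hA2 : ∀ l ∈ A2, l.length = s2 ∧ ∀ x ∈ l, 0 < x)
    (hB2 : ∀ l ∈ B2, l.length = t2 ∧ ∀ x ∈ l, 0 < x)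
    {e ε p y1 y2 V Y : ℝ} (he : 2 * e < ε) (hV : 0 < V) (hy : y1 + 3 ≤ y2)
    (h1 : (volume (badY A1 B1 val val e p (y1 * V) (y2 * V))).toReal < V)
    (h2 : (volume (badY A2 B2 val val e p (y1 * V) (y2 * V))).toReal < V)
    (hY1 : (2 * y1 + 3) * V ≤ Y) (hY2 : Y ≤ (2 * y2 - 3) * V) :
    RepAt (s1 + t1 + (s2 + t2)) p ε Y := by
  obtain ⟨v, hv, hv1, hv2⟩ := exists_good (Y := Y) (lo := max (y1 * V) (Y - y2 * V))
    (hi := min (y2 * V) (Y - y1 * V)) hV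
    (by
      have h3 : 3 * V ≤ (y2 - y1) * V := mul_le_mul_of_nonneg_right (by linarith) hV.le
      refine le_min ?_ ?_
      · rcases le_total (y1 * V) (Y - y2 * V) with h | h
        · rw [max_eq_right h]
          linarith
        · rw [max_eq_left h]
          linarith
      · rcases le_total (y1 * V) (Y - y2 * V) with h | h
        · rw [max_eq_right h]
          linarith
        · rw [max_eq_left h]
          linarith)
    (volume_badY_ne_top _ _ _ _ _ _ _ _) (volume_badY_ne_top _ _ _ _ _ _ _ _) h1 h2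
  have hvI : v ∈ Icc (y1 * V) (y2 * V) :=
    ⟨(le_max_left _ _).trans hv.1, hv.2.trans (min_le_left _ _)⟩
  have hvI2 : Y - v ∈ Icc (y1 * V) (y2 * V) := by
    have h3 := (le_max_right (y1 * V) (Y - y2 * V)).trans hv.1
    have h4 := hv.2.trans (min_le_right (y2 * V) (Y - y1 * V))
    constructor <;> linarith
  have hg1 : ∃ a ∈ A1, ∃ b ∈ B1, |val a p + val b p - v| ≤ e := by
    by_contra h
    push Not at h
    exact hv1 ⟨hvI, h⟩
  have hg2 : ∃ a ∈ A2, ∃ b ∈ B2, |val a p + val b p - (Y - v)| ≤ e := by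
    by_contra h
    push Not at h
    exact hv2 ⟨hvI2, h⟩
  obtain ⟨a, ha, b, hb, hab⟩ := hg1
  obtain ⟨a', ha', b', hb', hab'⟩ := hg2
  refine ⟨a ++ b ++ (a' ++ b'), ?_, ?_, ?_⟩
  · simp only [List.length_append]
    rw [(hA1 a ha).1, (hB1 b hb).1, (hA2 a' ha').1, (hB2 b' hb').1]
  · intro x hx
    simp only [List.mem_append] at hx
    rcases hx with (h | h) | (h | h)
    · exact (hA1 a ha).2 x h
    · exact (hB1 b hb).2 x h
    · exact (hA2 a' ha').2 x h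
    · exact (hB2 b' hb').2 x h
  · rw [val_append, val_append, val_append]
    have e1 : val a p + val b p + (val a' p + val b' p) - Y =
        (val a p + val b p - v) + (val a' p + val b' p - (Y - v)) := by ring
    rw [e1]
    exact ((abs_add_le _ _).trans (add_le_add hab hab')).trans_lt (by linarith)

/-- the exceptional exponents in a short interval for one `ε` -/
theorem dimH_box {κ t c : ℝ} {m n m' n' : ℕ} (ht : 0 < t) (h1 : 1 < κ - t) (h2 : t < κ - t - 1)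
    (h3 : κ + t ≤ κ - t + 1) (h4 : κ + t - 1 + t ≤ κ - t) (hc0 : 0 < c) (hc1 : c < 1)
    (hG : Good κ t c m n) (hG' : Good κ t c m' n') {ε : ℝ} (hε : 0 < ε) :
    dimH {p : ℝ | p ∈ Icc (κ - t) (κ + t) ∧ ¬ ∀ᶠ Y : ℝ in atTop,
      RepAt (m + 1 + n + (m' + 1 + n')) p ε Y} ≤ ENNReal.ofReal (1 - c / (κ + t + t)) := by
  obtain ⟨p1, hp1⟩ : ∃ p1, p1 = κ + t := ⟨_, rfl⟩
  obtain ⟨e, he⟩ : ∃ e, e = min (ε / 3) (1 / 2) := ⟨_, rfl⟩
  have he0 : 0 < e := by rw [he]; exact lt_min (by linarith) (by norm_num)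
  have he1 : e < 1 := by rw [he]; exact (min_le_right _ _).trans_lt (by norm_num)
  have he2 : 2 * e < ε := by
    have : e ≤ ε / 3 := by rw [he]; exact min_le_left _ _
    linarith
  obtain ⟨y1, hy1⟩ : ∃ y1 : ℝ, y1 = 2 * (2 ^ p1 + 1) := ⟨_, rfl⟩
  have h2p : (1 : ℝ) ≤ 2 ^ p1 := Real.one_le_rpow one_le_two (by linarith)
  have hy1pos : 1 ≤ y1 := by linarith
  obtain ⟨La0, hLa0⟩ := exists_nat_ge (2 * (2 ^ p1 * (2 * y1 + 3) + 3) + 1)
  have hLa : 2 ≤ La0 := by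
    have : (2 : ℝ) ≤ La0 := by
      refine le_trans ?_ hLa0
      nlinarith
    exact_mod_cast this
  obtain ⟨y2, hy2⟩ : ∃ y2 : ℝ, y2 = ((La0 : ℝ) - 1) / 2 := ⟨_, rfl⟩
  have hy2' : 2 ^ p1 * (2 * y1 + 3) + 3 ≤ y2 := by
    rw [hy2]
    linarith
  have hy3 : 0 < 2 * y1 + 3 := by linarith
  have hy2a : y1 + 3 ≤ y2 := by nlinarith
  rw [← hp1] at h3 h4 ⊢
  have E1 := hG.E1
  have E2 := hG.E2
  have E3 := hG.E3
  have E1' := hG'.E1
  have E2' := hG'.E2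
  have E3' := hG'.E3
  rw [← hp1] at E1 E2 E3 E1' E2' E3'
  obtain ⟨A1, B1, hA1, hB1, hd1⟩ := pair h1 (by linarith) h3 ht h2 h4 hc0 (by linarith) E1 E2 E3
    he0 he1 hLa
  obtain ⟨A2, B2, hA2, hB2, hd2⟩ := pair h1 (by linarith) h3 ht h2 h4 hc0 (by linarith) E1' E2' E3'
    he0 he1 hLa
  rw [← hy1, ← hy2] at hd1 hd2
  refine le_trans (le_trans (dimH_mono ?_) (dimH_union _ _).le) (max_le hd1 hd2)
  intro p hp
  by_contra hcon
  rw [mem_union, not_or] at hcon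
  obtain ⟨hc1, hc2⟩ := hcon
  simp only [mem_ofPred_eq, not_frequently] at hc1 hc2
  obtain ⟨j1, hj1⟩ := eventually_atTop.1 (hc1.and hc2)
  have hp0 : 0 < p := by linarith [hp.1.1]
  have hpp1 : p ≤ p1 := hp.1.2
  apply hp.2
  rw [eventually_atTop]
  refine ⟨(2 * y1 + 3) * ((2 : ℝ) ^ j1) ^ p, fun Y hY => ?_⟩
  have hVj1 : (0 : ℝ) < ((2 : ℝ) ^ j1) ^ p := Real.rpow_pos_of_pos (by positivity) _
  obtain ⟨n0, hn1, hn2⟩ := exists_nat_pow_near (x := Y / ((2 * y1 + 3) * ((2 : ℝ) ^ j1) ^ p))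
    (y := (2 : ℝ) ^ p) (by
      rw [le_div_iff₀ (by positivity)]
      linarith) (Real.one_lt_rpow one_lt_two hp0)
  rw [le_div_iff₀ (by positivity)] at hn1
  rw [div_lt_iff₀ (by positivity)] at hn2
  have hV : ((2 : ℝ) ^ (j1 + n0)) ^ p = ((2 : ℝ) ^ p) ^ n0 * ((2 : ℝ) ^ j1) ^ p := by
    rw [pow_add, Real.mul_rpow (by positivity) (by positivity), mul_comm]
    congr 1
    rw [← Real.rpow_natCast, ← Real.rpow_natCast, ← Real.rpow_mul (by norm_num),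
      ← Real.rpow_mul (by norm_num), mul_comm]
  have hVpos : (0 : ℝ) < ((2 : ℝ) ^ (j1 + n0)) ^ p := Real.rpow_pos_of_pos (by positivity) _
  have hb := hj1 (j1 + n0) (by omega)
  have hb1 : (volume (badY (A1 (j1 + n0)) (B1 (j1 + n0)) val val e p
      (y1 * ((2 : ℝ) ^ (j1 + n0)) ^ p)
      (y2 * ((2 : ℝ) ^ (j1 + n0)) ^ p))).toReal < ((2 : ℝ) ^ (j1 + n0)) ^ p := by
    by_contra h
    exact hb.1 ⟨hp.1, not_lt.1 h⟩
  have hb2 : (volume (badY (A2 (j1 + n0)) (B2 (j1 + n0)) val val e p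
      (y1 * ((2 : ℝ) ^ (j1 + n0)) ^ p)
      (y2 * ((2 : ℝ) ^ (j1 + n0)) ^ p))).toReal < ((2 : ℝ) ^ (j1 + n0)) ^ p := by
    by_contra h
    exact hb.2 ⟨hp.1, not_lt.1 h⟩
  refine rep_of_pieces (hA1 _) (hB1 _) (hA2 _) (hB2 _) he2 hVpos hy2a hb1 hb2 ?_ ?_
  · rw [hV]
    linarith
  · have h5 : Y ≤ 2 ^ p * (2 * y1 + 3) * ((2 : ℝ) ^ (j1 + n0)) ^ p := by
      rw [hV]
      refine hn2.le.trans (le_of_eq ?_)
      rw [pow_succ]
      ring
    refine h5.trans (mul_le_mul_of_nonneg_right ?_ hVpos.le)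
    have h6 : (2 : ℝ) ^ p ≤ 2 ^ p1 := Real.rpow_le_rpow_of_exponent_le one_le_two hpp1
    have h7 := mul_le_mul_of_nonneg_right h6 hy3.le
    linarith

/-- the condition on the exponent and the number of variables -/
def Cond (κ : ℝ) (s : ℕ) : Prop := rh κ ^ (s / 2 / 2) + rh κ ^ ((s / 2 + 1) / 2) < 1

theorem RepAt.mono {s : ℕ} {p ε ε' Y : ℝ} (h : ε ≤ ε') (hR : RepAt s p ε Y) :
    RepAt s p ε' Y := by
  obtain ⟨l, h1, h2, h3⟩ := hR
  exact ⟨l, h1, h2, h3.trans_le h⟩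

/-- local bound for the exceptional set -/
theorem dimH_local {κ d : ℝ} {s : ℕ} (hκ : 1 < κ) (hs : Cond κ s)
    (hd1 : rh κ ^ (s / 2 / 2) + rh κ ^ ((s / 2 + 1) / 2) < d) (hd2 : rh κ < d) :
    ∃ t : ℝ, 0 < t ∧ dimH {p : ℝ | p ∈ Icc (κ - t) (κ + t) ∧
      ¬ ∀ ε : ℝ, 0 < ε → ∀ᶠ Y : ℝ in atTop, RepAt s p ε Y} ≤ ENNReal.ofReal d := by
  unfold Cond at hs
  have hρ := rh_pos hκ
  have hρ1 := rh_lt_one hκ
  have hκ0 : 0 < κ := by linarith
  obtain ⟨m, hm⟩ : ∃ m, s / 2 / 2 = m + 1 := by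
    refine ⟨s / 2 / 2 - 1, ?_⟩
    have : s / 2 / 2 ≠ 0 := by
      intro h
      rw [h, pow_zero] at hs
      have := pow_pos hρ ((s / 2 + 1) / 2)
      linarith
    omega
  obtain ⟨m', hm'⟩ : ∃ m', (s - s / 2) / 2 = m' + 1 := ⟨(s - s / 2) / 2 - 1, by omega⟩
  obtain ⟨n, hn⟩ : ∃ n, (s / 2 + 1) / 2 = n := ⟨_, rfl⟩
  obtain ⟨n', hn'⟩ : ∃ n', (s - s / 2 + 1) / 2 = n' := ⟨_, rfl⟩
  have hsum : m + 1 + n + (m' + 1 + n') = s := by omega
  rw [hm, hn] at hs hd1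
  have hmm : rh κ ^ (m' + 1) ≤ rh κ ^ (m + 1) :=
    pow_le_pow_of_le_one hρ.le hρ1.le (by omega)
  have hnn : rh κ ^ n' ≤ rh κ ^ n := pow_le_pow_of_le_one hρ.le hρ1.le (by omega)
  -- the choice of `c`
  have hkr : κ * rh κ = κ - 1 := by
    unfold rh
    field_simp
  have hb1 : κ * (1 - d) < κ * (1 - rh κ ^ (m + 1) - rh κ ^ n) :=
    mul_lt_mul_of_pos_left (by linarith) hκ0
  have hb2 : κ * (1 - d) < 1 := by nlinarith
  have hb3 : 0 < κ * (1 - rh κ ^ (m + 1) - rh κ ^ n) := mul_pos hκ0 (by linarith)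
  obtain ⟨c, hcl, hcr⟩ := exists_between (show max (κ * (1 - d)) 0 <
    min (κ * (1 - rh κ ^ (m + 1) - rh κ ^ n)) 1 from
      max_lt (lt_min hb1 hb2) (lt_min hb3 one_pos))
  have hc0 : 0 < c := (le_max_right _ _).trans_lt hcl
  have hcd : κ * (1 - d) < c := (le_max_left _ _).trans_lt hcl
  have hc1 : c < κ * (1 - rh κ ^ (m + 1) - rh κ ^ n) := hcr.trans_le (min_le_left _ _)
  have hc2 : c < 1 := hcr.trans_le (min_le_right _ _)
  have hc1' : c < κ * (1 - rh κ ^ (m' + 1) - rh κ ^ n') := by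
    refine hc1.trans_le (mul_le_mul_of_nonneg_left (by linarith) hκ0.le)
  have hd' : 1 - c / κ < d := by
    have : 1 - d < c / κ := by
      rw [lt_div_iff₀ hκ0]
      linarith
    linarith
  obtain ⟨t, ht0, g1, g2, g3, g4, hG, hG', hdt⟩ := exists_t hκ hc1 hc1' hc2 hd'
  refine ⟨t, ht0, ?_⟩
  have hsub : {p : ℝ | p ∈ Icc (κ - t) (κ + t) ∧
      ¬ ∀ ε : ℝ, 0 < ε → ∀ᶠ Y : ℝ in atTop, RepAt s p ε Y} ⊆
      ⋃ i : ℕ, {p : ℝ | p ∈ Icc (κ - t) (κ + t) ∧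
        ¬ ∀ᶠ Y : ℝ in atTop, RepAt s p (1 / ((i : ℝ) + 1)) Y} := by
    rintro p ⟨h3, h4⟩
    push Not at h4
    obtain ⟨ε, hε, h5⟩ := h4
    obtain ⟨i, hi⟩ := exists_nat_one_div_lt hε
    rw [mem_iUnion]
    refine ⟨i, h3, fun h => ?_⟩
    exact h5 (h.mono fun Y hY => not_not.2 (hY.mono hi.le))
  refine (dimH_mono hsub).trans ?_
  rw [dimH_iUnion]
  refine iSup_le fun i => ?_
  have h6 := dimH_box ht0 g1 g2 g3 g4 hc0 hc2 hG hG' (ε := 1 / ((i : ℝ) + 1)) (by positivity)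
  rw [hsum] at h6
  exact h6.trans (ENNReal.ofReal_le_ofReal hdt)

theorem Cond.mono {κ b : ℝ} {s : ℕ} (hκ : 1 < κ) (hκb : κ ≤ b) (h : Cond b s) : Cond κ s := by
  unfold Cond at h ⊢
  have h1 := rh_mono hκ hκb
  have h0 := (rh_pos hκ).le
  have h2 := pow_le_pow_left₀ h0 h1 (s / 2 / 2)
  have h3 := pow_le_pow_left₀ h0 h1 ((s / 2 + 1) / 2)
  linarith

/-- the exceptional exponents up to `b` -/
theorem dimH_exc {b : ℝ} {s : ℕ} (hb : 1 < b) (hs : Cond b s) :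
    dimH {p : ℝ | 1 < p ∧ p ≤ b ∧ ¬ ∀ ε : ℝ, 0 < ε → ∀ᶠ Y : ℝ in atTop, RepAt s p ε Y} ≤
      ENNReal.ofReal (max (rh b ^ (s / 2 / 2) + rh b ^ ((s / 2 + 1) / 2)) (rh b)) := by
  obtain ⟨D, hD⟩ : ∃ D, D = max (rh b ^ (s / 2 / 2) + rh b ^ ((s / 2 + 1) / 2)) (rh b) := ⟨_, rfl⟩
  rw [← hD]
  have hD0 : 0 ≤ D := by
    rw [hD]
    exact (rh_pos hb).le.trans (le_max_right _ _)
  by_contra hcon
  rw [not_le] at hcon
  obtain ⟨d, hd1, hd2⟩ := ENNReal.lt_iff_exists_nnreal_btwn.1 hcon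
  have hDd : D < d := by
    by_contra h
    rw [not_lt] at h
    have h2 : (d : ℝ≥0∞) ≤ ENNReal.ofReal D := by
      rw [← ENNReal.ofReal_coe_nnreal]
      exact ENNReal.ofReal_le_ofReal h
    exact absurd hd1 (not_lt.2 h2)
  obtain ⟨κ, hκS, hκ⟩ := exists_mem_nhdsWithin_lt_dimH_of_lt_dimH hd2
  obtain ⟨hκ1, hκb, -⟩ := hκS
  have h0 := (rh_pos hκ1).le
  have h1 := rh_mono hκ1 hκb
  have h2 := pow_le_pow_left₀ h0 h1 (s / 2 / 2)
  have h3 := pow_le_pow_left₀ h0 h1 ((s / 2 + 1) / 2)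
  have h4 : rh b ^ (s / 2 / 2) + rh b ^ ((s / 2 + 1) / 2) ≤ D := by
    rw [hD]
    exact le_max_left _ _
  have h5 : rh b ≤ D := by
    rw [hD]
    exact le_max_right _ _
  obtain ⟨t, ht0, ht⟩ := dimH_local (d := d) hκ1 (hs.mono hκ1 hκb) (by linarith) (by linarith)
  have hmem : {p : ℝ | p ∈ Icc (κ - t) (κ + t) ∧
      ¬ ∀ ε : ℝ, 0 < ε → ∀ᶠ Y : ℝ in atTop, RepAt s p ε Y} ∈
      𝓝[{p : ℝ | 1 < p ∧ p ≤ b ∧ ¬ ∀ ε : ℝ, 0 < ε → ∀ᶠ Y : ℝ in atTop, RepAt s p ε Y}] κ := by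
    rw [mem_nhdsWithin_iff_exists_mem_nhds_inter]
    refine ⟨Icc (κ - t) (κ + t), Icc_mem_nhds (by linarith) (by linarith), ?_⟩
    rintro p ⟨hp1, hp2⟩
    exact ⟨hp1, hp2.2.2⟩
  have h6 := hκ _ hmem
  refine absurd (h6.trans_le ht) ?_
  rw [ENNReal.ofReal_coe_nnreal]
  exact lt_irrefl _

/-- floor form -/
theorem floor_of_rep {s : ℕ} {p : ℝ} (h : ∀ᶠ Y : ℝ in atTop, RepAt s p (1 / 2) Y) :
    ∀ᶠ N : ℕ in atTop, ∃ l : List ℕ, l.length = s ∧ (∀ x ∈ l, 0 < x) ∧ ⌊val l p⌋₊ = N := by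
  have h1 : Tendsto (fun N : ℕ => (N : ℝ) + 1 / 2) atTop atTop :=
    tendsto_atTop_add_const_right _ _ tendsto_natCast_atTop_atTop
  filter_upwards [h1.eventually h] with N hN
  obtain ⟨l, hl1, hl2, h2⟩ := hN
  refine ⟨l, hl1, hl2, ?_⟩
  rw [abs_lt] at h2
  rw [Nat.floor_eq_iff (val_nonneg l p)]
  constructor
  · linarith [h2.1]
  · linarith [h2.2]

/-- from lists to families -/
theorem exists_fin {s : ℕ} {l : List ℕ} (hl : l.length = s) (hpos : ∀ x ∈ l, 0 < x) :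
    ∃ x : Fin s → ℕ, (∀ i, 0 < x i) ∧ ∀ p : ℝ, ∑ i, (x i : ℝ) ^ p = val l p := by
  induction l generalizing s with
  | nil =>
    subst hl
    exact ⟨fun _ => 1, fun _ => one_pos, fun p => by simp [val]⟩
  | cons y l ih =>
    subst hl
    obtain ⟨x, hx1, hx2⟩ := ih rfl fun z hz => hpos z (List.mem_cons_of_mem _ hz)
    refine ⟨Fin.cons y x, fun i => ?_, fun p => ?_⟩
    · refine Fin.cases ?_ (fun i => ?_) i
      · simpa using hpos y List.mem_cons_self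
      · simpa using hx1 i
    · have h : ∑ i : Fin (l.length + 1), ((Fin.cons y x : Fin (l.length + 1) → ℕ) i : ℝ) ^ p =
          val (y :: l) p := by
        rw [Fin.sum_univ_succ, val_cons, pw_eq (hpos y List.mem_cons_self)]
        simp [hx2]
      exact h

/-- the numerical condition for `s` about `4 κ` -/
theorem cond_four {κ : ℝ} {s : ℕ} (hκ : 1 < κ) (hs : 4 * κ ≤ (s : ℝ) + 1) : Cond κ s := by
  unfold Cond
  have hs4 : 4 ≤ s := by
    have : (3 : ℝ) < s := by linarith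
    have : 3 < s := by exact_mod_cast this
    omega
  obtain ⟨q, hq⟩ : ∃ q, q = s / 4 := ⟨_, rfl⟩
  have hq1 : 1 ≤ q := by omega
  have hqr : (1 : ℝ) ≤ q := by exact_mod_cast hq1
  have hρ := rh_pos hκ
  have hκ0 : 0 < κ := by linarith
  have hm : s / 2 / 2 = q := by omega
  rw [hm]
  rcases lt_or_ge (s % 4) 2 with h | h
  · have hn : (s / 2 + 1) / 2 = q := by omega
    rw [hn]
    have hsq : (s : ℝ) + 1 ≤ 4 * q + 2 := by
      have : s + 1 ≤ 4 * q + 2 := by omega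
      exact_mod_cast this
    have hκq : κ ≤ q + 1 / 2 := by linarith
    obtain ⟨a, ha⟩ : ∃ a : ℝ, a = q - 1 / 2 := ⟨_, rfl⟩
    have ha0 : 0 < a := by linarith
    have hqa : (q : ℝ) = a + 1 / 2 := by linarith
    have h1 : rh κ ≤ (1 + 1 / a)⁻¹ := by
      refine (rh_mono hκ hκq).trans (le_of_eq ?_)
      unfold rh
      have e1 : (q : ℝ) + 1 / 2 = a + 1 := by linarith
      rw [e1]
      field_simp
      ring
    have h2 : (1 : ℝ) + q * (1 / a) ≤ (1 + 1 / a) ^ q :=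
      one_add_mul_le_pow (by
        have : 0 < 1 / a := by positivity
        linarith) q
    have h3 : 1 < (q : ℝ) * (1 / a) := by
      rw [mul_one_div, lt_div_iff₀ ha0]
      linarith
    have h4 : 2 < (1 + 1 / a) ^ q := by linarith
    have h6 : rh κ ^ q ≤ ((1 + 1 / a) ^ q)⁻¹ := by
      rw [← inv_pow]
      exact pow_le_pow_left₀ hρ.le h1 q
    have h7 : ((1 + 1 / a) ^ q)⁻¹ < 2⁻¹ := inv_strictAnti₀ (by norm_num) h4
    have h8 : (2 : ℝ)⁻¹ = 1 / 2 := by norm_num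
    linarith
  · have hn : (s / 2 + 1) / 2 = q + 1 := by omega
    rw [hn]
    have hsq : (s : ℝ) + 1 ≤ 4 * q + 4 := by
      have : s + 1 ≤ 4 * q + 4 := by omega
      exact_mod_cast this
    have hκq : κ ≤ q + 1 := by linarith
    have h1 : rh κ ≤ (1 + 1 / (q : ℝ))⁻¹ := by
      refine (rh_mono hκ hκq).trans (le_of_eq ?_)
      unfold rh
      field_simp
      ring
    have h2 : (1 : ℝ) + q * (1 / (q : ℝ)) ≤ (1 + 1 / (q : ℝ)) ^ q :=
      one_add_mul_le_pow (by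
        have : 0 < 1 / (q : ℝ) := by positivity
        linarith) q
    have h3 : (q : ℝ) * (1 / (q : ℝ)) = 1 := by field_simp
    rw [h3] at h2
    have h6 : rh κ ^ q ≤ ((1 + 1 / (q : ℝ)) ^ q)⁻¹ := by
      rw [← inv_pow]
      exact pow_le_pow_left₀ hρ.le h1 q
    have h7 : ((1 + 1 / (q : ℝ)) ^ q)⁻¹ ≤ 2⁻¹ :=
      inv_anti₀ (by norm_num) (by linarith)
    have h7' : (2 : ℝ)⁻¹ = 1 / 2 := by norm_num
    have h8 := rh_lt_one hκ
    have h9 : rh κ ^ (q + 1) < rh κ ^ q := by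
      rw [pow_succ]
      have := pow_pos hρ q
      nlinarith
    linarith

end Pool.Agent.EWar
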