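import Pool.Agent.EWar.Psi

/-!
The oscillation lemma: the integral of `GG (hA + hB)` over the parameter, when the logarithmic
derivatives of `hA` and `hB` are at distance at least one.
-/

set_option autoImplicit false

open MeasureTheory Set Filter Topology

namespace Pool.Agent.EWar

open Pool.Agent.MWar

/-- one if the argument is at most `2 * H` in absolute value, else zero -/
noncomputable def ind (H u : ℝ) : ℝ := if |u| ≤ 2 * H then 1 else 0

theorem ind_nonneg (H u : ℝ) : 0 ≤ ind H u := by
  unfold ind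
  split_ifs <;> norm_num

theorem ind_le_one (H u : ℝ) : ind H u ≤ 1 := by
  unfold ind
  split_ifs <;> norm_num

theorem measurable_ind (H : ℝ) : Measurable (ind H) := by
  unfold ind
  refine Measurable.ite ?_ measurable_const measurable_const
  exact (isClosed_le continuous_abs continuous_const).measurableSet

/-- size conditions for a difference function with its first two derivatives at one point -/
structure Size (Lg a a1 a2 : ℝ) : Prop where
  ne : a ≠ 0
  d1 : |a1| ≤ Lg * |a|
  d2 : |a2| ≤ Lg ^ 2 * |a|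

theorem osc {e H s u Lg : ℝ} (he : 0 < e) (heH : e ≤ H) (hsu : s ≤ u) (hLg : 0 ≤ Lg)
    {a a1 a2 b b1 b2 : ℝ → ℝ} (ha : ∀ x, HasDerivAt a (a1 x) x) (ha1 : ∀ x, HasDerivAt a1 (a2 x) x)
    (ha2 : Continuous a2) (hb : ∀ x, HasDerivAt b (b1 x) x) (hb1 : ∀ x, HasDerivAt b1 (b2 x) x)
    (hb2 : Continuous b2) (hA : ∀ x ∈ Icc s u, Size Lg (a x) (a1 x) (a2 x))
    (hB : ∀ x ∈ Icc s u, Size Lg (b x) (b1 x) (b2 x))
    (hAB : ∀ x ∈ Icc s u, 1 ≤ |b1 x / b x - a1 x / a x|) :
    |∫ x in s..u, GG e H (a x + b x)| ≤ 2 * ind H (a u + b u) / |b u| +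
      2 * ind H (a s + b s) / |b s| +
      ∫ x in s..u, (8 * Lg ^ 2 + 4 * Lg) * (ind H (a x + b x) / |b x|) := by
  have hH : 0 < H := he.trans_le heH
  have hca : Continuous a := continuous_iff_continuousAt.2 fun x => (ha x).continuousAt
  have hca1 : Continuous a1 := continuous_iff_continuousAt.2 fun x => (ha1 x).continuousAt
  have hcb : Continuous b := continuous_iff_continuousAt.2 fun x => (hb x).continuousAt
  have hcb1 : Continuous b1 := continuous_iff_continuousAt.2 fun x => (hb1 x).continuousAt
  set D : ℝ → ℝ := fun x => b1 x - a1 x / a x * b x with hD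
  set D1 : ℝ → ℝ := fun x => b2 x - ((a2 x * a x - a1 x * a1 x) / a x ^ 2 * b x +
    a1 x / a x * b1 x) with hD1
  set E : ℝ → ℝ := fun x => Psi e H (a x + b x) * D1 x / D x ^ 2 -
    (a x + b x) * GG e H (a x + b x) * (a1 x / a x) / D x with hE
  have hDeq : ∀ x ∈ Icc s u, D x = (b1 x / b x - a1 x / a x) * b x := by
    intro x hx
    have := (hB x hx).ne
    simp only [hD]
    field_simp
  have hDabs : ∀ x ∈ Icc s u, |b x| ≤ |D x| := by
    intro x hx
    rw [hDeq x hx, abs_mul]
    have h1 := hAB x hx
    have h2 := abs_nonneg (b x)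
    nlinarith
  have hDne : ∀ x ∈ Icc s u, D x ≠ 0 := by
    intro x hx h
    have h1 := hDabs x hx
    rw [h, abs_zero] at h1
    exact (hB x hx).ne (abs_eq_zero.1 (le_antisymm h1 (abs_nonneg _)))
  have hD' : ∀ x ∈ Icc s u, HasDerivAt D (D1 x) x := by
    intro x hx
    exact (hb1 x).sub (((ha1 x).div (ha x) (hA x hx).ne).mul (hb x))
  -- the derivative
  have hF : ∀ x ∈ uIcc s u, HasDerivAt (fun x => Psi e H (a x + b x) / D x)
      (GG e H (a x + b x) - E x) x := by
    intro x hx
    rw [uIcc_of_le hsu] at hx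
    have h1 := ((hasDerivAt_Psi he heH (a x + b x)).comp x ((ha x).add (hb x))).div (hD' x hx)
      (hDne x hx)
    refine h1.congr_deriv ?_
    have hane := (hA x hx).ne
    have hd := hDne x hx
    have h2 : a1 x + b1 x = a1 x / a x * (a x + b x) + D x := by
      simp only [hD]
      field_simp
      ring
    simp only [Function.comp_apply, Pi.add_apply, hE]
    rw [h2]
    field_simp
    ring
  have hEc : ContinuousOn E (Icc s u) := by
    have hPc : Continuous (Psi e H) :=
      continuous_iff_continuousAt.2 fun x => (hasDerivAt_Psi he heH x).continuousAt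
    have hGc := continuous_GG he heH
    have h0 : Continuous fun x => a x + b x := hca.add hcb
    have hq : ContinuousOn (fun x => a1 x / a x) (Icc s u) :=
      hca1.continuousOn.div hca.continuousOn fun x hx => (hA x hx).ne
    have hDc : ContinuousOn D (Icc s u) := hcb1.continuousOn.sub (hq.mul hcb.continuousOn)
    have hD1c : ContinuousOn D1 (Icc s u) := by
      refine hb2.continuousOn.sub (((ContinuousOn.div ?_ ?_ ?_).mul hcb.continuousOn).add
        (hq.mul hcb1.continuousOn))
      · exact ((ha2.mul hca).sub (hca1.mul hca1)).continuousOn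
      · exact (hca.pow 2).continuousOn
      · exact fun x hx => pow_ne_zero 2 (hA x hx).ne
    refine (((hPc.comp h0).continuousOn.mul hD1c).div (hDc.pow 2)
      fun x hx => pow_ne_zero 2 (hDne x hx)).sub
      ((((h0.mul (hGc.comp h0)).continuousOn).mul hq).div hDc hDne)
  have hEi : IntervalIntegrable E volume s u := by
    apply ContinuousOn.intervalIntegrable
    rwa [uIcc_of_le hsu]
  have hGi : IntervalIntegrable (fun x => GG e H (a x + b x)) volume s u :=
    ((continuous_GG he heH).comp (hca.add hcb)).intervalIntegrable _ _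
  have hint := intervalIntegral.integral_eq_sub_of_hasDerivAt hF (hGi.sub hEi)
  rw [intervalIntegral.integral_sub hGi hEi] at hint
  have hmain : ∫ x in s..u, GG e H (a x + b x) = Psi e H (a u + b u) / D u -
      Psi e H (a s + b s) / D s + ∫ x in s..u, E x := by linarith
  have hbd : ∀ x ∈ Icc s u, |Psi e H (a x + b x) / D x| ≤ 2 * ind H (a x + b x) / |b x| := by
    intro x hx
    rw [abs_div]
    have hbp : 0 < |b x| := abs_pos.2 (hB x hx).ne
    exact div_le_div₀ (mul_nonneg (by norm_num) (ind_nonneg _ _)) (abs_Psi_le he heH _) hbp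
      (hDabs x hx)
  have hEb : ∀ x ∈ Icc s u, |E x| ≤ (8 * Lg ^ 2 + 4 * Lg) * (ind H (a x + b x) / |b x|) := by
    intro x hx
    have hap : 0 < |a x| := abs_pos.2 (hA x hx).ne
    have hbp : 0 < |b x| := abs_pos.2 (hB x hx).ne
    have hDp : 0 < |D x| := abs_pos.2 (hDne x hx)
    have hI := ind_nonneg H (a x + b x)
    have q1 : |a1 x / a x| ≤ Lg := by
      rw [abs_div, div_le_iff₀ hap]
      exact (hA x hx).d1
    have q2 : |(a2 x * a x - a1 x * a1 x) / a x ^ 2| ≤ 2 * Lg ^ 2 := by
      rw [abs_div, abs_pow, div_le_iff₀ (by positivity)]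
      have r1 := (hA x hx).d2
      have r2 := (hA x hx).d1
      calc |a2 x * a x - a1 x * a1 x| ≤ |a2 x * a x| + |a1 x * a1 x| := abs_sub _ _
        _ = |a2 x| * |a x| + |a1 x| * |a1 x| := by rw [abs_mul, abs_mul]
        _ ≤ (Lg ^ 2 * |a x|) * |a x| + (Lg * |a x|) * (Lg * |a x|) := by gcongr
        _ = 2 * Lg ^ 2 * |a x| ^ 2 := by ring
    have q3 : |D1 x| ≤ 4 * Lg ^ 2 * |b x| := by
      have r1 := (hB x hx).d1
      have r2 := (hB x hx).d2
      calc |D1 x| ≤ |b2 x| + |(a2 x * a x - a1 x * a1 x) / a x ^ 2 * b x + a1 x / a x * b1 x| :=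
            abs_sub _ _
        _ ≤ |b2 x| + (|(a2 x * a x - a1 x * a1 x) / a x ^ 2 * b x| + |a1 x / a x * b1 x|) := by
            gcongr
            exact abs_add_le _ _
        _ = |b2 x| + (|(a2 x * a x - a1 x * a1 x) / a x ^ 2| * |b x| +
            |a1 x / a x| * |b1 x|) := by rw [abs_mul, abs_mul]
        _ ≤ Lg ^ 2 * |b x| + (2 * Lg ^ 2 * |b x| + Lg * (Lg * |b x|)) := by gcongr
        _ = 4 * Lg ^ 2 * |b x| := by ring
    have q4 := abs_Psi_le he heH (a x + b x)
    have q5 := abs_mul_GG_le he heH (a x + b x)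
    have q6 : |Psi e H (a x + b x) * D1 x / D x ^ 2| ≤
        8 * Lg ^ 2 * (ind H (a x + b x) / |b x|) := by
      rw [abs_div, abs_mul, abs_pow]
      calc |Psi e H (a x + b x)| * |D1 x| / |D x| ^ 2
          ≤ (2 * ind H (a x + b x)) * (4 * Lg ^ 2 * |b x|) / |b x| ^ 2 := by
            have := hDabs x hx
            gcongr
            exact q4
        _ = 8 * Lg ^ 2 * (ind H (a x + b x) / |b x|) := by
            field_simp
            ring
    have q7 : |(a x + b x) * GG e H (a x + b x) * (a1 x / a x) / D x| ≤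
        4 * Lg * (ind H (a x + b x) / |b x|) := by
      rw [abs_div, abs_mul]
      calc |(a x + b x) * GG e H (a x + b x)| * |a1 x / a x| / |D x|
          ≤ (4 * ind H (a x + b x)) * Lg / |b x| := by
            have := hDabs x hx
            gcongr
            exact q5
        _ = 4 * Lg * (ind H (a x + b x) / |b x|) := by ring
    calc |E x| ≤ |Psi e H (a x + b x) * D1 x / D x ^ 2| +
        |(a x + b x) * GG e H (a x + b x) * (a1 x / a x) / D x| := abs_sub _ _
      _ ≤ 8 * Lg ^ 2 * (ind H (a x + b x) / |b x|) + 4 * Lg * (ind H (a x + b x) / |b x|) :=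
        add_le_add q6 q7
      _ = _ := by ring
  have hgi : IntervalIntegrable
      (fun x => (8 * Lg ^ 2 + 4 * Lg) * (ind H (a x + b x) / |b x|)) volume s u := by
    have hbc : ContinuousOn (fun x => (8 * Lg ^ 2 + 4 * Lg) * (1 / |b x|)) (uIcc s u) := by
      rw [uIcc_of_le hsu]
      exact continuousOn_const.mul (continuousOn_const.div (hcb.abs).continuousOn
        fun x hx => (abs_pos.2 (hB x hx).ne).ne')
    refine hbc.intervalIntegrable.mono_fun' ?_ ?_
    · apply Measurable.aestronglyMeasurable
      exact (((measurable_ind H).comp (hca.add hcb).measurable).div hcb.abs.measurable).const_mul _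
    · refine Eventually.of_forall fun x => ?_
      beta_reduce
      rw [Real.norm_eq_abs, abs_of_nonneg]
      · have h1 := ind_le_one H (a x + b x)
        gcongr
      · have h1 := ind_nonneg H (a x + b x)
        positivity
  have hEint : |∫ x in s..u, E x| ≤
      ∫ x in s..u, (8 * Lg ^ 2 + 4 * Lg) * (ind H (a x + b x) / |b x|) := by
    have := intervalIntegral.norm_integral_le_of_norm_le (f := E) hsu
      (Eventually.of_forall fun x hx => by
        rw [Real.norm_eq_abs]
        exact hEb x (Ioc_subset_Icc_self hx)) hgi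
    rwa [Real.norm_eq_abs] at this
  rw [hmain]
  have h1 := hbd u (right_mem_Icc.2 hsu)
  have h2 := hbd s (left_mem_Icc.2 hsu)
  calc |Psi e H (a u + b u) / D u - Psi e H (a s + b s) / D s + ∫ x in s..u, E x|
      ≤ |Psi e H (a u + b u) / D u - Psi e H (a s + b s) / D s| + |∫ x in s..u, E x| :=
        abs_add_le _ _
    _ ≤ |Psi e H (a u + b u) / D u| + |Psi e H (a s + b s) / D s| + |∫ x in s..u, E x| := by
        gcongr
        exact abs_sub _ _
    _ ≤ _ := by gcongr

end Pool.Agent.EWar
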