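import Pool.Agent.EWar.Scale
import Pool.Agent.MWar.Dim

/-!
For one pair of blocks: the exponents that are bad at infinitely many scales form a set of Hausdorff
dimension less than one.
-/

set_option autoImplicit false

open MeasureTheory Set Filter Topology
open scoped ENNReal NNReal

namespace Pool.Agent.EWar

open Pool.Agent.MWar (dimH_limsup_le cover)

theorem val_near {l : List ℕ} {p p' p1 D : ℝ} (hD : ∀ x ≤ p1, v1 l x ≤ D) (hp : p ≤ p1)
    (hp' : p' ≤ p1) : |val l p' - val l p| ≤ D * |p' - p| := by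
  have hs : Convex ℝ (Iic p1) := convex_Iic p1
  have h := hs.norm_image_sub_le_of_norm_hasDerivWithin_le (f := val l) (f' := v1 l) (C := D)
    (fun x _ => (hasDerivAt_val l x).hasDerivWithinAt)
    (fun x hx => by
      rw [Real.norm_eq_abs, abs_of_nonneg (v1_nonneg l x)]
      exact hD x hx) (x := p) (y := p') hp hp'
  rwa [Real.norm_eq_abs, Real.norm_eq_abs] at h

theorem badY_near {A B : Finset (List ℕ)} {e D x y p1 y1 y2 X : ℝ} (he : 0 < e) (he1 : e < 1)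
    (hD : 0 < D) (hA : ∀ l ∈ A, ∀ p ≤ p1, v1 l p ≤ D) (hB : ∀ l ∈ B, ∀ p ≤ p1, v1 l p ≤ D)
    (hx : x ≤ p1) (hy : y ≤ p1) (hxy : |y - x| ≤ e / 4 / D) (hX : 1 ≤ X) (hXD : X ≤ D)
    (hy1 : 0 ≤ y1) (hy2 : 0 ≤ y2) :
    badY A B val val e x (2 * y1 * X ^ x) (y2 / 2 * X ^ x) ⊆
      badY A B val val (e / 2) y (y1 * X ^ y) (y2 * X ^ y) := by
  have hX0 : 0 < X := by linarith
  have hDxy : D * |y - x| ≤ e / 4 := by
    calc D * |y - x| ≤ D * (e / 4 / D) := mul_le_mul_of_nonneg_left hxy hD.le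
      _ = e / 4 := by field_simp
  -- the powers are comparable
  have hlog : Real.log X * |y - x| ≤ 1 / 4 := by
    have h1 : Real.log X ≤ X := (Real.log_le_sub_one_of_pos hX0).trans (by linarith)
    calc Real.log X * |y - x| ≤ D * |y - x| :=
          mul_le_mul_of_nonneg_right (h1.trans hXD) (abs_nonneg _)
      _ ≤ 1 / 4 := by linarith
  have hlog0 : 0 ≤ Real.log X := Real.log_nonneg hX
  have hexp : ∀ u v : ℝ, |u - v| = |y - x| → X ^ u ≤ 2 * X ^ v := by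
    intro u v huv
    have h1 : X ^ u = X ^ v * X ^ (u - v) := by
      rw [← Real.rpow_add hX0]
      congr 1
      ring
    have h2 : X ^ (u - v) ≤ 2 := by
      rw [Real.rpow_def_of_pos hX0]
      have h3 : Real.log X * (u - v) ≤ 1 / 4 := by
        refine le_trans ?_ hlog
        rw [← huv]
        exact mul_le_mul_of_nonneg_left (le_abs_self _) hlog0
      have h4 : Real.log X * (u - v) ≤ Real.log 2 := by
        have := Real.log_two_gt_d9
        linarith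
      rw [← Real.le_log_iff_exp_le (by norm_num)]
      exact h4
    rw [h1]
    have h5 := mul_le_mul_of_nonneg_left h2 (Real.rpow_nonneg hX0.le v)
    linarith
  have e1 := hexp y x rfl
  have e2 := hexp x y (abs_sub_comm _ _)
  intro Y hY
  refine ⟨⟨?_, ?_⟩, fun a ha b hb => ?_⟩
  · have h1 := hY.1.1
    have h2 := mul_le_mul_of_nonneg_left e1 hy1
    linarith
  · have h1 := hY.1.2
    have h2 := mul_le_mul_of_nonneg_left e2 hy2
    linarith
  · have h1 := hY.2 a ha b hb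
    have h2 := (val_near (hA a ha) hx hy).trans hDxy
    have h3 := (val_near (hB b hb) hx hy).trans hDxy
    have h4 : val a x + val b x - Y = (val a y + val b y - Y) -
        ((val a y - val a x) + (val b y - val b x)) := by ring
    rw [h4] at h1
    have h5 := abs_sub (val a y + val b y - Y) ((val a y - val a x) + (val b y - val b x))
    have h6 := abs_add_le (val a y - val a x) (val b y - val b x)
    linarith

theorem pair {p0 p1 δ c : ℝ} {m n : ℕ} (hp0 : 1 < p0) (h01 : p0 ≤ p1) (h01' : p1 ≤ p0 + 1)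
    (hδ : 0 < δ) (hδ' : δ < p0 - 1) (hh : p1 - 1 + δ ≤ p0) (hc0 : 0 < c) (hcp : c ≤ p1)
    (E1 : 2 * p1 - 1 + δ - (p0 - 1 - δ) * fE p1 ((p0 - 1 - δ) / p1) m -
      p0 * fE p1 ((p0 - 1 - δ) / p1) n ≤ p0 - c)
    (E2 : 2 * p1 - p0 - p0 * fE p1 ((p0 - 1 - δ) / p1) n ≤ p0 - c)
    (E3 : 3 * p1 - p0 - 1 + 3 * δ - p0 * fE p1 ((p0 - 1 - δ) / p1) n -
      p0 * ((p0 - 1 - δ) / p1) ^ n ≤ p0 - c)
    {e : ℝ} (he : 0 < e) (he1 : e < 1) {La : ℕ} (hLa : 2 ≤ La) :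
    ∃ A B : ℕ → Finset (List ℕ), (∀ j, ∀ l ∈ A j, l.length = m + 1 ∧ ∀ x ∈ l, 0 < x) ∧
      (∀ j, ∀ l ∈ B j, l.length = n ∧ ∀ x ∈ l, 0 < x) ∧
      dimH {p : ℝ | ∃ᶠ j : ℕ in atTop, p ∈ {p : ℝ | p ∈ Icc p0 p1 ∧ ((2 : ℝ) ^ j) ^ p ≤
        (volume (badY (A j) (B j) val val e p (2 * (2 ^ p1 + 1) * ((2 : ℝ) ^ j) ^ p)
          (((La : ℝ) - 1) / 2 * ((2 : ℝ) ^ j) ^ p))).toReal}} ≤
        ENNReal.ofReal (1 - c / (p1 + δ)) := by
  classical
  have hLar : (2 : ℝ) ≤ La := by exact_mod_cast hLa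
  have hp1 : 0 < p1 := by linarith
  obtain ⟨P, hP⟩ : ∃ P, P = p1 + δ := ⟨_, rfl⟩
  have hP0 : 0 < P := by linarith
  have hP1 : 1 ≤ P := by linarith
  obtain ⟨C, X0, hC, hX0, hsc⟩ := scale (m := m) (n := n) hp0 h01 h01' hδ hδ' hh E1 E2 E3
    (e := e / 2) (by linarith) (by linarith) La hLa
  rw [← hP] at hsc ⊢
  -- the data at level j
  have hdata : ∀ j : ℕ, ∃ (A B : Finset (List ℕ)), (∀ l ∈ A, l.length = m + 1 ∧ ∀ x ∈ l, 0 < x) ∧
      (∀ l ∈ B, l.length = n ∧ ∀ x ∈ l, 0 < x) ∧ (X0 ≤ (2 : ℝ) ^ j →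
        (∀ l ∈ A, ∀ p ≤ p1, v1 l p ≤ ((2 : ℝ) ^ j) ^ P) ∧
        (∀ l ∈ B, ∀ p ≤ p1, v1 l p ≤ ((2 : ℝ) ^ j) ^ P) ∧
        ∃ W : ℝ → ℝ, IntervalIntegrable W volume p0 p1 ∧ (∀ p, 0 ≤ W p) ∧
        ∫ p in p0..p1, W p ≤ C * ((2 : ℝ) ^ j) ^ (p0 - c) ∧
        ∀ p ∈ Icc p0 p1, (volume (badY A B val val (e / 2) p ((2 ^ p1 + 1) * ((2 : ℝ) ^ j) ^ p)
        (((La : ℝ) - 1) * ((2 : ℝ) ^ j) ^ p))).toReal ≤ W p) := by
    intro j
    by_cases hj : X0 ≤ (2 : ℝ) ^ j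
    · obtain ⟨A, B, W, h1, h2, h3, h3', h4, h5, h6, h7⟩ := hsc (2 ^ j) (by push_cast; exact hj)
      push_cast at h3 h3' h6 h7
      exact ⟨A, B, h1, h2, fun _ => ⟨h3, h3', W, h4.intervalIntegrable _ _, h5, h6, h7⟩⟩
    · exact ⟨∅, ∅, by simp, by simp, fun h => absurd h hj⟩
  choose A B hA hB hW using hdata
  refine ⟨A, B, hA, hB, ?_⟩
  set E : ℕ → Set ℝ := fun j => {p : ℝ | p ∈ Icc p0 p1 ∧ ((2 : ℝ) ^ j) ^ p ≤
        (volume (badY (A j) (B j) val val e p (2 * (2 ^ p1 + 1) * ((2 : ℝ) ^ j) ^ p)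
          (((La : ℝ) - 1) / 2 * ((2 : ℝ) ^ j) ^ p))).toReal} with hE
  set l : ℕ → ℝ := fun j => e / 4 / ((2 : ℝ) ^ j) ^ P with hl
  have h2j1 : ∀ j : ℕ, (1 : ℝ) ≤ (2 : ℝ) ^ j := fun j => one_le_pow₀ one_le_two
  have h2j : ∀ j : ℕ, (0 : ℝ) < (2 : ℝ) ^ j := fun j => by positivity
  have hDpos : ∀ j : ℕ, (0 : ℝ) < ((2 : ℝ) ^ j) ^ P := fun j => Real.rpow_pos_of_pos (h2j j) _
  have hVpos : ∀ j : ℕ, (0 : ℝ) < ((2 : ℝ) ^ j) ^ p0 := fun j => Real.rpow_pos_of_pos (h2j j) _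
  have hlpos : ∀ j, 0 < l j := fun j => div_pos (by linarith) (hDpos j)
  obtain ⟨j0, hj0⟩ : ∃ j0 : ℕ, ∀ j, j0 ≤ j → X0 ≤ (2 : ℝ) ^ j := by
    obtain ⟨n, hn⟩ := pow_unbounded_of_one_lt X0 (one_lt_two : (1 : ℝ) < 2)
    exact ⟨n, fun j hj => hn.le.trans (pow_le_pow_right₀ one_le_two hj)⟩
  -- covers
  have hcov : ∀ j, ∃ T : Finset ℕ, (j0 ≤ j → (T.card : ℝ) ≤
      (4 * C / e + 1) * ((2 : ℝ) ^ j) ^ (P - c) ∧
      E j ⊆ ⋃ i ∈ T, Icc (p0 + i * l j) (p0 + i * l j + l j)) ∧ (¬ j0 ≤ j → T = ∅) := by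
    intro j
    by_cases hj : j0 ≤ j
    · obtain ⟨ha, hb, W, h4, h5, h6, h7⟩ := hW j (hj0 j hj)
      obtain ⟨T, hT1, hT2⟩ := cover (hVpos j) (hlpos j) h01 h4 h5 h6 (E := E j)
        (fun x hx => hx.1) (fun x hx y hy hxy => by
          have hxE := hx.2
          have hpp : ((2 : ℝ) ^ j) ^ p0 ≤ ((2 : ℝ) ^ j) ^ x :=
            Real.rpow_le_rpow_of_exponent_le (h2j1 j) hx.1.1
          refine (hpp.trans hxE).trans (le_trans ?_ (h7 y hy))
          refine ENNReal.toReal_mono (volume_badY_ne_top _ _ _ _ _ _ _ _) (measure_mono ?_)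
          refine badY_near (p1 := p1) he he1 (hDpos j) ha hb hx.1.2 hy.2 hxy (h2j1 j) ?_
            (by positivity) (by linarith)
          calc (2 : ℝ) ^ j = ((2 : ℝ) ^ j) ^ (1 : ℝ) := (Real.rpow_one _).symm
            _ ≤ ((2 : ℝ) ^ j) ^ P := Real.rpow_le_rpow_of_exponent_le (h2j1 j) hP1)
      refine ⟨T, fun _ => ⟨hT1.trans ?_, hT2⟩, fun h => absurd hj h⟩
      have h9 : (1 : ℝ) ≤ ((2 : ℝ) ^ j) ^ (P - c) := Real.one_le_rpow (h2j1 j) (by linarith)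
      have h10 : C * ((2 : ℝ) ^ j) ^ (p0 - c) / (((2 : ℝ) ^ j) ^ p0 * l j) =
          4 * C / e * ((2 : ℝ) ^ j) ^ (P - c) := by
        simp only [hl]
        rw [Real.rpow_sub (h2j j), Real.rpow_sub (h2j j)]
        have q1 := (hVpos j).ne'
        have q2 := (hDpos j).ne'
        have q3 : ((2 : ℝ) ^ j) ^ c ≠ 0 := (Real.rpow_pos_of_pos (h2j j) _).ne'
        field_simp
      rw [h10]
      linarith
    · exact ⟨∅, fun h => absurd h hj, fun _ => rfl⟩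
  choose T hT hT0 using hcov
  have hanti : Antitone l := by
    intro i j hij
    simp only [hl]
    refine div_le_div_of_nonneg_left (by linarith) (hDpos i) ?_
    exact Real.rpow_le_rpow (h2j i).le (pow_le_pow_right₀ one_le_two hij) hP0.le
  have hl0 : Tendsto l atTop (𝓝 0) := by
    have h1 : ∀ j, l j ≤ e / 4 * (1 / 2 : ℝ) ^ j := by
      intro j
      simp only [hl]
      rw [one_div, inv_pow, ← div_eq_mul_inv]
      refine div_le_div_of_nonneg_left (by linarith) (by positivity) ?_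
      calc (2 : ℝ) ^ j = ((2 : ℝ) ^ j) ^ (1 : ℝ) := (Real.rpow_one _).symm
        _ ≤ ((2 : ℝ) ^ j) ^ P := Real.rpow_le_rpow_of_exponent_le (h2j1 j) hP1
    have h2 : Tendsto (fun j : ℕ => e / 4 * (1 / 2 : ℝ) ^ j) atTop (𝓝 0) := by
      have := (tendsto_pow_atTop_nhds_zero_of_lt_one (by norm_num : (0 : ℝ) ≤ 1 / 2)
        (by norm_num)).const_mul (e / 4)
      rwa [mul_zero] at this
    exact squeeze_zero (fun j => (hlpos j).le) h1 h2
  have hdimB0 : 0 ≤ 1 - c / P := by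
    have : c / P ≤ 1 := by
      rw [div_le_one hP0]
      linarith
    linarith
  have hmain : ∀ d : ℝ≥0, 1 - c / P < d → dimH {x | ∃ᶠ j in atTop, x ∈ E j} ≤ d := by
    intro d hd
    have hdpos : (0 : ℝ) < d := lt_of_le_of_lt hdimB0 hd
    refine dimH_limsup_le (T := T) (a := fun j i => p0 + i * l j) (j0 := j0) hanti hl0
      (fun j hj => (hT j hj).2) (by exact_mod_cast hdpos) ?_
    obtain ⟨p, hp⟩ : ∃ p, p = P - c - P * d := ⟨_, rfl⟩
    have hpneg : p < 0 := by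
      have h3 : P * (1 - c / P) < P * d := mul_lt_mul_of_pos_left hd hP0
      have h4 : P * (1 - c / P) = P - c := by field_simp
      rw [hp]
      linarith
    obtain ⟨q, hq⟩ : ∃ q, q = (2 : ℝ) ^ p := ⟨_, rfl⟩
    have hq0 : 0 < q := by rw [hq]; exact Real.rpow_pos_of_pos (by norm_num) _
    have hq1 : q < 1 := by rw [hq]; exact Real.rpow_lt_one_of_one_lt_of_neg (by norm_num) hpneg
    obtain ⟨G, hG⟩ : ∃ G, G = (4 * C / e + 1) * (e / 4) ^ (d : ℝ) := ⟨_, rfl⟩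
    have hsumm : Summable (fun j : ℕ => G * q ^ j) :=
      (summable_geometric_of_lt_one hq0.le hq1).mul_left G
    refine ne_top_of_le_ne_top hsumm.tsum_ofReal_ne_top (ENNReal.tsum_le_tsum fun j => ?_)
    by_cases hj : j0 ≤ j
    · have h5 := (hT j hj).1
      have h6 : ((T j).card : ℝ≥0∞) * ENNReal.ofReal (l j) ^ (d : ℝ) =
          ENNReal.ofReal ((T j).card * l j ^ (d : ℝ)) := by
        rw [ENNReal.ofReal_mul (Nat.cast_nonneg _), ENNReal.ofReal_natCast,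
          ENNReal.ofReal_rpow_of_pos (hlpos j)]
      rw [h6]
      refine ENNReal.ofReal_le_ofReal ?_
      have h7 : l j ^ (d : ℝ) = (e / 4) ^ (d : ℝ) / (((2 : ℝ) ^ j) ^ P) ^ (d : ℝ) :=
        Real.div_rpow (by linarith) (hDpos j).le _
      have h8 : (((2 : ℝ) ^ j) ^ P) ^ (d : ℝ) = ((2 : ℝ) ^ j) ^ (P * d) := by
        rw [← Real.rpow_mul (h2j j).le]
      have h9 : q ^ j = ((2 : ℝ) ^ j) ^ (P - c) / ((2 : ℝ) ^ j) ^ (P * d) := by
        rw [← Real.rpow_sub (h2j j), hq, ← Real.rpow_natCast, ← Real.rpow_natCast,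
          ← Real.rpow_mul (by norm_num), ← Real.rpow_mul (by norm_num), mul_comm, hp]
      rw [h7, h8]
      have h10 : 0 < ((2 : ℝ) ^ j) ^ (P * d) := Real.rpow_pos_of_pos (h2j j) _
      have h11 : 0 < (e / 4) ^ (d : ℝ) := Real.rpow_pos_of_pos (by linarith) _
      calc ((T j).card : ℝ) * ((e / 4) ^ (d : ℝ) / ((2 : ℝ) ^ j) ^ (P * d))
          ≤ (4 * C / e + 1) * ((2 : ℝ) ^ j) ^ (P - c) *
            ((e / 4) ^ (d : ℝ) / ((2 : ℝ) ^ j) ^ (P * d)) := by gcongr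
        _ = G * q ^ j := by
          rw [h9, hG]
          ring
    · rw [hT0 j hj]
      simp
  by_contra hcon
  rw [not_le] at hcon
  obtain ⟨d, hd1, hd2⟩ := ENNReal.lt_iff_exists_nnreal_btwn.1 hcon
  have hd3 : 1 - c / P < d := by
    by_contra h
    rw [not_lt] at h
    have h2 : (d : ℝ≥0∞) ≤ ENNReal.ofReal (1 - c / P) := by
      rw [← ENNReal.ofReal_coe_nnreal]
      exact ENNReal.ofReal_le_ofReal h
    exact absurd hd1 (not_lt.2 h2)
  exact absurd (hmain d hd3) (not_le.2 hd2)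

end Pool.Agent.EWar
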