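import Pool.Agent.MWar.Ker

/-!
The autocorrelation `GG` is continuous; its primitive `Psi` is bounded and has bounded support.
-/

set_option autoImplicit false

open MeasureTheory Set Filter Topology

namespace Pool.Agent.EWar

open Pool.Agent.MWar

theorem continuous_cl (w : ℝ) : Continuous (cl w) := by
  unfold cl
  exact (continuous_const.max (continuous_const.min continuous_id)).div_const _

theorem continuous_Ga (e H : ℝ) : Continuous (Ga e H) := by
  unfold Ga
  exact (continuous_cl e).sub (continuous_cl H)

theorem integrable_gk_mul_ph {e H : ℝ} (he : 0 < e) (heH : e ≤ H) (w : ℝ) (u : ℝ) :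
    Integrable (fun v => gk e H (u + v) * ph w v) := by
  have h2 : Integrable (fun v => 1 / e * |ph w v|) := (integrable_ph w).abs.const_mul _
  refine h2.mono' ?_ (Eventually.of_forall fun y => ?_)
  · apply Measurable.aestronglyMeasurable
    exact ((measurable_gk e H).comp (measurable_const.add measurable_id)).mul (measurable_ph w)
  · rw [norm_mul, Real.norm_eq_abs, Real.norm_eq_abs]
    exact mul_le_mul_of_nonneg_right (abs_gk_le' he heH _) (abs_nonneg _)

theorem integral_gk_mul_ph {e H : ℝ} (he : 0 < e) (heH : e ≤ H) {w : ℝ} (hw : 0 < w) (u : ℝ) :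
    ∫ v, gk e H (u + v) * ph w v = (Ga e H (u + w) - Ga e H (u - w)) / (2 * w) := by
  have h1 : (fun v => gk e H (u + v) * ph w v) =
      (Ioc (-w) w).indicator (fun v => gk e H (u + v) * (1 / (2 * w))) := by
    funext v
    unfold ph
    by_cases hv : v ∈ Ioc (-w) w
    · rw [indicator_of_mem hv, indicator_of_mem hv]
    · rw [indicator_of_notMem hv, indicator_of_notMem hv, mul_zero]
  rw [h1, integral_indicator measurableSet_Ioc,
    ← intervalIntegral.integral_of_le (by linarith : -w ≤ w), intervalIntegral.integral_mul_const,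
    intervalIntegral.integral_comp_add_left (fun x => gk e H x), integral_gk_interval he heH]
  rw [← sub_eq_add_neg]
  ring

theorem GG_eq {e H : ℝ} (he : 0 < e) (heH : e ≤ H) (u : ℝ) :
    GG e H u = (Ga e H (u + e) - Ga e H (u - e)) / (2 * e) -
      (Ga e H (u + H) - Ga e H (u - H)) / (2 * H) := by
  have hH : 0 < H := he.trans_le heH
  rw [← integral_gk_mul_ph he heH he, ← integral_gk_mul_ph he heH hH,
    ← integral_sub (integrable_gk_mul_ph he heH e u) (integrable_gk_mul_ph he heH H u)]
  unfold GG
  refine integral_congr_ae (Eventually.of_forall fun v => ?_)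
  change gk e H (u + v) * gk e H v = gk e H (u + v) * ph e v - gk e H (u + v) * ph H v
  have : gk e H v = ph e v - ph H v := rfl
  rw [this]
  ring

theorem continuous_GG {e H : ℝ} (he : 0 < e) (heH : e ≤ H) : Continuous (GG e H) := by
  have h : GG e H = fun u => (Ga e H (u + e) - Ga e H (u - e)) / (2 * e) -
      (Ga e H (u + H) - Ga e H (u - H)) / (2 * H) := funext fun u => GG_eq he heH u
  rw [h]
  have hc := continuous_Ga e H
  exact (((hc.comp (by fun_prop)).sub (hc.comp (by fun_prop))).div_const _).sub
    (((hc.comp (by fun_prop)).sub (hc.comp (by fun_prop))).div_const _)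

/-- a primitive of `GG` -/
noncomputable def Psi (e H u : ℝ) : ℝ := ∫ x in (-(2 * H + 1))..u, GG e H x

theorem hasDerivAt_Psi {e H : ℝ} (he : 0 < e) (heH : e ≤ H) (u : ℝ) :
    HasDerivAt (Psi e H) (GG e H u) u := by
  unfold Psi
  exact intervalIntegral.integral_hasDerivAt_right
    ((continuous_GG he heH).intervalIntegrable _ _)
    ((continuous_GG he heH).stronglyMeasurableAtFilter _ _) (continuous_GG he heH).continuousAt

theorem abs_Psi_le {e H : ℝ} (he : 0 < e) (heH : e ≤ H) (u : ℝ) :
    |Psi e H u| ≤ 2 * (if |u| ≤ 2 * H then 1 else 0) := by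
  have hH : 0 < H := he.trans_le heH
  have h0 : ¬ |(-(2 * H + 1))| ≤ 2 * H := by
    rw [abs_neg, abs_of_pos (by linarith)]
    linarith
  unfold Psi
  rcases le_total (-(2 * H + 1)) u with h | h
  · have h1 := abs_avg_GG he heH (D := 1) one_ne_zero h 0
    simp only [zero_add, one_mul, abs_one, div_one] at h1
    rw [if_neg h0, add_zero] at h1
    exact h1
  · have h1 := abs_avg_GG he heH (D := 1) one_ne_zero h 0
    simp only [zero_add, one_mul, abs_one, div_one] at h1
    rw [if_neg h0, zero_add] at h1
    rw [intervalIntegral.integral_symm, abs_neg]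
    exact h1

theorem abs_mul_GG_le {e H : ℝ} (he : 0 < e) (heH : e ≤ H) (u : ℝ) :
    |u * GG e H u| ≤ 4 * (if |u| ≤ 2 * H then 1 else 0) := by
  have hH : 0 < H := he.trans_le heH
  split_ifs with h
  · rw [abs_mul]
    rcases le_or_gt |u| (2 * e) with h1 | h1
    · calc |u| * |GG e H u| ≤ 2 * e * (2 / e) :=
            mul_le_mul h1 (abs_GG_le he heH u) (abs_nonneg _) (by linarith)
        _ = 4 * 1 := by
          field_simp
          norm_num
    · calc |u| * |GG e H u| ≤ 2 * H * (3 / (2 * H)) :=
            mul_le_mul h (abs_GG_le_far he heH h1) (abs_nonneg _) (by linarith)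
        _ = 3 := by field_simp
        _ ≤ 4 * 1 := by norm_num
  · rw [GG_zero heH (not_le.1 h), mul_zero, abs_zero, mul_zero]

end Pool.Agent.EWar
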