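import Pool.Agent.EWar.Tame
import Pool.Agent.MWar.Reg

/-!
The regular set: lists whose first entry runs through `[X, La * X)` and whose remaining part has a
small value. Upper and lower bounds for the number of its elements with value in a window.
-/

set_option autoImplicit false

open Set Filter Topology

namespace Pool.Agent.EWar

open Pool.Agent.MWar (card_sep_le)

theorem reg_upper {X Y : ℕ} {A' : Finset (List ℕ)} {p0 p R H : ℝ} (hp0 : 1 ≤ p0) (hp : p0 ≤ p)
    (hX : 1 ≤ X) (hR : ∀ l ∈ A', val l p ≤ R) (hRX : R ≤ (X : ℝ) ^ (p0 - 1) / 2)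
    (hH : (X : ℝ) ^ (p0 - 1) ≤ H) (z : ℝ) :
    (((consSet X Y A').filter fun l => |val l p - z| ≤ 2 * H).card : ℝ) ≤
      6 * H * A'.card / (X : ℝ) ^ (p0 - 1) := by
  have hXr : (1 : ℝ) ≤ X := by exact_mod_cast hX
  have hX0 : (0 : ℝ) < X := by linarith
  set P : ℝ := (X : ℝ) ^ (p0 - 1) with hP
  have hXp : (0 : ℝ) < P := Real.rpow_pos_of_pos hX0 _
  set T : ℝ := 2 * H + P / 2 with hT
  set S : Finset ℕ := (Finset.Ico X Y).filter fun x : ℕ => |pw x p - z| ≤ T with hS
  have hsub : (consSet X Y A').filter (fun l => |val l p - z| ≤ 2 * H) ⊆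
      (S ×ˢ A').image fun q : ℕ × List ℕ => q.1 :: q.2 := by
    intro l hl
    rw [Finset.mem_filter] at hl
    obtain ⟨x, m, hx1, hx2, hm, rfl⟩ := mem_consSet.1 hl.1
    refine Finset.mem_image.2 ⟨(x, m), ?_, rfl⟩
    rw [Finset.mem_product, hS, Finset.mem_filter, Finset.mem_Ico]
    refine ⟨⟨⟨hx1, hx2⟩, ?_⟩, hm⟩
    have h1 := (hR m hm).trans hRX
    have h2 := abs_le.1 hl.2
    rw [val_cons] at h2
    have h3 := val_nonneg m p
    rw [abs_le]
    constructor <;> linarith [h2.1, h2.2]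
  have h1 : (((consSet X Y A').filter fun l => |val l p - z| ≤ 2 * H).card : ℝ) ≤
      S.card * A'.card := by
    have h2 := (Finset.card_le_card hsub).trans Finset.card_image_le
    rw [Finset.card_product] at h2
    exact_mod_cast h2
  have h3 : (S.card : ℝ) ≤ 2 * T / P + 1 := by
    refine card_sep_le (f := fun x => pw x p) (u := z - T) hXp ?_ (fun x hx => ?_)
      fun x hx y hy hxy => ?_
    · have : 0 ≤ H := hXp.le.trans hH
      positivity
    · rw [hS, Finset.mem_filter] at hx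
      have := abs_le.1 hx.2
      constructor <;> linarith [this.1, this.2]
    · rw [hS, Finset.mem_filter, Finset.mem_Ico] at hx hy
      have h4 := pw_sub_ge (hp0.trans hp) (hX.trans hx.1.1) hxy
      have h5 : P ≤ (x : ℝ) ^ (p - 1) := by
        calc P ≤ (X : ℝ) ^ (p - 1) := Real.rpow_le_rpow_of_exponent_le hXr (by linarith)
          _ ≤ (x : ℝ) ^ (p - 1) :=
            Real.rpow_le_rpow hX0.le (by exact_mod_cast hx.1.1) (by linarith)
      exact h5.trans h4
  have h4 : 2 * T / P + 1 ≤ 6 * H / P := by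
    rw [div_add_one hXp.ne', div_le_div_iff_of_pos_right hXp, hT]
    linarith
  calc _ ≤ (S.card : ℝ) * A'.card := h1
    _ ≤ 6 * H / P * A'.card :=
      mul_le_mul_of_nonneg_right (h3.trans h4) (Nat.cast_nonneg _)
    _ = _ := by ring

theorem rpow_diff_le {u v p : ℝ} (hu : 0 ≤ u) (huv : u ≤ v) (hp : 1 ≤ p) :
    v ^ p ≤ u ^ p + (v - u) * (p * v ^ (p - 1)) := by
  rcases eq_or_lt_of_le (hu.trans huv) with h | h
  · have : u = 0 := by linarith
    rw [← h, this]
    simp
  · have h1 : 1 + p * (u / v - 1) ≤ (1 + (u / v - 1)) ^ p :=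
      one_add_mul_self_le_rpow_one_add (by
        have : 0 ≤ u / v := by positivity
        linarith) hp
    have h2 : u ^ p = v ^ p * (1 + (u / v - 1)) ^ p := by
      rw [← Real.mul_rpow h.le (by
        have : 0 ≤ u / v := by positivity
        linarith)]
      congr 1
      field_simp
      ring
    have h3 : v ^ p = v ^ (p - 1) * v := by
      rw [← Real.rpow_add_one h.ne']
      congr 1
      ring
    have h4 := mul_le_mul_of_nonneg_left h1 (Real.rpow_nonneg h.le p)
    rw [← h2] at h4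
    have h5 : v ^ p * (1 + p * (u / v - 1)) = v ^ p - (v - u) * (p * v ^ (p - 1)) := by
      rw [h3]
      field_simp
      ring
    linarith

theorem reg_lower {X La : ℕ} {A' : Finset (List ℕ)} {p0 p1 p R H : ℝ} (hp0 : 1 ≤ p0) (hp : p0 ≤ p)
    (hp' : p ≤ p1) (hX : 1 ≤ X) (hLa : 2 ≤ La) (hR : ∀ l ∈ A', val l p ≤ R)
    (hRX : R ≤ (X : ℝ) ^ (p0 - 1) / 2) (hH1 : p1 * ((La : ℝ) * X) ^ (p1 - 1) ≤ H)
    (hH2 : H ≤ (X : ℝ) ^ p0) {z : ℝ} (hz1 : (2 * (X : ℝ)) ^ p ≤ z)
    (hz2 : z ≤ (((La : ℝ) - 1) * X) ^ p) :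
    H * A'.card / (2 * (p1 * ((La : ℝ) * X) ^ (p1 - 1))) ≤
      (((consSet X (La * X) A').filter fun l => |val l p - z| < H).card : ℝ) := by
  have hXr : (1 : ℝ) ≤ X := by exact_mod_cast hX
  have hX0 : (0 : ℝ) < X := by linarith
  have hLar : (2 : ℝ) ≤ La := by exact_mod_cast hLa
  have hpos : 0 < p := by linarith
  have hp1' : 1 ≤ p := by linarith
  have hz0 : 0 ≤ z := le_trans (by positivity) hz1
  have hLaX : (1 : ℝ) ≤ (La : ℝ) * X := by nlinarith
  set V : ℝ := p1 * ((La : ℝ) * X) ^ (p1 - 1) with hV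
  have hV1 : (X : ℝ) ^ (p0 - 1) ≤ V := by
    have h1 : (X : ℝ) ^ (p0 - 1) ≤ (X : ℝ) ^ (p1 - 1) :=
      Real.rpow_le_rpow_of_exponent_le hXr (by linarith)
    have h2 : (X : ℝ) ^ (p1 - 1) ≤ ((La : ℝ) * X) ^ (p1 - 1) :=
      Real.rpow_le_rpow hX0.le (by nlinarith) (by linarith)
    have h3 : (0 : ℝ) ≤ ((La : ℝ) * X) ^ (p1 - 1) := by positivity
    rw [hV]
    nlinarith
  have hXk1 : (1 : ℝ) ≤ (X : ℝ) ^ (p0 - 1) := Real.one_le_rpow hXr (by linarith)
  have hVpos : 0 < V := by linarith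
  -- the largest x0 with x0 ^ p <= z
  set w : ℝ := z ^ (1 / p) with hw
  have hw0 : 0 ≤ w := Real.rpow_nonneg hz0 _
  have hwp : w ^ p = z := by
    rw [hw, ← Real.rpow_mul hz0, one_div, inv_mul_cancel₀ hpos.ne', Real.rpow_one]
  set x0 : ℕ := ⌊w⌋₊ with hx0
  have hx0w : (x0 : ℝ) ≤ w := Nat.floor_le hw0
  have hwx0 : w < (x0 : ℝ) + 1 := Nat.lt_floor_add_one w
  have hx1 : (x0 : ℝ) ^ p ≤ z := by
    rw [← hwp]
    exact Real.rpow_le_rpow (Nat.cast_nonneg _) hx0w hpos.le
  have hx2 : z < ((x0 : ℝ) + 1) ^ p := by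
    rw [← hwp]
    exact Real.rpow_lt_rpow hw0 hwx0 hpos
  have hwX : 2 * (X : ℝ) ≤ w := by
    rw [← hwp] at hz1
    exact (Real.rpow_le_rpow_iff (by positivity) hw0 hpos).1 hz1
  have hx3 : 2 * X ≤ x0 := by
    rw [hx0, Nat.le_floor_iff hw0]
    push_cast
    exact hwX
  have hx4 : (x0 : ℝ) ≤ ((La : ℝ) - 1) * X := by
    rw [← hwp] at hz2
    exact hx0w.trans ((Real.rpow_le_rpow_iff hw0 (mul_nonneg (by linarith) hX0.le) hpos).1 hz2)
  have hx5 : (x0 : ℝ) + 1 ≤ (La : ℝ) * X := by nlinarith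
  have hx5' : x0 + 1 ≤ La * X := by exact_mod_cast hx5
  set J : ℕ := ⌊H / V⌋₊ with hJ
  have hHV : 1 ≤ H / V := by
    rw [le_div_iff₀ hVpos]
    linarith
  have hJ1 : (J : ℝ) ≤ H / V := Nat.floor_le (by linarith)
  have hJ2 : H / V / 2 ≤ J := by
    have h1 : H / V < J + 1 := Nat.lt_floor_add_one _
    have h2 : (1 : ℝ) ≤ J := by
      have : 1 ≤ J := by
        rw [hJ, Nat.le_floor_iff (by linarith)]
        simpa using hHV
      exact_mod_cast this
    linarith
  have hJX : J ≤ X := by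
    have h1 : (J : ℝ) ≤ X := by
      refine hJ1.trans ?_
      rw [div_le_iff₀ hVpos]
      calc H ≤ (X : ℝ) ^ p0 := hH2
        _ = X * (X : ℝ) ^ (p0 - 1) := by
          rw [← Real.rpow_one_add' hX0.le (by linarith)]
          congr 1
          ring
        _ ≤ X * V := mul_le_mul_of_nonneg_left hV1 (by linarith)
    exact_mod_cast h1
  have hcard : J * A'.card ≤
      ((consSet X (La * X) A').filter fun l => |val l p - z| < H).card := by
    have h1 : (Finset.range J ×ˢ A').card = J * A'.card := by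
      rw [Finset.card_product, Finset.card_range]
    rw [← h1]
    refine Finset.card_le_card_of_injOn (fun q : ℕ × List ℕ => (x0 - q.1) :: q.2) ?_ ?_
    · intro q hq
      rw [Finset.mem_coe, Finset.mem_product, Finset.mem_range] at hq
      have hq1 : X ≤ x0 - q.1 := by omega
      have hq2 : x0 - q.1 < La * X := by omega
      rw [Finset.mem_coe, Finset.mem_filter]
      refine ⟨mem_consSet.2 ⟨x0 - q.1, q.2, hq1, hq2, hq.2, rfl⟩, ?_⟩
      have hcast : ((x0 - q.1 : ℕ) : ℝ) = (x0 : ℝ) - q.1 := by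
        rw [Nat.cast_sub (by omega)]
      rw [val_cons, pw_eq (by omega), hcast]
      have hq0 : (0 : ℝ) ≤ q.1 := Nat.cast_nonneg _
      have hqJ : (q.1 : ℝ) + 1 ≤ J := by exact_mod_cast hq.1
      have hxq : (0 : ℝ) ≤ (x0 : ℝ) - q.1 := by
        rw [← hcast]
        exact Nat.cast_nonneg _
      have h2 := rpow_diff_le hxq (by linarith : (x0 : ℝ) - q.1 ≤ (x0 : ℝ) + 1) hp1'
      have h3 : ((x0 : ℝ) + 1 - ((x0 : ℝ) - q.1)) * (p * ((x0 : ℝ) + 1) ^ (p - 1)) ≤
          J * V := by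
        have hx01 : (0 : ℝ) ≤ ((x0 : ℝ) + 1) := by positivity
        have h4 : ((x0 : ℝ) + 1) ^ (p - 1) ≤ ((La : ℝ) * X) ^ (p1 - 1) := by
          calc ((x0 : ℝ) + 1) ^ (p - 1) ≤ ((La : ℝ) * X) ^ (p - 1) :=
                Real.rpow_le_rpow hx01 hx5 (by linarith)
            _ ≤ ((La : ℝ) * X) ^ (p1 - 1) :=
                Real.rpow_le_rpow_of_exponent_le hLaX (by linarith)
        refine mul_le_mul (by linarith) ?_ (by positivity) (by positivity)
        rw [hV]
        exact mul_le_mul hp' h4 (by positivity) (by linarith)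
      have h4 : (J : ℝ) * V ≤ H := by
        rwa [le_div_iff₀ hVpos] at hJ1
      have h5 : ((x0 : ℝ) - q.1) ^ p ≤ (x0 : ℝ) ^ p :=
        Real.rpow_le_rpow hxq (by linarith) hpos.le
      have h6 := (hR _ hq.2).trans hRX
      have h7 := val_nonneg q.2 p
      rw [abs_lt]
      constructor
      · linarith
      · linarith
    · intro q hq q' hq' heq
      rw [Finset.mem_coe, Finset.mem_product, Finset.mem_range] at hq hq'
      simp only [List.cons.injEq] at heq
      refine Prod.ext ?_ heq.2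
      omega
  calc H * A'.card / (2 * V) = H / V / 2 * A'.card := by
        field_simp
    _ ≤ J * A'.card := mul_le_mul_of_nonneg_right hJ2 (Nat.cast_nonneg _)
    _ ≤ _ := by exact_mod_cast hcard

end Pool.Agent.EWar
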