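import Pool.Agent.EWar.Scale1

/-!
One scale: a power saving for the measure of the bad `y`, averaged over the exponent.
-/

set_option autoImplicit false

open MeasureTheory Set Filter Topology

namespace Pool.Agent.EWar

theorem core_int {p0 p1 δ c al be ga cA cB q q0 e T w sgA : ℝ} {X La : ℕ}
    {A' B : Finset (List ℕ)} (hp0 : 1 < p0) (h01 : p0 ≤ p1) (h01' : p1 ≤ p0 + 1) (hδ : 0 < δ)
    (hq : q = p0 - 1 - δ) (hq0 : 0 < q) (hh : p1 - 1 + δ ≤ p0) (hga : 0 ≤ ga)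
    (E1 : 2 * p1 - 1 + δ - al - be ≤ p0 - c) (E2 : 2 * p1 - p0 - be ≤ p0 - c)
    (E3 : 3 * p1 - p0 - 1 + 3 * δ - be - ga ≤ p0 - c) (he : 0 < e) (he2 : e < 1 / 2)
    (hLa : 2 ≤ La) (hX : 1 ≤ X) (hcA : 0 < cA) (hcB : 0 < cB)
    (hq0def : q0 = p1 * (Real.log La + Real.log X)) (hw : w = Real.log La + 4)
    (hT : T = 2 * w + 4) (hK1 : 8 * q0 + 8 ≤ (X : ℝ) ^ δ)
    (hK3 : p1 * (La : ℝ) ^ (p1 - 1) ≤ (X : ℝ) ^ δ)
    (hK4 : 4 + (8 * (q0 + 5) ^ 2 + 4 * (q0 + 5)) ≤ (X : ℝ) ^ δ)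
    (heH : e ≤ (X : ℝ) ^ (p1 - 1 + δ))
    (hA1 : ∀ l ∈ A', (∀ x ∈ l, 0 < x) ∧ val l p1 ≤ (X : ℝ) ^ q)
    (hAt : TameSet p0 p1 sgA (Real.log ((X : ℝ) ^ q) + 5) T (Real.log X) 4 A') (hsgA : 1 ≤ sgA)
    (hA3 : cA * (X : ℝ) ^ al ≤ A'.card)
    (hB1 : ∀ l ∈ B, (∀ x ∈ l, 0 < x) ∧ val l p1 ≤ (X : ℝ) ^ p0)
    (hBt : TameSet p0 p1 (cB * (X : ℝ) ^ ga) (Real.log ((X : ℝ) ^ p0) + 5) T
      (Real.log X - T / 2) 4 B) (hsgB : 1 ≤ cB * (X : ℝ) ^ ga)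
    (hB3 : cB * (X : ℝ) ^ be ≤ B.card) :
    ∃ W : ℝ → ℝ, Continuous W ∧ (∀ p, 0 ≤ W p) ∧
      ∫ p in p0..p1, W p ≤ 16 * ((La : ℝ) - 1) * ((p1 * (La : ℝ) ^ (p1 - 1)) ^ 2 *
        ((2 / e + 6 / cB) / (cA * cB) + 9 / cB + 12 / cB ^ 2)) * (X : ℝ) ^ (p0 - c) ∧
      ∀ p ∈ Icc p0 p1, (volume (badY (consSet X (La * X) A') B val val e p
        ((2 ^ p1 + 1) * (X : ℝ) ^ p) (((La : ℝ) - 1) * (X : ℝ) ^ p))).toReal ≤ W p := by
  have hXr : (1 : ℝ) ≤ X := by exact_mod_cast hX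
  have hX0 : (0 : ℝ) < X := by linarith
  have hLar : (2 : ℝ) ≤ La := by exact_mod_cast hLa
  have hp1 : 0 < p1 := by linarith
  have hlogX : 0 ≤ Real.log (X : ℝ) := Real.log_nonneg hXr
  have hlogLa : 0 ≤ Real.log (La : ℝ) := Real.log_natCast_nonneg _
  have hw0 : 0 ≤ w := by rw [hw]; linarith
  have hq00 : 0 ≤ q0 := by
    rw [hq0def]
    positivity
  obtain ⟨hAtame, hRX2, hlogA⟩ := core_tame hp0 h01 hq hδ hq0 hX hLa hq0def hK1 hA1 hAt hsgA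
  rw [← hw] at hAtame
  have hlogp0 : Real.log ((X : ℝ) ^ p0) = p0 * Real.log X := Real.log_rpow hX0 _
  have hp0q0 : Real.log ((X : ℝ) ^ p0) ≤ q0 := by
    rw [hlogp0, hq0def]
    have h1 : p0 * Real.log X ≤ p1 * Real.log X := mul_le_mul_of_nonneg_right h01 hlogX
    have h2 : 0 ≤ p1 * Real.log (La : ℝ) := by positivity
    linarith
  have hBtame : TameSet p0 p1 (cB * (X : ℝ) ^ ga) (q0 + 5) T (Real.log X - T / 2) w B := by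
    intro p hp l hl l' hl' hne
    refine (hBt p hp l hl l' hl' hne).mono le_rfl ?_ (by linarith) (by rw [hw]; linarith)
    rw [hlogp0]
    have : 0 ≤ p0 * Real.log X := by positivity
    linarith
  obtain ⟨sg, hsg⟩ : ∃ sg, sg = cB * (X : ℝ) ^ ga := ⟨_, rfl⟩
  rw [← hsg] at hBtame hsgB
  have hsg0 : 0 < sg := by linarith
  obtain ⟨C2, hC2⟩ : ∃ C2, C2 = 8 * (q0 + 5) ^ 2 + 4 * (q0 + 5) := ⟨_, rfl⟩
  have hC20 : 0 ≤ C2 := by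
    rw [hC2]
    positivity
  rw [← hC2] at hK4
  have hPH : (X : ℝ) ^ (p0 - 1) ≤ (X : ℝ) ^ (p1 - 1 + δ) :=
    Real.rpow_le_rpow_of_exponent_le hXr (by linarith)
  have hHX : (X : ℝ) ^ (p1 - 1 + δ) ≤ (X : ℝ) ^ p0 := Real.rpow_le_rpow_of_exponent_le hXr hh
  obtain ⟨H, hH⟩ : ∃ H, H = (X : ℝ) ^ (p1 - 1 + δ) := ⟨_, rfl⟩
  obtain ⟨Q, hQ⟩ : ∃ Q, Q = p1 * (La : ℝ) ^ (p1 - 1) := ⟨_, rfl⟩
  obtain ⟨V, hV⟩ : ∃ V, V = p1 * ((La : ℝ) * X) ^ (p1 - 1) := ⟨_, rfl⟩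
  have hQ0 : 0 < Q := by rw [hQ]; positivity
  have hVQ : V = Q * (X : ℝ) ^ (p1 - 1) := by
    rw [hV, hQ, Real.mul_rpow (by positivity) hX0.le]
    ring
  have hV0 : 0 < V := by
    rw [hVQ]
    positivity
  have hVH : V ≤ H := by
    rw [hVQ, hH, Real.rpow_add hX0, mul_comm, hQ]
    exact mul_le_mul_of_nonneg_left hK3 (by positivity)
  have hH0 : 0 < H := hV0.trans_le hVH
  rw [← hH] at heH hPH hHX
  have hosc := core_osc (H := H) h01 he heH hq00 hw0 hT hsg0 hAtame hBtame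
  rw [← hC2] at hosc
  have hcount := core_count (B := B) (H := H) (V := V) hp0 hX hLa hRX2 (fun l hl => (hA1 l hl).2)
    (fun l hl => (hB1 l hl).2) hV hVH hHX
  obtain ⟨hLle, hL0⟩ := core_L (sg := sg) hXr hsgB (by linarith) hp0q0 hK1
  obtain ⟨L, hL⟩ : ∃ L, L = 2 / sg * (1 + Real.log ⌊(X : ℝ) ^ p0 / sg⌋₊) := ⟨_, rfl⟩
  rw [← hL] at hLle hL0
  have hLsum : ∀ p ∈ Icc p0 p1, ∀ b ∈ B, ∑ b' ∈ B.erase b, 1 / |val b p - val b' p| ≤ L := by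
    intro p hp b hb
    rw [hL]
    exact sum_recip (v := fun b => val b p) hsg0
      (fun b hb => ⟨val_nonneg b p, (val_mono b hp.2).trans (hB1 b hb).2⟩)
      (fun b hb b' hb' hne => (hBtame p hp b hb b' hb' hne).sep) hb
  have hKup : ∀ p ∈ Icc p0 p1, ∀ z : ℝ,
      (((consSet X (La * X) A').filter fun a => |val a p - z| ≤ 2 * H).card : ℝ) ≤
      6 * H * A'.card / (X : ℝ) ^ (p0 - 1) := fun p hp z =>
    reg_upper hp0.le hp.1 hX (fun l hl => (val_mono l hp.2).trans (hA1 l hl).2) hRX2 hPH z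
  have hP0 : 0 < (X : ℝ) ^ (p0 - 1) := Real.rpow_pos_of_pos hX0 _
  have hXal : 0 < (X : ℝ) ^ al := Real.rpow_pos_of_pos hX0 _
  have hXbe : 0 < (X : ℝ) ^ be := Real.rpow_pos_of_pos hX0 _
  have ha0 : (0 : ℝ) < A'.card := lt_of_lt_of_le (by positivity) hA3
  have hb0 : (0 : ℝ) < B.card := lt_of_lt_of_le (by positivity) hB3
  obtain ⟨ka, hka⟩ : ∃ ka, ka = H * A'.card / (2 * V) := ⟨_, rfl⟩
  have hka0 : 0 < ka := by rw [hka]; positivity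
  have hden : 0 < (B.card * ka / (2 * H)) ^ 2 := by positivity
  rw [← hka] at hcount
  refine ⟨fun p => WW (consSet X (La * X) A') B val val e H p / (B.card * ka / (2 * H)) ^ 2,
    (continuous_WW he heH _ B continuous_val continuous_val).div_const _,
    fun p => div_nonneg (WW_nonneg he heH _ B val val p) hden.le, ?_, ?_⟩
  · rw [intervalIntegral.integral_div]
    have hV' := integral_WW_le (A := consSet X (La * X) A') (B := B) (f := val) (g := val)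
      (C := C2) continuous_val continuous_val he heH h01
      (K := 6 * H * A'.card / (X : ℝ) ^ (p0 - 1)) (by positivity) hC20 hKup hLsum
      (fun x hx a ha a' ha' haa => by
        have := (hAtame x hx a ha a' ha' haa).sep
        linarith)
      (fun x hx b hb b' hb' hbb => by
        have := (hBtame x hx b hb b' hb' hbb).sep
        linarith) hosc
    rw [reg_card hLa] at hV'
    refine (div_le_div_of_nonneg_right hV' hden.le).trans ?_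
    rw [hka, scale_alg (a := (A'.card : ℝ)) (b := (B.card : ℝ)) (V := V)
      (P := (X : ℝ) ^ (p0 - 1)) (X := (X : ℝ))
      (H := H) (L := L) (e := e) (w := p1 - p0) (La1 := (La : ℝ) - 1) (C := C2) ha0 hb0 hV0 hP0
      hH0]
    have hterms := scale_terms (Q := Q) (c := c) hXr h01 h01' hδ hcA hcB hQ0 he hga E1 E2 E3 hA3 hB3
      hL0 (by rw [← hsg]; exact hLle) hC20 hK4
    rw [← hVQ, ← hH] at hterms
    rw [← hQ]
    have h16 : 0 ≤ 16 * ((La : ℝ) - 1) := by linarith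
    refine (mul_le_mul_of_nonneg_left hterms h16).trans (le_of_eq ?_)
    ring
  · intro p hp
    rw [le_div_iff₀ hden, mul_comm]
    exact cheb he heH hka0.le (hcount p hp)

theorem scale {p0 p1 δ c : ℝ} {m n : ℕ} (hp0 : 1 < p0) (h01 : p0 ≤ p1) (h01' : p1 ≤ p0 + 1)
    (hδ : 0 < δ) (hδ' : δ < p0 - 1) (hh : p1 - 1 + δ ≤ p0)
    (E1 : 2 * p1 - 1 + δ - (p0 - 1 - δ) * fE p1 ((p0 - 1 - δ) / p1) m -
      p0 * fE p1 ((p0 - 1 - δ) / p1) n ≤ p0 - c)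
    (E2 : 2 * p1 - p0 - p0 * fE p1 ((p0 - 1 - δ) / p1) n ≤ p0 - c)
    (E3 : 3 * p1 - p0 - 1 + 3 * δ - p0 * fE p1 ((p0 - 1 - δ) / p1) n -
      p0 * ((p0 - 1 - δ) / p1) ^ n ≤ p0 - c)
    {e : ℝ} (he : 0 < e) (he2 : e < 1 / 2) (La : ℕ) (hLa : 2 ≤ La) :
    ∃ C X0 : ℝ, 0 ≤ C ∧ 1 ≤ X0 ∧ ∀ X : ℕ, X0 ≤ X → ∃ (A B : Finset (List ℕ)) (W : ℝ → ℝ),
      (∀ l ∈ A, l.length = m + 1 ∧ (∀ x ∈ l, 0 < x)) ∧
      (∀ l ∈ B, l.length = n ∧ (∀ x ∈ l, 0 < x)) ∧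
      (∀ l ∈ A, ∀ p ≤ p1, v1 l p ≤ (X : ℝ) ^ (p1 + δ)) ∧
      (∀ l ∈ B, ∀ p ≤ p1, v1 l p ≤ (X : ℝ) ^ (p1 + δ)) ∧
      Continuous W ∧ (∀ p, 0 ≤ W p) ∧ ∫ p in p0..p1, W p ≤ C * (X : ℝ) ^ (p0 - c) ∧
      ∀ p ∈ Icc p0 p1, (volume (badY A B val val e p ((2 ^ p1 + 1) * (X : ℝ) ^ p)
        (((La : ℝ) - 1) * (X : ℝ) ^ p))).toReal ≤ W p := by
  obtain ⟨q, hq⟩ : ∃ q, q = p0 - 1 - δ := ⟨_, rfl⟩
  obtain ⟨r, hr⟩ : ∃ r, r = q / p1 := ⟨_, rfl⟩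
  have hLar : (2 : ℝ) ≤ La := by exact_mod_cast hLa
  have hlogLa : 0 ≤ Real.log (La : ℝ) := Real.log_natCast_nonneg _
  have hp1 : 0 < p1 := by linarith
  have hq0 : 0 < q := by linarith
  have hr0 : 0 < r := by rw [hr]; exact div_pos hq0 hp1
  obtain ⟨w, hw⟩ : ∃ w, w = Real.log (La : ℝ) + 4 := ⟨_, rfl⟩
  obtain ⟨T, hT⟩ : ∃ T, T = 2 * w + 4 := ⟨_, rfl⟩
  have hT0 : 0 < T := by linarith
  obtain ⟨cA, MA, hcA, hcA', hMA, hblockA⟩ := block hp0 h01 hδ hδ' hT0 m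
  obtain ⟨cB, MB, hcB, hcB', hMB, hblockB⟩ := block hp0 h01 hδ hδ' hT0 n
  rw [← hq, ← hr] at E1 E2 E3 hblockA hblockB
  obtain ⟨Q, hQ⟩ : ∃ Q, Q = p1 * (La : ℝ) ^ (p1 - 1) := ⟨_, rfl⟩
  have hQ0 : 0 < Q := by rw [hQ]; positivity
  obtain ⟨Kl, hKl⟩ : ∃ Kl, Kl = p1 * (1 + Real.log (La : ℝ)) := ⟨_, rfl⟩
  obtain ⟨Kt, hKt⟩ : ∃ Kt, Kt = 8 * Kl + 8 + 2 * (La : ℝ) ^ p1 * Kl + Q + 4 + 8 * (Kl + 5) ^ 2 +
    4 * (Kl + 5) := ⟨_, rfl⟩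
  have hKl0 : 0 < Kl := by rw [hKl]; positivity
  have hLap : (0 : ℝ) ≤ (La : ℝ) ^ p1 := by positivity
  have hKt0 : 0 ≤ Kt := by rw [hKt]; positivity
  have hev : ∀ᶠ X : ℝ in atTop, 1 ≤ X ∧ MA ≤ X ^ q ∧ MB ≤ X ^ p0 ∧ 1 ≤ cA * (X ^ q) ^ (r ^ m) ∧
      1 ≤ cB * X ^ (p0 * r ^ n) ∧ Kt * (1 + Real.log X) ^ 2 ≤ X ^ δ ∧ e ≤ X ^ (p1 - 1 + δ) := by
    have t1 : Tendsto (fun X : ℝ => X ^ q) atTop atTop := tendsto_rpow_atTop hq0
    have t2 : Tendsto (fun X : ℝ => X ^ p0) atTop atTop := tendsto_rpow_atTop (by linarith)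
    have t3 : Tendsto (fun X : ℝ => cA * (X ^ q) ^ (r ^ m)) atTop atTop :=
      ((tendsto_rpow_atTop (by positivity)).comp t1).const_mul_atTop hcA
    have t4 : Tendsto (fun X : ℝ => cB * X ^ (p0 * r ^ n)) atTop atTop :=
      (tendsto_rpow_atTop (by positivity)).const_mul_atTop hcB
    have t5 : Tendsto (fun X : ℝ => X ^ (p1 - 1 + δ)) atTop atTop :=
      tendsto_rpow_atTop (by linarith)
    filter_upwards [eventually_ge_atTop 1, t1.eventually_ge_atTop MA, t2.eventually_ge_atTop MB,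
      t3.eventually_ge_atTop 1, t4.eventually_ge_atTop 1, ev_log hKt0 hδ,
      t5.eventually_ge_atTop e] with X a1 a2 a3 a4 a5 a6 a7
    exact ⟨a1, a2, a3, a4, a5, a6, a7⟩
  obtain ⟨N0, hN0⟩ := eventually_atTop.1 hev
  refine ⟨16 * ((La : ℝ) - 1) * (Q ^ 2 *
    ((2 / e + 6 / cB) / (cA * cB) + 9 / cB + 12 / cB ^ 2)), max 1 N0, ?_, le_max_left _ _,
    fun X hX => ?_⟩
  · have h1 : 0 ≤ (La : ℝ) - 1 := by linarith
    positivity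
  obtain ⟨hXr, hXA, hXB, hXsA, hXsB, hXl, heH⟩ := hN0 X ((le_max_right _ _).trans hX)
  have hX0 : (0 : ℝ) < X := by linarith
  have hXn : 1 ≤ X := by exact_mod_cast hXr
  have hlogX : 0 ≤ Real.log (X : ℝ) := Real.log_nonneg hXr
  obtain ⟨q0, hq0def⟩ : ∃ q0, q0 = p1 * (Real.log (La : ℝ) + Real.log X) := ⟨_, rfl⟩
  have hq00 : 0 ≤ q0 := by
    rw [hq0def]
    positivity
  obtain ⟨hK1, hK2, hK3, hK4⟩ := scale_logs (by linarith) hlogLa hlogX hQ0.le hLap hKl hKt hq0def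
    hXl
  obtain ⟨A', hA1, hA2, hA3⟩ := hblockA ((X : ℝ) ^ q) hXA (Real.log X)
  obtain ⟨B, hB1, hB2, hB3⟩ := hblockB ((X : ℝ) ^ p0) hXB (Real.log X - T / 2)
  rw [← Real.rpow_mul hX0.le] at hB2 hB3 hA3
  have hlogp0 : Real.log ((X : ℝ) ^ p0) = p0 * Real.log X := Real.log_rpow hX0 _
  obtain ⟨W, hW1, hW2, hW3, hW4⟩ := core_int (w := w) hp0 h01 h01' hδ hq hq0 hh
    (by positivity) E1 E2 E3 he he2 hLa hXn hcA hcB hq0def hw hT hK1 (by rw [← hQ]; exact hK3) hK4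
    heH (fun l hl => (hA1 l hl).2) hA2 hXsA hA3 (fun l hl => (hB1 l hl).2) hB2 hXsB hB3
  have hlogA := (core_tame hp0 h01 hq hδ hq0 hXn hLa hq0def hK1 (fun l hl => (hA1 l hl).2) hA2
    hXsA).2.2
  refine ⟨consSet X (La * X) A', B, W, ?_, fun l hl => ⟨(hB1 l hl).1, (hB1 l hl).2.1⟩, ?_, ?_,
    hW1, hW2, ?_, hW4⟩
  · intro l hl
    obtain ⟨x, m', hx1, hx2, hm, rfl⟩ := mem_consSet.1 hl
    obtain ⟨b1, b2, -⟩ := hA1 m' hm
    refine ⟨by simp [b1], fun y hy => ?_⟩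
    rcases List.mem_cons.1 hy with h5 | h5
    · omega
    · exact b2 y h5
  · exact core_v1A hp1 (by linarith) hXn hLa hq00 hK2 (fun l hl => (hA1 l hl).2.2) hlogA
  · intro l hl p hp
    obtain ⟨b1, b2, b3⟩ := hB1 l hl
    have hp0q0 : Real.log ((X : ℝ) ^ p0) ≤ q0 := by
      rw [hlogp0, hq0def]
      have h1 : p0 * Real.log X ≤ p1 * Real.log X := mul_le_mul_of_nonneg_right h01 hlogX
      have h2 : 0 ≤ p1 * Real.log (La : ℝ) := by positivity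
      linarith
    have h1 : ∀ x ∈ l, Real.log (x : ℝ) ≤ q0 := fun x hx =>
      (log_le_of_val (by linarith) b2 b3 x hx).trans hp0q0
    calc v1 l p ≤ q0 * val l p := v1_le h1 p
      _ ≤ q0 * (X : ℝ) ^ p0 :=
        mul_le_mul_of_nonneg_left ((val_mono l hp).trans b3) hq00
      _ ≤ (X : ℝ) ^ δ * (X : ℝ) ^ p1 :=
        mul_le_mul (by linarith) (Real.rpow_le_rpow_of_exponent_le hXr h01) (by positivity)
          (by positivity)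
      _ = (X : ℝ) ^ (p1 + δ) := by rw [← Real.rpow_add hX0, add_comm]
  · rw [← hQ] at hW3
    exact hW3

end Pool.Agent.EWar
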