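import Pool.Agent.EWar.Block
import Pool.Agent.EWar.Reg
import Pool.Agent.EWar.Cheb

/-!
Preparations for the estimate at one scale.
-/

set_option autoImplicit false

open MeasureTheory Set Filter Topology

namespace Pool.Agent.EWar

theorem ev_log {K δ : ℝ} (hK : 0 ≤ K) (hδ : 0 < δ) :
    ∀ᶠ X : ℝ in atTop, K * (1 + Real.log X) ^ 2 ≤ X ^ δ := by
  set ε : ℝ := 1 / (2 * (K + 1)) with hε
  have hε0 : 0 < ε := by positivity
  have hd : 0 < δ / 2 := by linarith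
  have i1 := (isLittleO_log_rpow_atTop hd).bound (c := ε) hε0
  have i2 : Tendsto (fun M : ℝ => M ^ (δ / 2)) atTop atTop := tendsto_rpow_atTop hd
  filter_upwards [i1, i2.eventually_ge_atTop (1 / ε), eventually_ge_atTop 1] with X j1 j2 j3
  have hX0 : 0 < X := by linarith
  have hlog : 0 ≤ Real.log X := Real.log_nonneg j3
  have hpow : 0 < X ^ (δ / 2) := Real.rpow_pos_of_pos hX0 _
  rw [Real.norm_eq_abs, Real.norm_eq_abs, abs_of_nonneg hlog, abs_of_pos hpow] at j1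
  rw [div_le_iff₀ hε0] at j2
  have h1 : 1 + Real.log X ≤ 2 * ε * X ^ (δ / 2) := by linarith
  have h2 : (1 + Real.log X) ^ 2 ≤ (2 * ε * X ^ (δ / 2)) ^ 2 :=
    pow_le_pow_left₀ (by linarith) h1 2
  have h3 : (X ^ (δ / 2)) ^ 2 = X ^ δ := by
    rw [← Real.rpow_natCast, ← Real.rpow_mul hX0.le]
    congr 1
    push_cast
    ring
  have h4 : K * (2 * ε) ^ 2 ≤ 1 := by
    have h5 : 2 * ε = 1 / (K + 1) := by
      rw [hε]
      field_simp
    rw [h5, one_div, inv_pow, ← div_eq_mul_inv, div_le_one (by positivity)]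
    nlinarith
  calc K * (1 + Real.log X) ^ 2 ≤ K * (2 * ε * X ^ (δ / 2)) ^ 2 :=
        mul_le_mul_of_nonneg_left h2 hK
    _ = K * (2 * ε) ^ 2 * X ^ δ := by rw [mul_pow, h3]; ring
    _ ≤ 1 * X ^ δ := mul_le_mul_of_nonneg_right h4 (Real.rpow_nonneg hX0.le _)
    _ = X ^ δ := one_mul _

/-- windows of the two families are apart -/
theorem window_sep {T φ w a b : ℝ} (hT : 2 * w + 4 ≤ T)
    (ha : ∃ n : ℤ, T * n + φ - 1 ≤ a ∧ a ≤ T * n + φ + w)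
    (hb : ∃ n : ℤ, T * n + (φ - T / 2) - 1 ≤ b ∧ b ≤ T * n + (φ - T / 2) + w) (hw : 0 ≤ w) :
    1 ≤ |b - a| := by
  obtain ⟨n, h1, h2⟩ := ha
  obtain ⟨n', h3, h4⟩ := hb
  rcases le_or_gt n' n with h | h
  · have h5 : (n' : ℝ) ≤ n := by exact_mod_cast h
    have h6 : T * n' ≤ T * n := mul_le_mul_of_nonneg_left h5 (by linarith)
    rw [abs_sub_comm]
    refine le_trans ?_ (le_abs_self _)
    linarith
  · have h5 : (n : ℝ) + 1 ≤ n' := by exact_mod_cast h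
    have h6 : T * ((n : ℝ) + 1) ≤ T * n' := mul_le_mul_of_nonneg_left h5 (by linarith)
    refine le_trans ?_ (le_abs_self _)
    linarith

/-- algebra of the main estimate -/
theorem scale_alg {a b V P X H L e w La1 C : ℝ} (ha : 0 < a) (hb : 0 < b) (hV : 0 < V) (hP : 0 < P)
    (hH : 0 < H) :
    La1 * X * a * b * (w * (2 / e + 3 * (6 * H * a / P) / (2 * H) + 3 * L) +
      4 * (6 * H * a / P) * L + w * C * (6 * H * a / P) * L) /
      (b * (H * a / (2 * V)) / (2 * H)) ^ 2 =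
    16 * La1 * (w * (2 / e + 3 * L) * (V ^ 2 * X / (a * b)) + 9 * w * (V ^ 2 * X / (P * b)) +
      6 * (4 + w * C) * L * (V ^ 2 * X * H / (P * b))) := by
  field_simp
  ring

theorem reg_card {X La : ℕ} (hLa : 2 ≤ La) (A' : Finset (List ℕ)) :
    ((consSet X (La * X) A').card : ℝ) = ((La : ℝ) - 1) * X * A'.card := by
  rw [card_consSet]
  have h : X ≤ La * X := by nlinarith
  push_cast
  rw [Nat.cast_sub h]
  push_cast
  ring

/-- the logarithmic quantities are small powers -/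
theorem scale_logs {p1 La X δ Kl Kt Q lL lX q0 : ℝ} (hp1 : 1 ≤ p1) (hlL : 0 ≤ lL) (hlX : 0 ≤ lX)
    (hQ : 0 ≤ Q) (hLa : 0 ≤ La) (hKl : Kl = p1 * (1 + lL))
    (hKt : Kt = 8 * Kl + 8 + 2 * La * Kl + Q + 4 + 8 * (Kl + 5) ^ 2 + 4 * (Kl + 5))
    (hq0 : q0 = p1 * (lL + lX)) (hX : Kt * (1 + lX) ^ 2 ≤ X ^ δ) :
    8 * q0 + 8 ≤ X ^ δ ∧ 2 * La * q0 ≤ X ^ δ ∧ Q ≤ X ^ δ ∧
      4 + (8 * (q0 + 5) ^ 2 + 4 * (q0 + 5)) ≤ X ^ δ := by
  have hKl0 : 0 ≤ Kl := by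
    rw [hKl]
    positivity
  have hq00 : 0 ≤ q0 := by
    rw [hq0]
    positivity
  have hq0K : q0 ≤ Kl * (1 + lX) := by
    rw [hq0, hKl]
    have h1 : 0 ≤ p1 * lL * lX := by positivity
    nlinarith
  have husq : 1 + lX ≤ (1 + lX) ^ 2 := by nlinarith
  obtain ⟨U, hU⟩ : ∃ U : ℝ, U = (1 + lX) ^ 2 := ⟨_, rfl⟩
  rw [← hU] at husq hX
  have hU1 : 1 ≤ U := by linarith
  have hq0U : q0 ≤ Kl * U := hq0K.trans (mul_le_mul_of_nonneg_left husq hKl0)
  have hLg5 : q0 + 5 ≤ (Kl + 5) * (1 + lX) := by nlinarith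
  have hLg52 : (q0 + 5) ^ 2 ≤ (Kl + 5) ^ 2 * U := by
    have := pow_le_pow_left₀ (by linarith) hLg5 2
    rw [mul_pow, ← hU] at this
    exact this
  have h5U : q0 + 5 ≤ (Kl + 5) * U :=
    hLg5.trans (mul_le_mul_of_nonneg_left husq (by positivity))
  have hLK : 0 ≤ La * Kl := mul_nonneg hLa hKl0
  have hU0 : 0 ≤ U := by linarith
  have g1 : 0 ≤ (8 * Kl + 8) * U := by positivity
  have g2 : 0 ≤ 2 * (La * Kl) * U := by positivity
  have g3 : 0 ≤ Q * U := by positivity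
  have g4 : 0 ≤ (4 + 8 * (Kl + 5) ^ 2 + 4 * (Kl + 5)) * U := by positivity
  have hexp : Kt * U = (8 * Kl + 8) * U + 2 * (La * Kl) * U + Q * U +
      (4 + 8 * (Kl + 5) ^ 2 + 4 * (Kl + 5)) * U := by
    rw [hKt]
    ring
  rw [hexp] at hX
  refine ⟨?_, ?_, ?_, ?_⟩
  · refine le_trans ?_ hX
    linarith
  · refine le_trans ?_ hX
    have h1 : 2 * La * q0 ≤ 2 * (La * Kl) * U := by
      calc 2 * La * q0 ≤ 2 * La * (Kl * U) := mul_le_mul_of_nonneg_left hq0U (by positivity)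
        _ = 2 * (La * Kl) * U := by ring
    linarith
  · refine le_trans ?_ hX
    have h1 : Q * 1 ≤ Q * U := mul_le_mul_of_nonneg_left hU1 hQ
    linarith
  · refine le_trans ?_ hX
    linarith

/-- the three terms of the second moment at scale `X` -/
theorem scale_terms {X p0 p1 δ c al be ga cA cB Q e a b L C2 : ℝ} (hXr : 1 ≤ X) (h01 : p0 ≤ p1)
    (h01' : p1 ≤ p0 + 1) (hδ : 0 < δ) (hcA : 0 < cA) (hcB : 0 < cB) (hQ : 0 < Q) (he : 0 < e)
    (hga : 0 ≤ ga)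
    (E1 : 2 * p1 - 1 + δ - al - be ≤ p0 - c) (E2 : 2 * p1 - p0 - be ≤ p0 - c)
    (E3 : 3 * p1 - p0 - 1 + 3 * δ - be - ga ≤ p0 - c) (ha : cA * X ^ al ≤ a) (hb : cB * X ^ be ≤ b)
    (hL0 : 0 ≤ L) (hL : L ≤ 2 / (cB * X ^ ga) * X ^ δ) (hC20 : 0 ≤ C2) (hC2 : 4 + C2 ≤ X ^ δ) :
    (p1 - p0) * (2 / e + 3 * L) * ((Q * X ^ (p1 - 1)) ^ 2 * X / (a * b)) +
      9 * (p1 - p0) * ((Q * X ^ (p1 - 1)) ^ 2 * X / (X ^ (p0 - 1) * b)) +
      6 * (4 + (p1 - p0) * C2) * L * ((Q * X ^ (p1 - 1)) ^ 2 * X * X ^ (p1 - 1 + δ) /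
        (X ^ (p0 - 1) * b)) ≤
      Q ^ 2 * ((2 / e + 6 / cB) / (cA * cB) + 9 / cB + 12 / cB ^ 2) * X ^ (p0 - c) := by
  have hX0 : 0 < X := by linarith
  have hXal : 0 < X ^ al := Real.rpow_pos_of_pos hX0 _
  have hXbe : 0 < X ^ be := Real.rpow_pos_of_pos hX0 _
  have hXga : 0 < X ^ ga := Real.rpow_pos_of_pos hX0 _
  have hXd : 0 < X ^ δ := Real.rpow_pos_of_pos hX0 _
  have ha0 : 0 < a := lt_of_lt_of_le (by positivity) ha
  have hb0 : 0 < b := lt_of_lt_of_le (by positivity) hb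
  have hw1 : p1 - p0 ≤ 1 := by linarith
  have hw0 : 0 ≤ p1 - p0 := by linarith
  have hXc : 0 < X ^ (p0 - c) := Real.rpow_pos_of_pos hX0 _
  obtain ⟨P, hP⟩ : ∃ P, P = X ^ (p0 - 1) := ⟨_, rfl⟩
  have hP0 : 0 < P := by rw [hP]; positivity
  obtain ⟨H, hH⟩ : ∃ H, H = X ^ (p1 - 1 + δ) := ⟨_, rfl⟩
  have hH0 : 0 < H := by rw [hH]; positivity
  have hV2X : (Q * X ^ (p1 - 1)) ^ 2 * X = Q ^ 2 * X ^ (2 * p1 - 1) := by
    have h1 : X ^ (2 * p1 - 1) = (X ^ (p1 - 1)) ^ 2 * X := by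
      rw [← Real.rpow_natCast, ← Real.rpow_mul hX0.le, ← Real.rpow_add_one hX0.ne']
      congr 1
      push_cast
      ring
    rw [h1]
    ring
  rw [hV2X, ← hP, ← hH]
  have hXv : 0 < X ^ (2 * p1 - 1) := Real.rpow_pos_of_pos hX0 _
  have hsgX : 2 / (cB * X ^ ga) ≤ 2 / cB := by
    refine div_le_div_of_nonneg_left (by norm_num) hcB ?_
    have : 1 ≤ X ^ ga := Real.one_le_rpow hXr hga
    nlinarith
  have hX1d : 1 ≤ X ^ δ := Real.one_le_rpow hXr hδ.le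
  have hT1 : (2 / e + 3 * L) * (Q ^ 2 * X ^ (2 * p1 - 1) / (a * b)) ≤
      Q ^ 2 * ((2 / e + 6 / cB) / (cA * cB)) * X ^ (p0 - c) := by
    have h1 : 2 / e + 3 * L ≤ (2 / e + 6 / cB) * X ^ δ := by
      have h2 : 2 / e * 1 ≤ 2 / e * X ^ δ :=
        mul_le_mul_of_nonneg_left hX1d (by positivity)
      have h3 : L ≤ 2 / cB * X ^ δ :=
        hL.trans (mul_le_mul_of_nonneg_right hsgX hXd.le)
      have h4 : 6 / cB = 3 * (2 / cB) := by ring
      rw [h4]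
      linarith
    have h5 : Q ^ 2 * X ^ (2 * p1 - 1) / (a * b) ≤ Q ^ 2 * X ^ (2 * p1 - 1) /
        ((cA * X ^ al) * (cB * X ^ be)) :=
      div_le_div_of_nonneg_left (by positivity) (by positivity)
        (mul_le_mul ha hb (by positivity) ha0.le)
    calc (2 / e + 3 * L) * (Q ^ 2 * X ^ (2 * p1 - 1) / (a * b))
        ≤ ((2 / e + 6 / cB) * X ^ δ) * (Q ^ 2 * X ^ (2 * p1 - 1) /
        ((cA * X ^ al) * (cB * X ^ be))) :=
          mul_le_mul h1 h5 (by positivity) (by positivity)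
      _ = Q ^ 2 * ((2 / e + 6 / cB) / (cA * cB)) * (X ^ (2 * p1 - 1) * X ^ δ /
        (X ^ al * X ^ be)) := by
          field_simp
      _ = Q ^ 2 * ((2 / e + 6 / cB) / (cA * cB)) * X ^ (2 * p1 - 1 + δ - al - be) := by
          congr 1
          rw [← Real.rpow_add hX0, ← Real.rpow_add hX0, ← Real.rpow_sub hX0]
          congr 1
          ring
      _ ≤ Q ^ 2 * ((2 / e + 6 / cB) / (cA * cB)) * X ^ (p0 - c) := by
          refine mul_le_mul_of_nonneg_left ?_ (by positivity)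
          exact Real.rpow_le_rpow_of_exponent_le hXr E1
  have hT2 : Q ^ 2 * X ^ (2 * p1 - 1) / (P * b) ≤ Q ^ 2 * (1 / cB) * X ^ (p0 - c) := by
    have h5 : Q ^ 2 * X ^ (2 * p1 - 1) / (P * b) ≤ Q ^ 2 * X ^ (2 * p1 - 1) /
        (P * (cB * X ^ be)) :=
      div_le_div_of_nonneg_left (by positivity) (by positivity)
        (mul_le_mul_of_nonneg_left hb hP0.le)
    refine h5.trans ?_
    calc Q ^ 2 * X ^ (2 * p1 - 1) / (P * (cB * X ^ be))
        = Q ^ 2 * (1 / cB) * (X ^ (2 * p1 - 1) / (P * X ^ be)) := by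
          field_simp
      _ = Q ^ 2 * (1 / cB) * X ^ (2 * p1 - p0 - be) := by
          congr 1
          rw [hP, ← Real.rpow_add hX0, ← Real.rpow_sub hX0]
          congr 1
          ring
      _ ≤ Q ^ 2 * (1 / cB) * X ^ (p0 - c) := by
          refine mul_le_mul_of_nonneg_left ?_ (by positivity)
          exact Real.rpow_le_rpow_of_exponent_le hXr E2
  have hT3 : (4 + C2) * L * (Q ^ 2 * X ^ (2 * p1 - 1) * H / (P * b)) ≤
      Q ^ 2 * (2 / cB ^ 2) * X ^ (p0 - c) := by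
    have h5 : Q ^ 2 * X ^ (2 * p1 - 1) * H / (P * b) ≤ Q ^ 2 * X ^ (2 * p1 - 1) * H /
        (P * (cB * X ^ be)) :=
      div_le_div_of_nonneg_left (by positivity) (by positivity)
        (mul_le_mul_of_nonneg_left hb hP0.le)
    have h6 : (4 + C2) * L ≤ X ^ δ * (2 / (cB * X ^ ga) * X ^ δ) :=
      mul_le_mul hC2 hL hL0 hXd.le
    calc (4 + C2) * L * (Q ^ 2 * X ^ (2 * p1 - 1) * H / (P * b))
        ≤ (X ^ δ * (2 / (cB * X ^ ga) * X ^ δ)) * (Q ^ 2 * X ^ (2 * p1 - 1) * H /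
        (P * (cB * X ^ be))) :=
          mul_le_mul h6 h5 (by positivity) (by positivity)
      _ = Q ^ 2 * (2 / cB ^ 2) * (X ^ δ * X ^ δ * X ^ (2 * p1 - 1) * H /
        (P * X ^ be * X ^ ga)) := by
          field_simp
      _ = Q ^ 2 * (2 / cB ^ 2) * X ^ (3 * p1 - p0 - 1 + 3 * δ - be - ga) := by
          congr 1
          rw [hP, hH, ← Real.rpow_add hX0, ← Real.rpow_add hX0, ← Real.rpow_add hX0,
            ← Real.rpow_add hX0, ← Real.rpow_add hX0, ← Real.rpow_sub hX0]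
          congr 1
          ring
      _ ≤ Q ^ 2 * (2 / cB ^ 2) * X ^ (p0 - c) := by
          refine mul_le_mul_of_nonneg_left ?_ (by positivity)
          exact Real.rpow_le_rpow_of_exponent_le hXr E3
  have hs1 : (p1 - p0) * (2 / e + 3 * L) * (Q ^ 2 * X ^ (2 * p1 - 1) / (a * b)) ≤
      Q ^ 2 * ((2 / e + 6 / cB) / (cA * cB)) * X ^ (p0 - c) := by
    refine le_trans ?_ hT1
    have h1 : 0 ≤ (2 / e + 3 * L) * (Q ^ 2 * X ^ (2 * p1 - 1) / (a * b)) := by positivity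
    have h2 := mul_le_mul_of_nonneg_right hw1 h1
    linarith
  have hs2 : 9 * (p1 - p0) * (Q ^ 2 * X ^ (2 * p1 - 1) / (P * b)) ≤
      9 * (Q ^ 2 * (1 / cB) * X ^ (p0 - c)) := by
    have h1 : 0 ≤ Q ^ 2 * X ^ (2 * p1 - 1) / (P * b) := by positivity
    have h2 := mul_le_mul_of_nonneg_right hw1 h1
    linarith
  have hs3 : 6 * (4 + (p1 - p0) * C2) * L * (Q ^ 2 * X ^ (2 * p1 - 1) * H / (P * b)) ≤
      6 * (Q ^ 2 * (2 / cB ^ 2) * X ^ (p0 - c)) := by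
    have h1 : 0 ≤ L * (Q ^ 2 * X ^ (2 * p1 - 1) * H / (P * b)) := by positivity
    have h2 : 4 + (p1 - p0) * C2 ≤ 4 + C2 := by
      have := mul_le_mul_of_nonneg_right hw1 hC20
      linarith
    have h3 := mul_le_mul_of_nonneg_right h2 h1
    linarith
  calc _ ≤ Q ^ 2 * ((2 / e + 6 / cB) / (cA * cB)) * X ^ (p0 - c) +
        9 * (Q ^ 2 * (1 / cB) * X ^ (p0 - c)) +
        6 * (Q ^ 2 * (2 / cB ^ 2) * X ^ (p0 - c)) :=
        add_le_add (add_le_add hs1 hs2) hs3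
    _ = _ := by ring

end Pool.Agent.EWar
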