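import Pool.Agent.EWar.Scale0

/-!
The pieces of the estimate at one scale.
-/

set_option autoImplicit false

open MeasureTheory Set Filter Topology

namespace Pool.Agent.EWar

theorem core_tame {p0 p1 δ T sgA q q0 : ℝ} {X La : ℕ} {A' : Finset (List ℕ)} (hp0 : 1 < p0)
    (h01 : p0 ≤ p1) (hq : q = p0 - 1 - δ) (hδ : 0 < δ) (hq0 : 0 < q) (hX : 1 ≤ X) (hLa : 2 ≤ La)
    (hq0def : q0 = p1 * (Real.log La + Real.log X)) (hK1 : 8 * q0 + 8 ≤ (X : ℝ) ^ δ)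
    (hA1 : ∀ l ∈ A', (∀ x ∈ l, 0 < x) ∧ val l p1 ≤ (X : ℝ) ^ q)
    (hAt : TameSet p0 p1 sgA (Real.log ((X : ℝ) ^ q) + 5) T (Real.log X) 4 A') (hsgA : 1 ≤ sgA) :
    TameSet p0 p1 1 (q0 + 5) T (Real.log X) (Real.log La + 4) (consSet X (La * X) A') ∧
      (X : ℝ) ^ q ≤ (X : ℝ) ^ (p0 - 1) / 2 ∧
      (∀ l ∈ consSet X (La * X) A', ∀ x ∈ l, Real.log (x : ℝ) ≤ q0) := by
  have hXr : (1 : ℝ) ≤ X := by exact_mod_cast hX
  have hX0 : (0 : ℝ) < X := by linarith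
  have hLar : (2 : ℝ) ≤ La := by exact_mod_cast hLa
  have hlogX : 0 ≤ Real.log (X : ℝ) := Real.log_nonneg hXr
  have hlogLa : 0 ≤ Real.log (La : ℝ) := Real.log_natCast_nonneg _
  have hlogq : Real.log ((X : ℝ) ^ q) = q * Real.log X := Real.log_rpow hX0 _
  have hqq0 : Real.log ((X : ℝ) ^ q) ≤ q0 := by
    rw [hlogq, hq0def]
    have h1 : q * Real.log X ≤ p1 * Real.log X := mul_le_mul_of_nonneg_right (by linarith) hlogX
    have h2 : 0 ≤ p1 * Real.log (La : ℝ) := mul_nonneg (by linarith) hlogLa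
    linarith
  have hYlog : Real.log ((La * X : ℕ) : ℝ) = Real.log (La : ℝ) + Real.log X := by
    push_cast
    exact Real.log_mul (by positivity) hX0.ne'
  have hYq : Real.log ((La * X : ℕ) : ℝ) ≤ q0 := by
    rw [hYlog, hq0def]
    have h1 : 0 ≤ Real.log (La : ℝ) + Real.log X := by positivity
    have h2 : 1 * (Real.log (La : ℝ) + Real.log X) ≤ p1 * (Real.log (La : ℝ) + Real.log X) :=
      mul_le_mul_of_nonneg_right (by linarith) h1
    linarith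
  have hq00 : 0 ≤ q0 := (Real.log_natCast_nonneg _).trans hYq
  have hPq : (X : ℝ) ^ (p0 - 1) = (X : ℝ) ^ q * (X : ℝ) ^ δ := by
    rw [← Real.rpow_add hX0]
    congr 1
    rw [hq]
    ring
  have hXq0 : 0 < (X : ℝ) ^ q := Real.rpow_pos_of_pos hX0 _
  have hXq1 : 1 ≤ (X : ℝ) ^ q := Real.one_le_rpow hXr hq0.le
  have hRX : (X : ℝ) ^ q * (8 * q0 + 8) ≤ (X : ℝ) ^ (p0 - 1) := by
    rw [hPq]
    exact mul_le_mul_of_nonneg_left hK1 hXq0.le
  have hRX2 : (X : ℝ) ^ q ≤ (X : ℝ) ^ (p0 - 1) / 2 := by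
    have h1 : 0 ≤ (X : ℝ) ^ q * q0 := by positivity
    linarith
  refine ⟨?_, hRX2, ?_⟩
  · refine consSet_tame (sg' := sgA) (Lg' := Real.log ((X : ℝ) ^ q) + 5)
      (w' := 4) (q := q0) (R := (X : ℝ) ^ q) (n := 0) hp0.le hX hAt ?_
      (fun l hl => (hA1 l hl).2) hYq hRX hsgA ?_ ?_ ?_ ?_ ?_ ?_ ?_
    · intro l hl x hx
      obtain ⟨b2, b3⟩ := hA1 l hl
      exact (log_le_of_val (by linarith) b2 b3 x hx).trans hqq0
    · linarith
    · rw [hlogq]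
      have : 0 ≤ q * Real.log X := mul_nonneg hq0.le hlogX
      linarith
    · linarith
    · linarith
    · linarith
    · push_cast
      linarith
    · rw [hYlog]
      push_cast
      linarith
  · intro l hl
    obtain ⟨x, m', hx1, hx2, hm, rfl⟩ := mem_consSet.1 hl
    intro y hy
    rcases List.mem_cons.1 hy with h5 | h5
    · rw [h5]
      refine le_trans ?_ hYq
      refine Real.log_le_log ?_ (by exact_mod_cast hx2.le)
      exact_mod_cast (by omega : 0 < x)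
    · obtain ⟨b2, b3⟩ := hA1 m' hm
      exact (log_le_of_val (by linarith) b2 b3 y h5).trans hqq0

theorem core_v1A {p1 δ q q0 : ℝ} {X La : ℕ} {A' : Finset (List ℕ)} (hp1 : 0 < p1)
    (hq : q ≤ p1) (hX : 1 ≤ X) (hLa : 2 ≤ La) (hq00 : 0 ≤ q0)
    (hK2 : 2 * (La : ℝ) ^ p1 * q0 ≤ (X : ℝ) ^ δ)
    (hA1 : ∀ l ∈ A', val l p1 ≤ (X : ℝ) ^ q)
    (hlog : ∀ l ∈ consSet X (La * X) A', ∀ x ∈ l, Real.log (x : ℝ) ≤ q0) :
    ∀ l ∈ consSet X (La * X) A', ∀ p ≤ p1, v1 l p ≤ (X : ℝ) ^ (p1 + δ) := by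
  intro l hl p hp
  have hXr : (1 : ℝ) ≤ X := by exact_mod_cast hX
  have hX0 : (0 : ℝ) < X := by linarith
  have hLar : (2 : ℝ) ≤ La := by exact_mod_cast hLa
  have h1 := hlog l hl
  have hval1 : val l p1 ≤ 2 * (La : ℝ) ^ p1 * (X : ℝ) ^ p1 := by
    obtain ⟨x, m', hx1, hx2, hm, rfl⟩ := mem_consSet.1 hl
    rw [val_cons, pw_eq (by omega)]
    have h1 : (x : ℝ) ≤ (La : ℝ) * X := by exact_mod_cast hx2.le
    have h2 : (x : ℝ) ^ p1 ≤ ((La : ℝ) * X) ^ p1 := Real.rpow_le_rpow (Nat.cast_nonneg _) h1 hp1.le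
    rw [Real.mul_rpow (by positivity) hX0.le] at h2
    have h3 := hA1 m' hm
    have h4 : (X : ℝ) ^ q ≤ (X : ℝ) ^ p1 := Real.rpow_le_rpow_of_exponent_le hXr hq
    have h5 : (1 : ℝ) ≤ (La : ℝ) ^ p1 := Real.one_le_rpow (by linarith) hp1.le
    have h6 : 1 * (X : ℝ) ^ p1 ≤ (La : ℝ) ^ p1 * (X : ℝ) ^ p1 :=
      mul_le_mul_of_nonneg_right h5 (by positivity)
    linarith
  calc v1 l p ≤ q0 * val l p := v1_le h1 p
    _ ≤ q0 * (2 * (La : ℝ) ^ p1 * (X : ℝ) ^ p1) :=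
      mul_le_mul_of_nonneg_left ((val_mono l hp).trans hval1) hq00
    _ = (2 * (La : ℝ) ^ p1 * q0) * (X : ℝ) ^ p1 := by ring
    _ ≤ (X : ℝ) ^ δ * (X : ℝ) ^ p1 := mul_le_mul_of_nonneg_right hK2 (by positivity)
    _ = (X : ℝ) ^ (p1 + δ) := by rw [← Real.rpow_add hX0, add_comm]

theorem core_osc {p0 p1 T q0 sg w φ e H : ℝ} {A B : Finset (List ℕ)} (h01 : p0 ≤ p1)
    (he : 0 < e) (heH : e ≤ H) (hq00 : 0 ≤ q0) (hw : 0 ≤ w) (hT : T = 2 * w + 4) (hsg : 0 < sg)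
    (hAt : TameSet p0 p1 1 (q0 + 5) T φ w A)
    (hBt : TameSet p0 p1 sg (q0 + 5) T (φ - T / 2) w B) :
    ∀ a ∈ A, ∀ a' ∈ A, a ≠ a' → ∀ b ∈ B, ∀ b' ∈ B, b ≠ b' →
      |∫ x in p0..p1, Pool.Agent.MWar.GG e H ((val a x - val a' x) + (val b x - val b' x))| ≤
        2 * ind H ((val a p1 - val a' p1) + (val b p1 - val b' p1)) / |val b p1 - val b' p1| +
        2 * ind H ((val a p0 - val a' p0) + (val b p0 - val b' p0)) / |val b p0 - val b' p0| +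
        ∫ x in p0..p1, (8 * (q0 + 5) ^ 2 + 4 * (q0 + 5)) *
          (ind H ((val a x - val a' x) + (val b x - val b' x)) / |val b x - val b' x|) := by
  intro a ha a' ha' haa b hb b' hb' hbb
  refine osc (a := fun x => val a x - val a' x) (a1 := fun x => v1 a x - v1 a' x)
    (a2 := fun x => v2 a x - v2 a' x) (b := fun x => val b x - val b' x)
    (b1 := fun x => v1 b x - v1 b' x) (b2 := fun x => v2 b x - v2 b' x) he heH h01
    (Lg := q0 + 5) (by linarith)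
    (fun x => (hasDerivAt_val a x).sub (hasDerivAt_val a' x))
    (fun x => (hasDerivAt_v1 a x).sub (hasDerivAt_v1 a' x))
    ((continuous_v2 a).sub (continuous_v2 a'))
    (fun x => (hasDerivAt_val b x).sub (hasDerivAt_val b' x))
    (fun x => (hasDerivAt_v1 b x).sub (hasDerivAt_v1 b' x))
    ((continuous_v2 b).sub (continuous_v2 b')) ?_ ?_ ?_
  · intro x hx
    have ht := hAt x hx a ha a' ha' haa
    exact ⟨abs_pos.1 (lt_of_lt_of_le one_pos ht.sep), ht.d1, ht.d2⟩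
  · intro x hx
    have ht := hBt x hx b hb b' hb' hbb
    exact ⟨abs_pos.1 (lt_of_lt_of_le hsg ht.sep), ht.d1, ht.d2⟩
  · intro x hx
    exact window_sep (T := T) (φ := φ) (w := w) hT.ge (hAt x hx a ha a' ha' haa).win
      (hBt x hx b hb b' hb' hbb).win hw

theorem core_count {p0 p1 q H V : ℝ} {X La : ℕ} {A' B : Finset (List ℕ)} (hp0 : 1 < p0)
    (hX : 1 ≤ X) (hLa : 2 ≤ La)
    (hRX2 : (X : ℝ) ^ q ≤ (X : ℝ) ^ (p0 - 1) / 2)
    (hA1 : ∀ l ∈ A', val l p1 ≤ (X : ℝ) ^ q) (hB1 : ∀ l ∈ B, val l p1 ≤ (X : ℝ) ^ p0)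
    (hV : V = p1 * ((La : ℝ) * X) ^ (p1 - 1)) (hVH : V ≤ H) (hHX : H ≤ (X : ℝ) ^ p0) :
    ∀ p ∈ Icc p0 p1, ∀ y ∈ Icc ((2 ^ p1 + 1) * (X : ℝ) ^ p) (((La : ℝ) - 1) * (X : ℝ) ^ p),
      ∀ b ∈ B, H * A'.card / (2 * V) ≤
      (((consSet X (La * X) A').filter fun a => |val a p - (y - val b p)| < H).card : ℝ) := by
  intro p hp y hy b hb
  have hXr : (1 : ℝ) ≤ X := by exact_mod_cast hX
  have hX0 : (0 : ℝ) < X := by linarith
  have hLar : (2 : ℝ) ≤ La := by exact_mod_cast hLa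
  have hbX : val b p ≤ (X : ℝ) ^ p :=
    ((val_mono b hp.2).trans (hB1 b hb)).trans (Real.rpow_le_rpow_of_exponent_le hXr hp.1)
  have hb0' := val_nonneg b p
  have hXp : 0 < (X : ℝ) ^ p := Real.rpow_pos_of_pos hX0 _
  rw [hV] at hVH ⊢
  refine reg_lower (p0 := p0) (p1 := p1) (R := (X : ℝ) ^ q) hp0.le hp.1 hp.2 hX hLa
    (fun l hl => (val_mono l hp.2).trans (hA1 l hl)) hRX2 hVH hHX ?_ ?_
  · rw [Real.mul_rpow (by norm_num) hX0.le]
    have h1 : (2 : ℝ) ^ p ≤ 2 ^ p1 := Real.rpow_le_rpow_of_exponent_le (by norm_num) hp.2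
    have h2 := mul_le_mul_of_nonneg_right h1 hXp.le
    have := hy.1
    linarith
  · rw [Real.mul_rpow (by linarith) hX0.le]
    have h1 : (La : ℝ) - 1 ≤ ((La : ℝ) - 1) ^ p := by
      calc (La : ℝ) - 1 = ((La : ℝ) - 1) ^ (1 : ℝ) := (Real.rpow_one _).symm
        _ ≤ ((La : ℝ) - 1) ^ p :=
          Real.rpow_le_rpow_of_exponent_le (by linarith) (by linarith [hp.1])
    have h2 := mul_le_mul_of_nonneg_right h1 hXp.le
    have := hy.2
    linarith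

theorem core_L {X p0 sg Q0 q0 : ℝ} (hXr : 1 ≤ X) (hsg : 1 ≤ sg) (hp0 : 0 ≤ p0)
    (hlog : Real.log (X ^ p0) ≤ q0) (hq0 : 8 * q0 + 8 ≤ Q0) :
    2 / sg * (1 + Real.log ⌊X ^ p0 / sg⌋₊) ≤ 2 / sg * Q0 ∧
      0 ≤ 2 / sg * (1 + Real.log ⌊X ^ p0 / sg⌋₊) := by
  have hX0 : 0 < X := by linarith
  have hsg0 : 0 < sg := by linarith
  have hXp : 1 ≤ X ^ p0 := Real.one_le_rpow hXr hp0
  have hl0 : 0 ≤ Real.log (X ^ p0) := Real.log_nonneg hXp
  constructor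
  · refine mul_le_mul_of_nonneg_left ?_ (by positivity)
    have h1 : (⌊X ^ p0 / sg⌋₊ : ℝ) ≤ X ^ p0 := by
      refine (Nat.floor_le (by positivity)).trans ?_
      exact div_le_self (by positivity) hsg
    have h2 : Real.log (⌊X ^ p0 / sg⌋₊ : ℝ) ≤ Real.log (X ^ p0) := by
      rcases Nat.eq_zero_or_pos ⌊X ^ p0 / sg⌋₊ with h | h
      · rw [h, Nat.cast_zero, Real.log_zero]
        exact hl0
      · exact Real.log_le_log (by exact_mod_cast h) h1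
    linarith
  · have : 0 ≤ Real.log (⌊X ^ p0 / sg⌋₊ : ℝ) := Real.log_natCast_nonneg _
    positivity

end Pool.Agent.EWar
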