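import Pool.Agent.EWar.Val

/-!
Sets of lists whose differences of values are large and have logarithmic derivatives in prescribed
windows.
-/

set_option autoImplicit false

open Set Filter Topology

namespace Pool.Agent.EWar

/-- size and window conditions on a difference and its first two derivatives -/
structure Tame (sg Lg T φ w h h1 h2 : ℝ) : Prop where
  sep : sg ≤ |h|
  d1 : |h1| ≤ Lg * |h|
  d2 : |h2| ≤ Lg ^ 2 * |h|
  win : ∃ n : ℤ, T * n + φ - 1 ≤ h1 / h ∧ h1 / h ≤ T * n + φ + w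

theorem Tame.mono {sg Lg T φ w h h1 h2 sg' Lg' w' : ℝ} (ht : Tame sg Lg T φ w h h1 h2)
    (hs : sg' ≤ sg) (h0 : 0 ≤ Lg) (hL : Lg ≤ Lg') (hw : w ≤ w') : Tame sg' Lg' T φ w' h h1 h2 where
  sep := hs.trans ht.sep
  d1 := ht.d1.trans (mul_le_mul_of_nonneg_right hL (abs_nonneg _))
  d2 := ht.d2.trans (mul_le_mul_of_nonneg_right (pow_le_pow_left₀ h0 hL 2) (abs_nonneg _))
  win := by
    obtain ⟨n, h3, h4⟩ := ht.win
    exact ⟨n, h3, by linarith⟩

theorem Tame.neg {sg Lg T φ w h h1 h2 : ℝ} (ht : Tame sg Lg T φ w h h1 h2) :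
    Tame sg Lg T φ w (-h) (-h1) (-h2) where
  sep := by rw [abs_neg]; exact ht.sep
  d1 := by rw [abs_neg, abs_neg]; exact ht.d1
  d2 := by rw [abs_neg, abs_neg]; exact ht.d2
  win := by rw [neg_div_neg_eq]; exact ht.win

/-- a difference with distinct top entries -/
theorem top_tame {X x y : ℕ} {l l' : List ℕ} {p0 p q R : ℝ} (hp0 : 1 ≤ p0) (hp : p0 ≤ p)
    (hX : 1 ≤ X) (hy : X ≤ y) (hxy : y < x) (hq : Real.log (x : ℝ) ≤ q)
    (hl : ∀ z ∈ l, Real.log (z : ℝ) ≤ q) (hl' : ∀ z ∈ l', Real.log (z : ℝ) ≤ q)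
    (hR : val l p ≤ R) (hR' : val l' p ≤ R) (hRX : R * (8 * q + 8) ≤ (X : ℝ) ^ (p0 - 1)) :
    (X : ℝ) ^ (p0 - 1) / 2 ≤ val (x :: l) p - val (y :: l') p ∧
      |v1 (x :: l) p - v1 (y :: l') p| ≤ (q + 5) * (val (x :: l) p - val (y :: l') p) ∧
      |v2 (x :: l) p - v2 (y :: l') p| ≤ (q + 5) ^ 2 * (val (x :: l) p - val (y :: l') p) ∧
      Real.log x - 1 ≤ (v1 (x :: l) p - v1 (y :: l') p) / (val (x :: l) p - val (y :: l') p) ∧
      (v1 (x :: l) p - v1 (y :: l') p) / (val (x :: l) p - val (y :: l') p) ≤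
        Real.log x + 2 := by
  have hy1 : 1 ≤ y := hX.trans hy
  have hp1 : 1 ≤ p := hp0.trans hp
  have hXr : (1 : ℝ) ≤ X := by exact_mod_cast hX
  have hX0 : (0 : ℝ) < X := by linarith
  have hyX : (X : ℝ) ≤ y := by exact_mod_cast hy
  have hLx := Real.log_natCast_nonneg x
  have hq0 : 0 ≤ q := hLx.trans hq
  have hR0 : 0 ≤ R := (val_nonneg l p).trans hR
  set m : ℝ := pw x p - pw y p with hm
  have hXm : (X : ℝ) ^ (p0 - 1) ≤ m := by
    calc (X : ℝ) ^ (p0 - 1) ≤ (X : ℝ) ^ (p - 1) :=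
          Real.rpow_le_rpow_of_exponent_le hXr (by linarith)
      _ ≤ (y : ℝ) ^ (p - 1) := Real.rpow_le_rpow hX0.le hyX (by linarith)
      _ ≤ m := pw_sub_ge hp1 hy1 hxy
  have hXp : 0 < (X : ℝ) ^ (p0 - 1) := Real.rpow_pos_of_pos hX0 _
  have hm0 : 0 < m := hXp.trans_le hXm
  have hRm : R * (8 * q + 8) ≤ m := hRX.trans hXm
  have hqR : 0 ≤ q * R := mul_nonneg hq0 hR0
  obtain ⟨a1, a2⟩ := pw_d1 hp1 hy1 hxy
  obtain ⟨b1, b2⟩ := pw_d2 hp1 hy1 hxy
  rw [← hm] at a1 a2 b2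
  have c1 := val_nonneg l p
  have c2 := val_nonneg l' p
  have d1 := v1_nonneg l p
  have d2 := v1_nonneg l' p
  have e1 := v2_nonneg l p
  have e2 := v2_nonneg l' p
  have f1 : v1 l p ≤ q * R := (v1_le hl p).trans (mul_le_mul_of_nonneg_left hR hq0)
  have f2 : v1 l' p ≤ q * R := (v1_le hl' p).trans (mul_le_mul_of_nonneg_left hR' hq0)
  have g1 : v2 l p ≤ q ^ 2 * R := (v2_le hq0 hl p).trans (mul_le_mul_of_nonneg_left hR (by positivity))
  have g2 : v2 l' p ≤ q ^ 2 * R :=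
    (v2_le hq0 hl' p).trans (mul_le_mul_of_nonneg_left hR' (by positivity))
  set h : ℝ := val (x :: l) p - val (y :: l') p with hh
  have hh' : h = m + (val l p - val l' p) := by
    rw [hh, val_cons, val_cons, hm]
    ring
  have hh1 : v1 (x :: l) p - v1 (y :: l') p = (pw x p * Real.log x - pw y p * Real.log y) +
      (v1 l p - v1 l' p) := by
    rw [v1_cons, v1_cons]
    ring
  have hh2 : v2 (x :: l) p - v2 (y :: l') p =
      (pw x p * Real.log x * Real.log x - pw y p * Real.log y * Real.log y) +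
      (v2 l p - v2 l' p) := by
    rw [v2_cons, v2_cons]
    ring
  have hlow : m - R ≤ h := by rw [hh']; linarith
  have hm8 : R ≤ m / 8 := by linarith
  have hm8' : q * R ≤ m / 8 := by linarith
  have hh0 : 0 < h := by linarith
  have k1 : (q + 5) * R ≤ 5 * m / 8 := by linarith
  have k2 : (q + 5) * m - 5 * m / 8 ≤ (q + 5) * h := by
    have := mul_le_mul_of_nonneg_left hlow (by linarith : 0 ≤ q + 5)
    linarith
  have k3 : (q + 5) ^ 2 * m - (q + 5) * (5 * m / 8) ≤ (q + 5) ^ 2 * h := by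
    have := mul_le_mul_of_nonneg_left k2 (by linarith : 0 ≤ q + 5)
    calc (q + 5) ^ 2 * m - (q + 5) * (5 * m / 8) = (q + 5) * ((q + 5) * m - 5 * m / 8) := by ring
      _ ≤ (q + 5) * ((q + 5) * h) := this
      _ = (q + 5) ^ 2 * h := by ring
  have hmL : m * Real.log x ≤ m * q := mul_le_mul_of_nonneg_left hq hm0.le
  have hmL0 : 0 ≤ m * Real.log x := mul_nonneg hm0.le hLx
  have hLq : Real.log (x : ℝ) ^ 2 ≤ q ^ 2 := pow_le_pow_left₀ hLx hq 2
  have hmL2 : m * Real.log x ^ 2 ≤ m * q ^ 2 := mul_le_mul_of_nonneg_left hLq hm0.le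
  have hq2R : q ^ 2 * R ≤ q * (m / 8) := by
    have := mul_le_mul_of_nonneg_left hm8' hq0
    calc q ^ 2 * R = q * (q * R) := by ring
      _ ≤ q * (m / 8) := this
  have hqm : 0 ≤ q * m := mul_nonneg hq0 hm0.le
  refine ⟨by linarith, ?_, ?_, ?_, ?_⟩
  · rw [hh1, abs_le]
    constructor
    · linarith
    · linarith
  · have hq2m : 0 ≤ q ^ 2 * m := by positivity
    rw [hh2, abs_le]
    constructor
    · linarith
    · linarith
  · rw [hh1, le_div_iff₀ hh0]
    have r1 : Real.log x * (val l p - val l' p) ≤ q * R := by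
      calc Real.log x * (val l p - val l' p) ≤ Real.log x * R :=
            mul_le_mul_of_nonneg_left (by linarith) hLx
        _ ≤ q * R := mul_le_mul_of_nonneg_right hq hR0
    have r2 : (Real.log x - 1) * h = m * Real.log x + Real.log x * (val l p - val l' p) - h := by
      rw [hh']
      ring
    rw [r2]
    linarith
  · rw [hh1, div_le_iff₀ hh0]
    have r1 : -(q * R) ≤ Real.log x * (val l p - val l' p) := by
      have : Real.log x * (val l' p - val l p) ≤ q * R := by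
        calc Real.log x * (val l' p - val l p) ≤ Real.log x * R :=
              mul_le_mul_of_nonneg_left (by linarith) hLx
          _ ≤ q * R := mul_le_mul_of_nonneg_right hq hR0
      linarith
    have r2 : (Real.log x + 2) * h = m * Real.log x + Real.log x * (val l p - val l' p) +
        2 * h := by
      rw [hh']
      ring
    rw [r2]
    linarith

/-- all differences of the set are tame -/
def TameSet (p0 p1 sg Lg T φ w : ℝ) (B : Finset (List ℕ)) : Prop :=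
  ∀ p ∈ Icc p0 p1, ∀ l ∈ B, ∀ l' ∈ B, l ≠ l' →
    Tame sg Lg T φ w (val l p - val l' p) (v1 l p - v1 l' p) (v2 l p - v2 l' p)

/-- lists with a first entry in `[X, Y)` and remaining part in `B` -/
def consSet (X Y : ℕ) (B : Finset (List ℕ)) : Finset (List ℕ) :=
  (Finset.Ico X Y ×ˢ B).image fun q : ℕ × List ℕ => q.1 :: q.2

theorem mem_consSet {X Y : ℕ} {B : Finset (List ℕ)} {l : List ℕ} :
    l ∈ consSet X Y B ↔ ∃ x l', X ≤ x ∧ x < Y ∧ l' ∈ B ∧ l = x :: l' := by
  unfold consSet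
  rw [Finset.mem_image]
  constructor
  · rintro ⟨q, hq, rfl⟩
    rw [Finset.mem_product, Finset.mem_Ico] at hq
    exact ⟨q.1, q.2, hq.1.1, hq.1.2, hq.2, rfl⟩
  · rintro ⟨x, l', h1, h2, h3, rfl⟩
    refine ⟨(x, l'), ?_, rfl⟩
    rw [Finset.mem_product, Finset.mem_Ico]
    exact ⟨⟨h1, h2⟩, h3⟩

theorem card_consSet (X Y : ℕ) (B : Finset (List ℕ)) :
    (consSet X Y B).card = (Y - X) * B.card := by
  unfold consSet
  rw [Finset.card_image_of_injective, Finset.card_product, Nat.card_Ico]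
  intro q q' h
  simp only [List.cons.injEq] at h
  exact Prod.ext h.1 h.2

theorem consSet_tame {X Y : ℕ} {B : Finset (List ℕ)} {p0 p1 sg sg' Lg Lg' T φ w w' q R : ℝ} {n : ℤ}
    (hp0 : 1 ≤ p0) (hX : 1 ≤ X) (hB : TameSet p0 p1 sg' Lg' T φ w' B)
    (hpos : ∀ l ∈ B, ∀ x ∈ l, Real.log (x : ℝ) ≤ q) (hR : ∀ l ∈ B, val l p1 ≤ R)
    (hY : Real.log Y ≤ q) (hRX : R * (8 * q + 8) ≤ (X : ℝ) ^ (p0 - 1))
    (hsg : sg ≤ sg') (hsg2 : sg ≤ (X : ℝ) ^ (p0 - 1) / 2) (hLg0 : 0 ≤ Lg') (hLg : Lg' ≤ Lg)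
    (hLgq : q + 5 ≤ Lg) (hw : w' ≤ w) (hn1 : T * n + φ ≤ Real.log X)
    (hn2 : Real.log Y + 2 ≤ T * n + φ + w) :
    TameSet p0 p1 sg Lg T φ w (consSet X Y B) := by
  -- the ordered case
  have key : ∀ p ∈ Icc p0 p1, ∀ x y : ℕ, ∀ l ∈ B, ∀ l' ∈ B, X ≤ y → y < x → x < Y →
      Tame sg Lg T φ w (val (x :: l) p - val (y :: l') p) (v1 (x :: l) p - v1 (y :: l') p)
        (v2 (x :: l) p - v2 (y :: l') p) := by
    intro p hp x y l hl l' hl' hXy hyx hxY
    have hXr : (0 : ℝ) < X := by exact_mod_cast hX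
    have hx0 : (0 : ℝ) < x := by exact_mod_cast (by omega : 0 < x)
    have hlogx : Real.log (x : ℝ) ≤ Real.log Y :=
      Real.log_le_log hx0 (by exact_mod_cast hxY.le)
    have hlogX : Real.log (X : ℝ) ≤ Real.log x :=
      Real.log_le_log hXr (by exact_mod_cast (by omega : X ≤ x))
    have hq0 : 0 ≤ q := (Real.log_natCast_nonneg x).trans (hlogx.trans hY)
    obtain ⟨t1, t2, t3, t4, t5⟩ := top_tame (p := p) hp0 hp.1 hX hXy hyx (hlogx.trans hY)
      (hpos l hl) (hpos l' hl') ((val_mono l hp.2).trans (hR l hl))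
      ((val_mono l' hp.2).trans (hR l' hl')) hRX
    have h0 : 0 ≤ val (x :: l) p - val (y :: l') p := le_trans (by positivity) t1
    refine ⟨?_, ?_, ?_, n, ?_, ?_⟩
    · rw [abs_of_nonneg h0]
      exact hsg2.trans t1
    · rw [abs_of_nonneg h0]
      exact t2.trans (mul_le_mul_of_nonneg_right hLgq h0)
    · rw [abs_of_nonneg h0]
      exact t3.trans (mul_le_mul_of_nonneg_right
        (pow_le_pow_left₀ (by linarith) hLgq 2) h0)
    · linarith
    · linarith
  intro p hp l hl l' hl' hne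
  obtain ⟨x, m, hx1, hx2, hm, rfl⟩ := mem_consSet.1 hl
  obtain ⟨y, m', hy1, hy2, hm', rfl⟩ := mem_consSet.1 hl'
  rcases lt_trichotomy x y with h | h | h
  · have := (key p hp y x m' hm' m hm hx1 h hy2).neg
    rwa [neg_sub, neg_sub, neg_sub] at this
  · subst h
    have hne' : m ≠ m' := fun h => hne (by rw [h])
    have := (hB p hp m hm m' hm' hne').mono hsg hLg0 hLg hw
    rw [val_cons, val_cons, v1_cons, v1_cons, v2_cons, v2_cons, add_sub_add_left_eq_sub,
      add_sub_add_left_eq_sub, add_sub_add_left_eq_sub]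
    exact this
  · exact key p hp x y m hm m' hm' hy1 h hx2

end Pool.Agent.EWar
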