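import Mathlib

/-!
Sums of `p`-th powers of a list of positive integers as functions of the exponent `p`, and their
first two derivatives.
-/

set_option autoImplicit false

open Set Filter Topology

namespace Pool.Agent.EWar

/-- `x ^ p`, as `exp (p log x)` -/
noncomputable def pw (x : ℕ) (p : ℝ) : ℝ := Real.exp (p * Real.log x)

/-- sum of the `p`-th powers of a list -/
noncomputable def val : List ℕ → ℝ → ℝ
  | [], _ => 0
  | x :: l, p => pw x p + val l p

/-- first derivative -/
noncomputable def v1 : List ℕ → ℝ → ℝ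
  | [], _ => 0
  | x :: l, p => pw x p * Real.log x + v1 l p

/-- second derivative -/
noncomputable def v2 : List ℕ → ℝ → ℝ
  | [], _ => 0
  | x :: l, p => pw x p * Real.log x * Real.log x + v2 l p

theorem pw_eq {x : ℕ} (hx : 0 < x) (p : ℝ) : pw x p = (x : ℝ) ^ p := by
  unfold pw
  rw [Real.rpow_def_of_pos (by exact_mod_cast hx), mul_comm]

theorem pw_pos (x : ℕ) (p : ℝ) : 0 < pw x p := Real.exp_pos _

theorem val_cons (x : ℕ) (l : List ℕ) (p : ℝ) : val (x :: l) p = pw x p + val l p := rfl

theorem v1_cons (x : ℕ) (l : List ℕ) (p : ℝ) :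
    v1 (x :: l) p = pw x p * Real.log x + v1 l p := rfl

theorem v2_cons (x : ℕ) (l : List ℕ) (p : ℝ) :
    v2 (x :: l) p = pw x p * Real.log x * Real.log x + v2 l p := rfl

theorem hasDerivAt_pw (x : ℕ) (p : ℝ) : HasDerivAt (pw x) (pw x p * Real.log x) p := by
  unfold pw
  have h : HasDerivAt (fun p : ℝ => p * Real.log x) (Real.log x) p := by
    simpa using (hasDerivAt_id p).mul_const (Real.log x)
  exact h.exp

theorem hasDerivAt_val (l : List ℕ) (p : ℝ) : HasDerivAt (val l) (v1 l p) p := by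
  induction l with
  | nil => exact hasDerivAt_const p 0
  | cons x l ih => exact (hasDerivAt_pw x p).add ih

theorem hasDerivAt_v1 (l : List ℕ) (p : ℝ) : HasDerivAt (v1 l) (v2 l p) p := by
  induction l with
  | nil => exact hasDerivAt_const p 0
  | cons x l ih => exact ((hasDerivAt_pw x p).mul_const _).add ih

theorem continuous_pw (x : ℕ) : Continuous (pw x) :=
  continuous_iff_continuousAt.2 fun p => (hasDerivAt_pw x p).continuousAt

theorem continuous_val (l : List ℕ) : Continuous (val l) :=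
  continuous_iff_continuousAt.2 fun p => (hasDerivAt_val l p).continuousAt

theorem continuous_v1 (l : List ℕ) : Continuous (v1 l) :=
  continuous_iff_continuousAt.2 fun p => (hasDerivAt_v1 l p).continuousAt

theorem continuous_v2 (l : List ℕ) : Continuous (v2 l) := by
  induction l with
  | nil => exact continuous_const
  | cons x l ih => exact (((continuous_pw x).mul continuous_const).mul continuous_const).add ih

theorem val_nonneg (l : List ℕ) (p : ℝ) : 0 ≤ val l p := by
  induction l with
  | nil => exact le_rfl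
  | cons x l ih => exact add_nonneg (pw_pos x p).le ih

theorem pw_mono (x : ℕ) {p q : ℝ} (hpq : p ≤ q) : pw x p ≤ pw x q := by
  unfold pw
  exact Real.exp_le_exp.2 (mul_le_mul_of_nonneg_right hpq (Real.log_natCast_nonneg x))

theorem val_mono (l : List ℕ) {p q : ℝ} (hpq : p ≤ q) : val l p ≤ val l q := by
  induction l with
  | nil => exact le_rfl
  | cons x l ih => exact add_le_add (pw_mono x hpq) ih

theorem pw_le_val {l : List ℕ} {x : ℕ} (hx : x ∈ l) (p : ℝ) : pw x p ≤ val l p := by
  induction l with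
  | nil => simp at hx
  | cons y l ih =>
    rw [val_cons]
    rcases List.mem_cons.1 hx with h | h
    · rw [h]
      linarith [val_nonneg l p]
    · linarith [ih h, (pw_pos y p).le]

theorem v1_nonneg (l : List ℕ) (p : ℝ) : 0 ≤ v1 l p := by
  induction l with
  | nil => exact le_rfl
  | cons x l ih => exact add_nonneg (mul_nonneg (pw_pos x p).le (Real.log_natCast_nonneg x)) ih

theorem v2_nonneg (l : List ℕ) (p : ℝ) : 0 ≤ v2 l p := by
  induction l with
  | nil => exact le_rfl
  | cons x l ih =>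
    exact add_nonneg (mul_nonneg (mul_nonneg (pw_pos x p).le (Real.log_natCast_nonneg x))
      (Real.log_natCast_nonneg x)) ih

theorem v1_le {l : List ℕ} {q : ℝ} (hl : ∀ x ∈ l, Real.log (x : ℝ) ≤ q) (p : ℝ) :
    v1 l p ≤ q * val l p := by
  induction l with
  | nil => simp [v1, val]
  | cons x l ih =>
    rw [v1_cons, val_cons]
    have h1 := ih fun y hy => hl y (List.mem_cons_of_mem _ hy)
    have h2 := mul_le_mul_of_nonneg_left (hl x List.mem_cons_self) (pw_pos x p).le
    linarith

theorem v2_le {l : List ℕ} {q : ℝ} (hq : 0 ≤ q) (hl : ∀ x ∈ l, Real.log (x : ℝ) ≤ q) (p : ℝ) :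
    v2 l p ≤ q ^ 2 * val l p := by
  induction l with
  | nil => simp [v2, val]
  | cons x l ih =>
    rw [v2_cons, val_cons]
    have h1 := ih fun y hy => hl y (List.mem_cons_of_mem _ hy)
    have h3 := hl x List.mem_cons_self
    have h4 := Real.log_natCast_nonneg x
    have h5 : Real.log (x : ℝ) * Real.log (x : ℝ) ≤ q * q := mul_le_mul h3 h3 h4 hq
    have h2 := mul_le_mul_of_nonneg_left h5 (pw_pos x p).le
    nlinarith

/-- bounded logarithms of the entries of a list with a small value -/
theorem log_le_of_val {l : List ℕ} {p M : ℝ} (hp : 1 ≤ p) (hl : ∀ x ∈ l, 0 < x)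
    (hM : val l p ≤ M) : ∀ x ∈ l, Real.log (x : ℝ) ≤ Real.log M := by
  intro x hx
  have h1 : (1 : ℝ) ≤ x := by exact_mod_cast hl x hx
  have h2 := (pw_le_val hx p).trans hM
  rw [pw_eq (hl x hx)] at h2
  have h3 : (x : ℝ) ≤ (x : ℝ) ^ p := by
    calc (x : ℝ) = (x : ℝ) ^ (1 : ℝ) := (Real.rpow_one _).symm
      _ ≤ (x : ℝ) ^ p := Real.rpow_le_rpow_of_exponent_le h1 hp
  exact Real.log_le_log (by linarith) (h3.trans h2)

/-! ### one difference of powers -/

theorem pw_sub_ge {x y : ℕ} {p : ℝ} (hp : 1 ≤ p) (hy : 1 ≤ y) (hxy : y < x) :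
    (y : ℝ) ^ (p - 1) ≤ pw x p - pw y p := by
  rw [pw_eq (by omega), pw_eq (by omega)]
  have hy0 : (0 : ℝ) < y := by exact_mod_cast (by omega : 0 < y)
  have hx1 : (y : ℝ) + 1 ≤ x := by exact_mod_cast hxy
  have h1 : (1 : ℝ) + p * (1 / y) ≤ (1 + 1 / (y : ℝ)) ^ p :=
    one_add_mul_self_le_rpow_one_add (by
      have : 0 < 1 / (y : ℝ) := by positivity
      linarith) hp
  have h2 : ((y : ℝ) + 1) ^ p = (y : ℝ) ^ p * (1 + 1 / (y : ℝ)) ^ p := by
    rw [← Real.mul_rpow hy0.le (by positivity)]
    congr 1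
    field_simp
  have h3 : ((y : ℝ) + 1) ^ p ≤ (x : ℝ) ^ p := Real.rpow_le_rpow (by positivity) hx1 (by linarith)
  have h4 : (y : ℝ) ^ p = (y : ℝ) ^ (p - 1) * y := by
    rw [← Real.rpow_add_one hy0.ne']
    congr 1
    ring
  have h5 : (0 : ℝ) < (y : ℝ) ^ (p - 1) := Real.rpow_pos_of_pos hy0 _
  have h6 : (y : ℝ) ^ p * (1 + p * (1 / y)) ≤ (y : ℝ) ^ p * (1 + 1 / (y : ℝ)) ^ p :=
    mul_le_mul_of_nonneg_left h1 (Real.rpow_nonneg hy0.le _)
  have h7 : (y : ℝ) ^ p * (1 + p * (1 / y)) = (y : ℝ) ^ p + p * (y : ℝ) ^ (p - 1) := by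
    rw [h4]
    field_simp
  nlinarith

theorem pw_key {x y : ℕ} {p : ℝ} (hp : 1 ≤ p) (hy : 1 ≤ y) (hxy : y < x) :
    0 ≤ pw y p * (Real.log x - Real.log y) ∧
      pw y p * (Real.log x - Real.log y) ≤ pw x p - pw y p := by
  have hy0 : (0 : ℝ) < y := by exact_mod_cast (by omega : 0 < y)
  have hx1 : (y : ℝ) ≤ x := by exact_mod_cast hxy.le
  have h1 : 0 ≤ Real.log x - Real.log y := by
    have := Real.log_le_log hy0 hx1
    linarith
  refine ⟨mul_nonneg (pw_pos y p).le h1, ?_⟩
  have h2 : pw x p = pw y p * Real.exp (p * (Real.log x - Real.log y)) := by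
    unfold pw
    rw [← Real.exp_add]
    congr 1
    ring
  have h3 := Real.add_one_le_exp (p * (Real.log x - Real.log y))
  have h4 : Real.log x - Real.log y ≤ p * (Real.log x - Real.log y) := by nlinarith
  have h5 := mul_le_mul_of_nonneg_left (h4.trans (by linarith :
    p * (Real.log x - Real.log y) ≤ Real.exp (p * (Real.log x - Real.log y)) - 1)) (pw_pos y p).le
  rw [h2]
  linarith

theorem pw_d1 {x y : ℕ} {p : ℝ} (hp : 1 ≤ p) (hy : 1 ≤ y) (hxy : y < x) :
    (pw x p - pw y p) * Real.log x ≤ pw x p * Real.log x - pw y p * Real.log y ∧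
      pw x p * Real.log x - pw y p * Real.log y ≤ (pw x p - pw y p) * (Real.log x + 1) := by
  have h := pw_key hp hy hxy
  constructor
  · linarith [h.1]
  · linarith [h.2]

theorem pw_d2 {x y : ℕ} {p : ℝ} (hp : 1 ≤ p) (hy : 1 ≤ y) (hxy : y < x) :
    0 ≤ pw x p * Real.log x * Real.log x - pw y p * Real.log y * Real.log y ∧
      pw x p * Real.log x * Real.log x - pw y p * Real.log y * Real.log y ≤
        (pw x p - pw y p) * (Real.log x ^ 2 + 2 * Real.log x) := by
  have h := pw_key hp hy hxy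
  have hy0 : (0 : ℝ) < y := by exact_mod_cast (by omega : 0 < y)
  have hx1 : (y : ℝ) ≤ x := by exact_mod_cast hxy.le
  have h1 := Real.log_le_log hy0 hx1
  have h2 := Real.log_natCast_nonneg x
  have h3 := Real.log_natCast_nonneg y
  have h4 : 0 ≤ pw x p - pw y p := h.1.trans h.2
  have e1 : pw x p * Real.log x * Real.log x - pw y p * Real.log y * Real.log y =
      (pw x p - pw y p) * Real.log x ^ 2 +
        pw y p * (Real.log x - Real.log y) * (Real.log x + Real.log y) := by ring
  rw [e1]
  constructor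
  · exact add_nonneg (by positivity) (mul_nonneg h.1 (by linarith))
  · have h5 : pw y p * (Real.log x - Real.log y) * (Real.log x + Real.log y) ≤
        (pw x p - pw y p) * (2 * Real.log x) :=
      mul_le_mul h.2 (by linarith) (by linarith) h4
    linarith

end Pool.Agent.EWar
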