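import Pool.Agent.EWar.Osc
import Pool.Agent.MWar.Var

/-!
The second moment of the number of representations of `y` by `f a x + g b x`, minus the expected
number, averaged over the parameter `x` and over `y`.
-/

set_option autoImplicit false

open MeasureTheory Set Filter Topology

namespace Pool.Agent.EWar

open Pool.Agent.MWar (gk GG ph gk_prod_integrable gk_prod_integral abs_GG_le abs_GG_le_far GG_zero
  ph_zero ph_eq ph_nonneg)

variable {ι κ : Type*} [DecidableEq ι] [DecidableEq κ]

/-- narrow count minus wide count -/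
noncomputable def FF (A : Finset ι) (B : Finset κ) (f : ι → ℝ → ℝ) (g : κ → ℝ → ℝ)
    (e H x y : ℝ) : ℝ :=
  ∑ p ∈ A ×ˢ B, gk e H (f p.1 x + g p.2 x - y)

/-- the second moment over `y` -/
noncomputable def WW (A : Finset ι) (B : Finset κ) (f : ι → ℝ → ℝ) (g : κ → ℝ → ℝ)
    (e H x : ℝ) : ℝ :=
  ∑ p ∈ A ×ˢ B, ∑ q ∈ A ×ˢ B, GG e H ((f p.1 x - f q.1 x) + (g p.2 x - g q.2 x))

theorem FF_sq (A : Finset ι) (B : Finset κ) (f : ι → ℝ → ℝ) (g : κ → ℝ → ℝ) (e H x y : ℝ) :
    FF A B f g e H x y ^ 2 = ∑ p ∈ A ×ˢ B, ∑ q ∈ A ×ˢ B,
      gk e H (f p.1 x + g p.2 x - y) * gk e H (f q.1 x + g q.2 x - y) := by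
  unfold FF
  rw [sq, Finset.sum_mul_sum]

theorem FF_sq_integrable {e H : ℝ} (he : 0 < e) (heH : e ≤ H) (A : Finset ι) (B : Finset κ)
    (f : ι → ℝ → ℝ) (g : κ → ℝ → ℝ) (x : ℝ) :
    Integrable (fun y => FF A B f g e H x y ^ 2) := by
  simp only [FF_sq]
  exact integrable_finset_sum _ fun p _ => integrable_finset_sum _ fun q _ =>
    gk_prod_integrable he heH _ _

theorem integral_FF_sq {e H : ℝ} (he : 0 < e) (heH : e ≤ H) (A : Finset ι) (B : Finset κ)
    (f : ι → ℝ → ℝ) (g : κ → ℝ → ℝ) (x : ℝ) :
    ∫ y, FF A B f g e H x y ^ 2 = WW A B f g e H x := by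
  simp only [FF_sq]
  unfold WW
  rw [integral_finset_sum _ fun p _ => integrable_finset_sum _ fun q _ =>
    gk_prod_integrable he heH _ _]
  refine Finset.sum_congr rfl fun p _ => ?_
  rw [integral_finset_sum _ fun q _ => gk_prod_integrable he heH _ _]
  refine Finset.sum_congr rfl fun q _ => ?_
  rw [gk_prod_integral]
  congr 1
  ring

theorem WW_nonneg {e H : ℝ} (he : 0 < e) (heH : e ≤ H) (A : Finset ι) (B : Finset κ)
    (f : ι → ℝ → ℝ) (g : κ → ℝ → ℝ) (x : ℝ) : 0 ≤ WW A B f g e H x := by
  rw [← integral_FF_sq he heH]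
  exact integral_nonneg fun y => sq_nonneg _

theorem continuous_WW {e H : ℝ} (he : 0 < e) (heH : e ≤ H) (A : Finset ι) (B : Finset κ)
    {f : ι → ℝ → ℝ} {g : κ → ℝ → ℝ} (hf : ∀ a, Continuous (f a)) (hg : ∀ b, Continuous (g b)) :
    Continuous (WW A B f g e H) := by
  unfold WW
  refine continuous_finsetSum _ fun p _ => continuous_finsetSum _ fun q _ => ?_
  exact (continuous_GG he heH).comp
    (((hf p.1).sub (hf q.1)).add ((hg p.2).sub (hg q.2)))

/-- the second moment bound -/
theorem integral_WW_le {A : Finset ι} {B : Finset κ} {f : ι → ℝ → ℝ} {g : κ → ℝ → ℝ}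
    {e H s t K L C : ℝ} (hf : ∀ a, Continuous (f a)) (hg : ∀ b, Continuous (g b))
    (he : 0 < e) (heH : e ≤ H) (hst : s ≤ t) (hK0 : 0 ≤ K) (hC : 0 ≤ C)
    (hK : ∀ x ∈ Icc s t, ∀ z : ℝ, ((A.filter fun a => |f a x - z| ≤ 2 * H).card : ℝ) ≤ K)
    (hL : ∀ x ∈ Icc s t, ∀ b ∈ B, ∑ b' ∈ B.erase b, 1 / |g b x - g b' x| ≤ L)
    (hA : ∀ x ∈ Icc s t, ∀ a ∈ A, ∀ a' ∈ A, a ≠ a' → 2 * e < |f a x - f a' x|)
    (hB : ∀ x ∈ Icc s t, ∀ b ∈ B, ∀ b' ∈ B, b ≠ b' → 2 * e < |g b x - g b' x|)
    (hosc : ∀ a ∈ A, ∀ a' ∈ A, a ≠ a' → ∀ b ∈ B, ∀ b' ∈ B, b ≠ b' →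
      |∫ x in s..t, GG e H ((f a x - f a' x) + (g b x - g b' x))| ≤
        2 * ind H ((f a t - f a' t) + (g b t - g b' t)) / |g b t - g b' t| +
        2 * ind H ((f a s - f a' s) + (g b s - g b' s)) / |g b s - g b' s| +
        ∫ x in s..t, C * (ind H ((f a x - f a' x) + (g b x - g b' x)) / |g b x - g b' x|)) :
    ∫ x in s..t, WW A B f g e H x ≤
      A.card * B.card * ((t - s) * (2 / e + 3 * K / (2 * H) + 3 * L) +
        4 * K * L + (t - s) * C * K * L) := by
  have hH : 0 < H := he.trans_le heH
  have hGc := continuous_GG he heH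
  have hcont : ∀ (a a' : ι) (b b' : κ),
      Continuous fun x => (f a x - f a' x) + (g b x - g b' x) := fun a a' b b' =>
    ((hf a).sub (hf a')).add ((hg b).sub (hg b'))
  have hii : ∀ (a a' : ι) (b b' : κ), IntervalIntegrable
      (fun x => GG e H ((f a x - f a' x) + (g b x - g b' x))) volume s t := fun a a' b b' =>
    (hGc.comp (hcont a a' b b')).intervalIntegrable _ _
  have h1 : ∫ x in s..t, WW A B f g e H x = ∑ p ∈ A ×ˢ B, ∑ q ∈ A ×ˢ B,
      ∫ x in s..t, GG e H ((f p.1 x - f q.1 x) + (g p.2 x - g q.2 x)) := by
    unfold WW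
    rw [intervalIntegral.integral_finsetSum]
    · refine Finset.sum_congr rfl fun p _ => ?_
      rw [intervalIntegral.integral_finsetSum]
      exact fun q _ => hii _ _ _ _
    · intro p _
      apply Continuous.intervalIntegrable
      exact continuous_finsetSum _ fun q _ => hGc.comp (hcont _ _ _ _)
  rw [h1]
  -- counting
  have hKc : ∀ x ∈ Icc s t, ∀ (w : ℝ) (a : ι),
      ∑ a' ∈ A, ind H ((f a x - f a' x) + w) ≤ K := by
    intro x hx w a
    refine le_trans (le_of_eq ?_) (hK x hx (f a x + w))
    rw [Finset.card_filter, Nat.cast_sum]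
    simp only [Nat.cast_ite, Nat.cast_one, Nat.cast_zero]
    refine Finset.sum_congr rfl fun a' _ => ?_
    unfold ind
    have e1 : |f a x - f a' x + w| = |f a' x - (f a x + w)| := by
      rw [abs_sub_comm]
      congr 1
      ring
    rw [e1]
  have hKe : ∀ x ∈ Icc s t, ∀ (w : ℝ) (a : ι),
      ∑ a' ∈ A.erase a, ind H ((f a x - f a' x) + w) ≤ K := by
    intro x hx w a
    refine le_trans ?_ (hKc x hx w a)
    exact Finset.sum_le_sum_of_subset_of_nonneg (Finset.erase_subset _ _)
      fun i _ _ => ind_nonneg _ _
  -- integrability of the majorants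
  have hgi : ∀ b ∈ B, ∀ b' ∈ B, b ≠ b' → ∀ a a' : ι, IntervalIntegrable
      (fun x => C * (ind H ((f a x - f a' x) + (g b x - g b' x)) / |g b x - g b' x|))
      volume s t := by
    intro b hb b' hb' hbb a a'
    have hbc : ContinuousOn (fun x => C * (1 / |g b x - g b' x|)) (uIcc s t) := by
      rw [uIcc_of_le hst]
      refine continuousOn_const.mul (continuousOn_const.div
        ((hg b).sub (hg b')).abs.continuousOn fun x hx => ?_)
      have := hB x hx b hb b' hb' hbb
      exact (lt_trans (by linarith) this).ne'
    refine hbc.intervalIntegrable.mono_fun' ?_ ?_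
    · apply Measurable.aestronglyMeasurable
      exact (((measurable_ind H).comp (hcont a a' b b').measurable).div
        ((hg b).sub (hg b')).abs.measurable).const_mul _
    · refine Eventually.of_forall fun x => ?_
      beta_reduce
      rw [Real.norm_eq_abs, abs_of_nonneg]
      · have h1 := ind_le_one H ((f a x - f a' x) + (g b x - g b' x))
        gcongr
      · have h1 := ind_nonneg H ((f a x - f a' x) + (g b x - g b' x))
        positivity
  have hpt : ∀ p ∈ A ×ˢ B, ∑ q ∈ A ×ˢ B,
      ∫ x in s..t, GG e H ((f p.1 x - f q.1 x) + (g p.2 x - g q.2 x)) ≤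
      (t - s) * (2 / e + 3 * K / (2 * H) + 3 * L) + 4 * K * L + (t - s) * C * K * L := by
    rintro ⟨a, b⟩ hp
    rw [Finset.mem_product] at hp
    obtain ⟨ha, hb⟩ := hp
    rw [Finset.sum_product_right]
    simp only []
    rw [← Finset.add_sum_erase B _ hb]
    simp only [sub_self, add_zero]
    -- the part with `b' = b`
    have P1 : ∑ a' ∈ A, ∫ x in s..t, GG e H (f a x - f a' x) ≤
        (t - s) * (2 / e + 3 * K / (2 * H)) := by
      rw [← Finset.add_sum_erase A _ ha]
      have h7 : ∫ x in s..t, GG e H (f a x - f a x) ≤ (t - s) * (2 / e) := by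
        simp only [sub_self, intervalIntegral.integral_const, smul_eq_mul]
        refine mul_le_mul_of_nonneg_left ?_ (by linarith)
        exact (le_abs_self _).trans (abs_GG_le he heH _)
      have hc : ∀ a' : ι, Continuous fun x => f a x - f a' x := fun a' => (hf a).sub (hf a')
      have h8 : ∑ a' ∈ A.erase a, ∫ x in s..t, GG e H (f a x - f a' x) ≤
          (t - s) * (3 * K / (2 * H)) := by
        have hi : ∀ a' : ι, IntervalIntegrable (fun x => GG e H (f a x - f a' x)) volume s t :=
          fun a' => (hGc.comp (hc a')).intervalIntegrable _ _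
        rw [← intervalIntegral.integral_finsetSum (fun a' _ => hi a')]
        have h9 : ∫ x in s..t, ∑ a' ∈ A.erase a, GG e H (f a x - f a' x) ≤
            ∫ _ in s..t, 3 * K / (2 * H) := by
          refine intervalIntegral.integral_mono_on hst ?_ intervalIntegrable_const ?_
          · apply Continuous.intervalIntegrable
            exact continuous_finsetSum _ fun a' _ => hGc.comp (hc a')
          · intro x hx
            calc ∑ a' ∈ A.erase a, GG e H (f a x - f a' x)
                ≤ ∑ a' ∈ A.erase a, 3 / (2 * H) * ind H ((f a x - f a' x) + 0) := by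
                  refine Finset.sum_le_sum fun a' ha' => ?_
                  rw [Finset.mem_erase] at ha'
                  rw [add_zero]
                  unfold ind
                  split_ifs with h6
                  · rw [mul_one]
                    exact (le_abs_self _).trans
                      (abs_GG_le_far he heH (hA x hx a ha a' ha'.2 (Ne.symm ha'.1)))
                  · rw [GG_zero heH (not_le.1 h6), mul_zero]
              _ = 3 / (2 * H) * ∑ a' ∈ A.erase a, ind H ((f a x - f a' x) + 0) := by
                  rw [Finset.mul_sum]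
              _ ≤ 3 / (2 * H) * K :=
                  mul_le_mul_of_nonneg_left (hKe x hx 0 a) (by positivity)
              _ = 3 * K / (2 * H) := by ring
        rw [intervalIntegral.integral_const, smul_eq_mul] at h9
        exact h9
      calc _ ≤ (t - s) * (2 / e) + (t - s) * (3 * K / (2 * H)) := add_le_add h7 h8
        _ = _ := by ring
    -- the part with `b' ≠ b`, `a' = a`
    have P2 : ∑ b' ∈ B.erase b, ∫ x in s..t, GG e H (g b x - g b' x) ≤ (t - s) * (3 * L) := by
      have hc : ∀ b' : κ, Continuous fun x => g b x - g b' x := fun b' => (hg b).sub (hg b')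
      have hi : ∀ b' : κ, IntervalIntegrable (fun x => GG e H (g b x - g b' x)) volume s t :=
        fun b' => (hGc.comp (hc b')).intervalIntegrable _ _
      rw [← intervalIntegral.integral_finsetSum (fun b' _ => hi b')]
      have h9 : ∫ x in s..t, ∑ b' ∈ B.erase b, GG e H (g b x - g b' x) ≤
          ∫ _ in s..t, 3 * L := by
        refine intervalIntegral.integral_mono_on hst ?_ intervalIntegrable_const ?_
        · apply Continuous.intervalIntegrable
          exact continuous_finsetSum _ fun b' _ => hGc.comp (hc b')
        · intro x hx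
          calc ∑ b' ∈ B.erase b, GG e H (g b x - g b' x)
              ≤ ∑ b' ∈ B.erase b, 3 * (1 / |g b x - g b' x|) := by
                refine Finset.sum_le_sum fun b' hb' => ?_
                rw [Finset.mem_erase] at hb'
                have h2 := hB x hx b hb b' hb'.2 (Ne.symm hb'.1)
                have hpos : 0 < |g b x - g b' x| := lt_trans (by linarith) h2
                rcases le_or_gt |g b x - g b' x| (2 * H) with h6 | h6
                · refine (le_abs_self _).trans ((abs_GG_le_far he heH h2).trans ?_)
                  rw [mul_one_div]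
                  exact div_le_div_of_nonneg_left (by norm_num) hpos h6
                · rw [GG_zero heH h6]
                  positivity
            _ = 3 * ∑ b' ∈ B.erase b, 1 / |g b x - g b' x| := by rw [Finset.mul_sum]
            _ ≤ 3 * L := mul_le_mul_of_nonneg_left (hL x hx b hb) (by norm_num)
      rw [intervalIntegral.integral_const, smul_eq_mul] at h9
      exact h9
    -- the part with `b' ≠ b`, `a' ≠ a`
    have P3 : ∑ b' ∈ B.erase b, ∑ a' ∈ A.erase a,
        ∫ x in s..t, GG e H ((f a x - f a' x) + (g b x - g b' x)) ≤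
        4 * K * L + (t - s) * C * K * L := by
      have hend : ∀ x ∈ Icc s t, ∑ b' ∈ B.erase b, ∑ a' ∈ A.erase a,
          2 * ind H ((f a x - f a' x) + (g b x - g b' x)) / |g b x - g b' x| ≤ 2 * K * L := by
        intro x hx
        calc ∑ b' ∈ B.erase b, ∑ a' ∈ A.erase a,
            2 * ind H ((f a x - f a' x) + (g b x - g b' x)) / |g b x - g b' x|
            = ∑ b' ∈ B.erase b, 2 * (1 / |g b x - g b' x|) *
              ∑ a' ∈ A.erase a, ind H ((f a x - f a' x) + (g b x - g b' x)) := by
              refine Finset.sum_congr rfl fun b' _ => ?_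
              rw [Finset.mul_sum]
              refine Finset.sum_congr rfl fun a' _ => ?_
              ring
          _ ≤ ∑ b' ∈ B.erase b, 2 * (1 / |g b x - g b' x|) * K := by
              refine Finset.sum_le_sum fun b' _ => ?_
              exact mul_le_mul_of_nonneg_left (hKe x hx _ a) (by positivity)
          _ = 2 * K * ∑ b' ∈ B.erase b, 1 / |g b x - g b' x| := by
              rw [Finset.mul_sum]
              refine Finset.sum_congr rfl fun b' _ => ?_
              ring
          _ ≤ 2 * K * L := mul_le_mul_of_nonneg_left (hL x hx b hb) (by positivity)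
      have hmid : ∑ b' ∈ B.erase b, ∑ a' ∈ A.erase a,
          ∫ x in s..t, C * (ind H ((f a x - f a' x) + (g b x - g b' x)) / |g b x - g b' x|) ≤
          (t - s) * C * K * L := by
        have hsw : ∑ b' ∈ B.erase b, ∑ a' ∈ A.erase a,
            ∫ x in s..t, C * (ind H ((f a x - f a' x) + (g b x - g b' x)) / |g b x - g b' x|) =
            ∫ x in s..t, ∑ b' ∈ B.erase b, ∑ a' ∈ A.erase a,
            C * (ind H ((f a x - f a' x) + (g b x - g b' x)) / |g b x - g b' x|) := by
          rw [intervalIntegral.integral_finsetSum]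
          · refine Finset.sum_congr rfl fun b' hb' => ?_
            rw [Finset.mem_erase] at hb'
            rw [intervalIntegral.integral_finsetSum]
            exact fun a' _ => hgi b hb b' hb'.2 (Ne.symm hb'.1) a a'
          · intro b' hb'
            rw [Finset.mem_erase] at hb'
            have := IntervalIntegrable.sum (A.erase a) (f := fun a' x =>
              C * (ind H ((f a x - f a' x) + (g b x - g b' x)) / |g b x - g b' x|))
              (μ := volume) (a := s) (b := t)
              fun a' _ => hgi b hb b' hb'.2 (Ne.symm hb'.1) a a'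
            refine this.congr ?_
            refine fun x _ => ?_
            simp only [Finset.sum_apply]
        rw [hsw]
        have h9 : ∫ x in s..t, ∑ b' ∈ B.erase b, ∑ a' ∈ A.erase a,
            C * (ind H ((f a x - f a' x) + (g b x - g b' x)) / |g b x - g b' x|) ≤
            ∫ _ in s..t, C * K * L := by
          refine intervalIntegral.integral_mono_on hst ?_ intervalIntegrable_const ?_
          · have := IntervalIntegrable.sum (B.erase b) (f := fun b' => ∑ a' ∈ A.erase a,
              fun x => C * (ind H ((f a x - f a' x) + (g b x - g b' x)) / |g b x - g b' x|))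
              (μ := volume) (a := s) (b := t)
              fun b' hb' => IntervalIntegrable.sum _ fun a' _ => by
                rw [Finset.mem_erase] at hb'
                exact hgi b hb b' hb'.2 (Ne.symm hb'.1) a a'
            refine this.congr ?_
            refine fun x _ => ?_
            simp only [Finset.sum_apply]
          · intro x hx
            calc ∑ b' ∈ B.erase b, ∑ a' ∈ A.erase a,
                C * (ind H ((f a x - f a' x) + (g b x - g b' x)) / |g b x - g b' x|)
                = ∑ b' ∈ B.erase b, C * (1 / |g b x - g b' x|) *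
                  ∑ a' ∈ A.erase a, ind H ((f a x - f a' x) + (g b x - g b' x)) := by
                  refine Finset.sum_congr rfl fun b' _ => ?_
                  rw [Finset.mul_sum]
                  refine Finset.sum_congr rfl fun a' _ => ?_
                  ring
              _ ≤ ∑ b' ∈ B.erase b, C * (1 / |g b x - g b' x|) * K := by
                  refine Finset.sum_le_sum fun b' _ => ?_
                  exact mul_le_mul_of_nonneg_left (hKe x hx _ a) (by positivity)
              _ = C * K * ∑ b' ∈ B.erase b, 1 / |g b x - g b' x| := by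
                  rw [Finset.mul_sum]
                  refine Finset.sum_congr rfl fun b' _ => ?_
                  ring
              _ ≤ C * K * L := mul_le_mul_of_nonneg_left (hL x hx b hb) (by positivity)
        rw [intervalIntegral.integral_const, smul_eq_mul] at h9
        refine h9.trans (le_of_eq ?_)
        ring
      calc ∑ b' ∈ B.erase b, ∑ a' ∈ A.erase a,
          ∫ x in s..t, GG e H ((f a x - f a' x) + (g b x - g b' x))
          ≤ ∑ b' ∈ B.erase b, ∑ a' ∈ A.erase a,
            (2 * ind H ((f a t - f a' t) + (g b t - g b' t)) / |g b t - g b' t| +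
            2 * ind H ((f a s - f a' s) + (g b s - g b' s)) / |g b s - g b' s| +
            ∫ x in s..t, C * (ind H ((f a x - f a' x) + (g b x - g b' x)) /
              |g b x - g b' x|)) := by
            refine Finset.sum_le_sum fun b' hb' => Finset.sum_le_sum fun a' ha' => ?_
            rw [Finset.mem_erase] at hb' ha'
            exact (le_abs_self _).trans
              (hosc a ha a' ha'.2 (Ne.symm ha'.1) b hb b' hb'.2 (Ne.symm hb'.1))
        _ = ∑ b' ∈ B.erase b, ∑ a' ∈ A.erase a,
            2 * ind H ((f a t - f a' t) + (g b t - g b' t)) / |g b t - g b' t| +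
            ∑ b' ∈ B.erase b, ∑ a' ∈ A.erase a,
            2 * ind H ((f a s - f a' s) + (g b s - g b' s)) / |g b s - g b' s| +
            ∑ b' ∈ B.erase b, ∑ a' ∈ A.erase a,
            ∫ x in s..t, C * (ind H ((f a x - f a' x) + (g b x - g b' x)) /
              |g b x - g b' x|) := by
            simp only [Finset.sum_add_distrib]
        _ ≤ 2 * K * L + 2 * K * L + (t - s) * C * K * L :=
            add_le_add (add_le_add (hend t (right_mem_Icc.2 hst)) (hend s (left_mem_Icc.2 hst)))
              hmid
        _ = _ := by ring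
    have hsplit : ∑ b' ∈ B.erase b, ∑ a' ∈ A,
        ∫ x in s..t, GG e H ((f a x - f a' x) + (g b x - g b' x)) =
        (∑ b' ∈ B.erase b, ∫ x in s..t, GG e H (g b x - g b' x)) +
        ∑ b' ∈ B.erase b, ∑ a' ∈ A.erase a,
        ∫ x in s..t, GG e H ((f a x - f a' x) + (g b x - g b' x)) := by
      rw [← Finset.sum_add_distrib]
      refine Finset.sum_congr rfl fun b' _ => ?_
      rw [← Finset.add_sum_erase A _ ha]
      simp only [sub_self, zero_add]
    rw [hsplit]
    calc _ ≤ (t - s) * (2 / e + 3 * K / (2 * H)) + ((t - s) * (3 * L) +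
          (4 * K * L + (t - s) * C * K * L)) := add_le_add P1 (add_le_add P2 P3)
      _ = _ := by ring
  refine (Finset.sum_le_card_nsmul _ _ _ hpt).trans (le_of_eq ?_)
  rw [Finset.card_product, nsmul_eq_mul]
  push_cast
  ring

end Pool.Agent.EWar
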